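import Pool.Agent.RamseyH5.StepMain

set_option autoImplicit false

/-!
# Graphs of bounded chromatic number: the induction
-/

namespace Pool.Agent.RamseyH5

open Finset

section

open scoped Classical

/-- The statement proved by induction on the number of colours `k`. -/
def SK (k f C : ℕ) : Prop :=
  ∀ (V W : Type) [Fintype V] (H : SimpleGraph V) (G : SimpleGraph W), ¬ H5.IsContained G →
    H.Colorable k → ∀ μ : ℕ, 1 ≤ μ → Fintype.card V ≤ μ →
    ∑ v : V, (univ.filter (fun u => H.Adj v u)).card ≤ μ → ∀ U : Finset W,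
    C * μ ^ (5 * f + 4) ≤ U.card ^ (4 * f + 4) → Emb H G univ U

variable {V W : Type}

/-- The graph induced on a finite set of vertices. -/
def Sub (G : SimpleGraph W) (U : Finset W) : SimpleGraph {x // x ∈ U} :=
  G.comap (fun x => x.1)

theorem sub_free {G : SimpleGraph W} (hG : ¬ H5.IsContained G) (U : Finset W) :
    ¬ H5.IsContained (Sub G U) := by
  rintro ⟨⟨⟨g, hg⟩, hinj⟩⟩
  refine hG ⟨⟨⟨fun i => (g i).1, fun {a b} hab => ?_⟩, fun a b hab => ?_⟩⟩
  · exact hg hab
  · exact hinj (Subtype.ext hab)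

theorem emb_of_sub {H : SimpleGraph V} {G : SimpleGraph W} {P : Finset V} {U : Finset W}
    {Z : Finset {x // x ∈ U}} (h : Emb H (Sub G U) P Z) : Emb H G P U := by
  obtain ⟨f, ⟨hf1, hf2⟩, -⟩ := h
  refine ⟨fun v => (f v).1, ⟨fun x hx y hy hxy => hf1 x hx y hy (Subtype.ext hxy),
    fun x hx y hy hxy => ?_⟩, fun x _ => (f x).2⟩
  exact hf2 x hx y hy hxy

theorem emb_of_restrict [Nonempty W] {H : SimpleGraph V} {G : SimpleGraph W} {P : Finset V}
    {Z : Finset W} (h : Emb (Sub H P) G univ Z) : Emb H G P Z := by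
  obtain ⟨f, ⟨hf1, hf2⟩, hf3⟩ := h
  refine ⟨fun v => if hv : v ∈ P then f ⟨v, hv⟩ else Classical.arbitrary W, ⟨?_, ?_⟩, ?_⟩
  · intro x hx y hy hxy
    simp only [hx, hy, dif_pos] at hxy
    exact congrArg Subtype.val (hf1 _ (mem_univ _) _ (mem_univ _) hxy)
  · intro x hx y hy hxy
    simp only [hx, hy, dif_pos]
    exact hf2 ⟨x, hx⟩ (mem_univ _) ⟨y, hy⟩ (mem_univ _) hxy
  · intro x hx
    simp only [hx, dif_pos]
    exact hf3 _ (mem_univ _)

theorem sub_deg (H : SimpleGraph V) (P : Finset V) (v : {x // x ∈ P}) :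
    (univ.filter (fun u => (Sub H P).Adj v u)).card ≤ (P.filter (fun u => H.Adj v.1 u)).card := by
  refine card_le_card_of_injOn (fun u => u.1) ?_ ?_
  · intro u hu
    have h1 := (mem_filter.1 hu).2
    exact mem_filter.2 ⟨u.2, h1⟩
  · intro a _ b _ hab
    exact Subtype.ext hab

theorem sub_deg_sum [Fintype V] (H : SimpleGraph V) (P : Finset V) :
    ∑ v : {x // x ∈ P}, (univ.filter (fun u => (Sub H P).Adj v u)).card ≤
      ∑ v : V, (univ.filter (fun u => H.Adj v u)).card := by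
  calc _ ≤ ∑ v : {x // x ∈ P}, (univ.filter (fun u => H.Adj v.1 u)).card :=
        sum_le_sum fun v _ => (sub_deg H P v).trans
          (card_le_card (filter_subset_filter _ (subset_univ P)))
    _ = ∑ v ∈ P, (univ.filter (fun u => H.Adj v u)).card :=
        sum_coe_sort P (fun v => (univ.filter (fun u => H.Adj v u)).card)
    _ ≤ _ := sum_le_sum_of_subset (subset_univ P)

theorem sub_deg_sq (H : SimpleGraph V) (P : Finset V) (n : ℕ) (hn : P.card ≤ n) :
    ∑ v : {x // x ∈ P}, (univ.filter (fun u => (Sub H P).Adj v u)).card ≤ n ^ 2 := by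
  calc _ ≤ ∑ _v : {x // x ∈ P}, n := sum_le_sum fun v _ => (sub_deg H P v).trans
        ((card_le_card (filter_subset _ _)).trans hn)
    _ = P.card * n := by rw [sum_const, smul_eq_mul, card_univ, Fintype.card_coe]
    _ ≤ n * n := Nat.mul_le_mul_right _ hn
    _ = _ := by ring

/-- A graph with degree sum `μ` is `√μ`-degenerate. -/
theorem Dg_sqrt [Fintype V] (H : SimpleGraph V) (μ : ℕ)
    (hμ : ∑ v : V, (univ.filter (fun u => H.Adj v u)).card ≤ μ) :
    Dg H univ (Nat.sqrt μ + 1) := by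
  intro S hS hne
  by_contra hcon
  push Not at hcon
  set r := Nat.sqrt μ with hr
  have hr2 : μ < (r + 1) * (r + 1) := Nat.lt_succ_sqrt μ
  obtain ⟨v, hv⟩ := hne
  have h1 : r + 1 < S.card := (hcon v hv).trans_le (card_le_card (filter_subset _ _))
  have h2 : S.card * (r + 1) ≤ μ := by
    calc S.card * (r + 1) = ∑ _v ∈ S, (r + 1) := by rw [sum_const, smul_eq_mul]
      _ ≤ ∑ v ∈ S, (S.filter (fun u => H.Adj v u)).card := sum_le_sum fun v hv => (hcon v hv).le
      _ ≤ ∑ v ∈ S, (univ.filter (fun u => H.Adj v u)).card :=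
          sum_le_sum fun v _ => card_le_card (filter_subset_filter _ (subset_univ S))
      _ ≤ ∑ v : V, (univ.filter (fun u => H.Adj v u)).card :=
          sum_le_sum_of_subset (subset_univ S)
      _ ≤ μ := hμ
  have h3 : (r + 1) * (r + 1) ≤ S.card * (r + 1) := Nat.mul_le_mul_right _ h1.le
  omega

theorem SK_base : SK 2 0 (1152921504606846976 ^ 4) := by
  intro V W _ H G hG hcol μ hμ1 hVμ hμ U hU
  have hU1 : 1152921504606846976 * μ ≤ U.card := by
    by_contra hcon
    push Not at hcon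
    have h1 := Nat.pow_lt_pow_left hcon (n := 4) (by norm_num)
    rw [mul_pow] at h1
    simp only [Nat.mul_zero, Nat.zero_add] at hU
    omega
  obtain ⟨c⟩ := hcol
  have hne : Nonempty {x // x ∈ U} := by
    obtain ⟨x, hx⟩ := card_pos.1 (by omega : 0 < U.card)
    exact ⟨⟨x, hx⟩⟩
  have hBI : ∀ x ∈ univ.filter (fun v => c v = 1), ∀ y ∈ univ.filter (fun v => c v = 1),
      ¬ H.Adj x y := by
    intro x hx y hy hxy
    exact c.valid hxy ((mem_filter.1 hx).2.trans (mem_filter.1 hy).2.symm)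
  have hdat : Dat H ∅ (univ.filter (fun v => c v = 0)) (univ.filter (fun v => c v = 1)) 1 1
      (U.card / 256) μ := by
    refine ⟨le_rfl, le_rfl, by simp, ?_, (Dg_indep H _ hBI).mono subset_rfl (by omega), ?_, hVμ,
      hμ, by omega, by omega, ?_⟩
    · intro x hx y hy hxy
      exact c.valid hxy ((mem_filter.1 hx).2.trans (mem_filter.1 hy).2.symm)
    · intro v
      have h2 : c v = 0 ∨ c v = 1 := by
        generalize c v = i
        fin_cases i
        · exact Or.inl rfl
        · exact Or.inr rfl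
      simp only [mem_union, mem_filter, mem_univ, true_and]
      tauto
    · have h1 : 1152921504606846976 / 256 ≤ U.card / 256 := Nat.div_le_div_right (by omega)
      calc 144115188075855872 * 1 ^ 5 ≤ (1152921504606846976 / 256) ^ 2 := by norm_num
        _ ≤ (U.card / 256) ^ 2 := Nat.pow_le_pow_left h1 2
  obtain ⟨Z, hZ⟩ := sparse_core (sub_free hG U) hdat univ (by
    rw [card_univ, Fintype.card_coe]
    omega)
  exact emb_of_sub hZ

theorem pow_root {a b n : ℕ} (hn : n ≠ 0) (h : a ^ n ≤ b ^ n) : a ≤ b := by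
  by_contra hcon
  push Not at hcon
  exact absurd h (not_le.2 (Nat.pow_lt_pow_left hcon hn))

theorem SK_step {k f C : ℕ} (hC : 1 ≤ C) (hk : SK k f C) :
    SK (k + 1) (3 * f + 2) (C ^ 3 * 2 ^ (600 * (f + 1))) := by
  intro V W _ H G hG hcol μ hμ1 hVμ hμ U hU
  have hC3 : 1 ≤ C ^ 3 := Nat.pow_pos hC
  -- the number `M`
  set M := U.card / 256 with hM
  have hUpos : 1 ≤ U.card := by
    by_contra h0
    have h1 : U.card = 0 := by omega
    rw [h1, zero_pow (by omega)] at hU
    have : 0 < C ^ 3 * 2 ^ (600 * (f + 1)) * μ ^ (5 * (3 * f + 2) + 4) :=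
      Nat.mul_pos (Nat.mul_pos hC3 (by positivity)) (Nat.pow_pos hμ1)
    omega
  have hUe : C ^ 3 * 2 ^ (600 * (f + 1)) * μ ^ (15 * f + 14) ≤ U.card ^ (12 * f + 12) := by
    have e1 : 5 * (3 * f + 2) + 4 = 15 * f + 14 := by ring
    have e2 : 4 * (3 * f + 2) + 4 = 12 * f + 12 := by ring
    rw [e1, e2] at hU
    exact hU
  have hU256 : 256 ≤ U.card := by
    have h1 : (256 : ℕ) ^ (12 * f + 12) ≤ U.card ^ (12 * f + 12) := by
      refine le_trans ?_ hUe
      have h2 : (256 : ℕ) ^ (12 * f + 12) = 2 ^ (8 * (12 * f + 12)) := by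
        rw [pow_mul]
        norm_num
      have h3 : 2 ^ (8 * (12 * f + 12)) ≤ 2 ^ (600 * (f + 1)) :=
        Nat.pow_le_pow_right (by norm_num) (by omega)
      rw [h2]
      refine h3.trans ?_
      rw [mul_assoc]
      exact (Nat.le_mul_of_pos_right _ (Nat.pow_pos hμ1)).trans (Nat.le_mul_of_pos_left _ hC3)
    exact pow_root (by omega) h1
  have hUM : U.card ≤ 512 * M := by omega
  have hM1 : 1 ≤ M := by omega
  have hMe : C ^ 3 * 2 ^ (480 * (f + 1)) * μ ^ (15 * f + 14) ≤ M ^ (12 * f + 12) := by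
    have h1 : 2 ^ (120 * (f + 1)) * (C ^ 3 * 2 ^ (480 * (f + 1)) * μ ^ (15 * f + 14)) ≤
        2 ^ (120 * (f + 1)) * M ^ (12 * f + 12) := by
      have hab : 2 ^ (120 * (f + 1)) * 2 ^ (480 * (f + 1)) = 2 ^ (600 * (f + 1)) := by
        have e : 120 * (f + 1) + 480 * (f + 1) = 600 * (f + 1) := by ring
        rw [← pow_add, e]
      calc 2 ^ (120 * (f + 1)) * (C ^ 3 * 2 ^ (480 * (f + 1)) * μ ^ (15 * f + 14))
          = C ^ 3 * (2 ^ (120 * (f + 1)) * 2 ^ (480 * (f + 1))) * μ ^ (15 * f + 14) := by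
            generalize 2 ^ (120 * (f + 1)) = a
            generalize 2 ^ (480 * (f + 1)) = b
            ring
        _ = C ^ 3 * 2 ^ (600 * (f + 1)) * μ ^ (15 * f + 14) := by rw [hab]
        _ ≤ U.card ^ (12 * f + 12) := hUe
        _ ≤ (512 * M) ^ (12 * f + 12) := Nat.pow_le_pow_left hUM _
        _ = 2 ^ (9 * (12 * f + 12)) * M ^ (12 * f + 12) := by
            rw [mul_pow, pow_mul]
            norm_num
        _ ≤ 2 ^ (120 * (f + 1)) * M ^ (12 * f + 12) :=
            Nat.mul_le_mul_right _ (Nat.pow_le_pow_right (by norm_num) (by omega))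
    exact Nat.le_of_mul_le_mul_left h1 (by positivity)
  have hM6 : 2 ^ 200 * μ ^ 7 ≤ M ^ 6 := by
    refine pow_root (n := 2 * (f + 1)) (by omega) ?_
    calc (2 ^ 200 * μ ^ 7) ^ (2 * (f + 1)) = 2 ^ (400 * (f + 1)) * μ ^ (14 * (f + 1)) := by
          rw [mul_pow, ← pow_mul, ← pow_mul]
          congr 2 <;> ring
      _ ≤ 2 ^ (480 * (f + 1)) * μ ^ (15 * f + 14) :=
          Nat.mul_le_mul (Nat.pow_le_pow_right (by norm_num) (by omega))
            (Nat.pow_le_pow_right hμ1 (by omega))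
      _ ≤ C ^ 3 * 2 ^ (480 * (f + 1)) * μ ^ (15 * f + 14) :=
          Nat.mul_le_mul_right _ (Nat.le_mul_of_pos_left _ hC3)
      _ ≤ M ^ (12 * f + 12) := hMe
      _ = (M ^ 6) ^ (2 * (f + 1)) := by
          rw [← pow_mul]
          congr 1
          ring
  have hMμ : 262144 * μ ≤ M := by
    refine pow_root (n := 6) (by norm_num) ?_
    calc (262144 * μ) ^ 6 = 2 ^ 108 * μ ^ 6 := by ring
      _ ≤ 2 ^ 200 * μ ^ 7 :=
          Nat.mul_le_mul (by norm_num) (Nat.pow_le_pow_right hμ1 (by norm_num))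
      _ ≤ M ^ 6 := hM6
  -- the number `σ`
  set r := Nat.sqrt μ with hr
  have hr2 : r * r ≤ μ := Nat.sqrt_le μ
  have hr3 : μ < (r + 1) * (r + 1) := Nat.lt_succ_sqrt μ
  have hr1 : 1 ≤ r := by
    by_contra h0
    have h1 : r = 0 := by omega
    rw [h1] at hr3
    omega
  set σ := r + 1 with hσ
  have hσμ : σ ^ 2 ≤ 4 * μ := by
    calc σ ^ 2 ≤ (2 * r) ^ 2 := Nat.pow_le_pow_left (by omega) 2
      _ = 4 * (r * r) := by ring
      _ ≤ 4 * μ := Nat.mul_le_mul_left _ hr2
  have hμσ : μ ≤ σ ^ 2 := by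
    have : σ ^ 2 = σ * σ := by ring
    omega
  have hσ1 : 1 ≤ σ := by omega
  -- colours
  obtain ⟨c⟩ := hcol
  set A := univ.filter (fun v => c v = Fin.last k) with hA
  set B := univ.filter (fun v => c v ≠ Fin.last k) with hB
  have hcolB : ∀ P' ⊆ B, (Sub H P').Colorable k := by
    intro P' hP'
    have hlt : ∀ v : {x // x ∈ P'}, (c v.1).1 < k := by
      intro v
      have h1 : c v.1 ≠ Fin.last k := (mem_filter.1 (hP' v.2)).2
      have h2 := (c v.1).2
      have h3 : (c v.1).1 ≠ k := fun h => h1 (Fin.ext h)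
      omega
    refine ⟨SimpleGraph.Coloring.mk (fun v => (⟨(c v.1).1, hlt v⟩ : Fin k)) ?_⟩
    intro v w hvw h
    have h1 : H.Adj v.1 w.1 := hvw
    have h2 : (c v.1).1 = (c w.1).1 := by simpa using h
    exact c.valid h1 (Fin.ext h2)
  have hne : Nonempty W := by
    obtain ⟨x, -⟩ := card_pos.1 (by omega : 0 < U.card)
    exact ⟨x⟩
  have hneU : Nonempty {x // x ∈ U} := by
    obtain ⟨x, hx⟩ := card_pos.1 (by omega : 0 < U.card)
    exact ⟨⟨x, hx⟩⟩
  have hdat : Dat3 H A B f σ M μ C := by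
    refine ⟨?_, ?_, hσ1, ?_, hσμ, hμσ, hVμ, hμ, hMμ, ?_, ?_⟩
    · intro x hx y hy hxy
      exact c.valid hxy ((mem_filter.1 hx).2.trans (mem_filter.1 hy).2.symm)
    · intro v
      simp only [hA, hB, mem_union, mem_filter, mem_univ, true_and]
      exact em _
    · exact Dg_sqrt H μ hμ
    · -- the main numerical condition
      have hE : M ≤ 32 * σ * (M / (16 * σ)) := by
        have h1 : M < 16 * σ * (M / (16 * σ) + 1) := Nat.lt_mul_div_succ M (by omega)
        have h2 : 1 ≤ M / (16 * σ) := by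
          rw [Nat.le_div_iff_mul_le (by omega)]
          have h3 : σ ≤ σ ^ 2 := Nat.le_self_pow (by norm_num) σ
          omega
        calc M ≤ 16 * σ * (M / (16 * σ) + 1) := h1.le
          _ ≤ 16 * σ * (2 * (M / (16 * σ))) := Nat.mul_le_mul_left _ (by omega)
          _ = _ := by ring
      have h1 : (32 * σ) ^ (2 * f + 4) * (C * (16 * μ) ^ (10 * f + 8) *
          (34359738368 * σ ^ 2) ^ (4 * f + 4)) ≤
          (32 * σ) ^ (2 * f + 4) * (M ^ (10 * f + 8) * (M / (16 * σ)) ^ (2 * f + 4)) := by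
        calc (32 * σ) ^ (2 * f + 4) * (C * (16 * μ) ^ (10 * f + 8) *
              (34359738368 * σ ^ 2) ^ (4 * f + 4))
            = C * μ ^ (10 * f + 8) * (σ ^ 2) ^ (5 * f + 6) *
              (2 ^ (5 * (2 * f + 4)) * 2 ^ (4 * (10 * f + 8)) * 2 ^ (35 * (4 * f + 4))) := by
              rw [pow_mul 2 5, pow_mul 2 4, pow_mul 2 35, mul_pow 32 σ, mul_pow 16 μ,
                mul_pow 34359738368 (σ ^ 2), ← pow_mul σ 2 (5 * f + 6), ← pow_mul σ 2 (4 * f + 4)]
              have e : 2 * (5 * f + 6) = (2 * f + 4) + 2 * (4 * f + 4) := by ring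
              rw [e, pow_add]
              norm_num
              ring
          _ ≤ C * μ ^ (10 * f + 8) * (4 * μ) ^ (5 * f + 6) *
              (2 ^ (5 * (2 * f + 4)) * 2 ^ (4 * (10 * f + 8)) * 2 ^ (35 * (4 * f + 4))) :=
              Nat.mul_le_mul_right _ (Nat.mul_le_mul_left _ (Nat.pow_le_pow_left hσμ _))
          _ = C * μ ^ (15 * f + 14) * 2 ^ (200 * f + 204) := by
              rw [← pow_add, ← pow_add, mul_pow, show (4 : ℕ) = 2 ^ 2 by norm_num, ← pow_mul]
              have e1 : 200 * f + 204 = 2 * (5 * f + 6) +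
                (5 * (2 * f + 4) + 2 ^ 2 * (10 * f + 8) + 35 * (2 ^ 2 * f + 2 ^ 2)) := by ring
              have e2 : 15 * f + 14 = (10 * f + 8) + (5 * f + 6) := by ring
              rw [e1, e2, pow_add 2 (2 * (5 * f + 6)), pow_add μ]
              ring
          _ ≤ C ^ 3 * μ ^ (15 * f + 14) * 2 ^ (480 * (f + 1)) :=
              Nat.mul_le_mul (Nat.mul_le_mul_right _ (Nat.le_self_pow (by norm_num) C))
                (Nat.pow_le_pow_right (by norm_num) (by omega))
          _ = C ^ 3 * 2 ^ (480 * (f + 1)) * μ ^ (15 * f + 14) := by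
              generalize 2 ^ (480 * (f + 1)) = b
              ring
          _ ≤ M ^ (12 * f + 12) := hMe
          _ = M ^ (10 * f + 8) * M ^ (2 * f + 4) := by
              rw [← pow_add]
              congr 1
              ring
          _ ≤ M ^ (10 * f + 8) * (32 * σ * (M / (16 * σ))) ^ (2 * f + 4) :=
              Nat.mul_le_mul_left _ (Nat.pow_le_pow_left hE _)
          _ = _ := by
              rw [mul_pow (32 * σ)]
              ring
      exact Nat.le_of_mul_le_mul_left h1 (Nat.pow_pos (by omega))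
    · calc 5444517870735015415413993718908291383296 * μ ^ 6 * σ ^ 4
          = 5444517870735015415413993718908291383296 * μ ^ 6 * (σ ^ 2) ^ 2 := by ring
        _ ≤ 5444517870735015415413993718908291383296 * μ ^ 6 * (4 * μ) ^ 2 :=
            Nat.mul_le_mul_left _ (Nat.pow_le_pow_left hσμ 2)
        _ = 2 ^ 136 * μ ^ 7 * μ := by ring
        _ ≤ 2 ^ 200 * μ ^ 7 * M :=
            Nat.mul_le_mul (Nat.mul_le_mul_right _ (by norm_num)) (by omega)
        _ ≤ M ^ 6 * M := Nat.mul_le_mul_right _ hM6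
        _ = M ^ 7 := by ring
  have hfin := step (sub_free hG U) hdat ?_ ?_ univ (by
    rw [card_univ, Fintype.card_coe]
    omega)
  · obtain ⟨Z, hZ⟩ := hfin
    exact emb_of_sub hZ
  · intro P' hP' Z hZ
    refine emb_of_restrict (hk {x // x ∈ P'} {x // x ∈ U} (Sub H P') (Sub G U) (sub_free hG U)
      (hcolB P' hP') μ hμ1 ?_ ((sub_deg_sum H P').trans hμ) Z ?_)
    · rw [Fintype.card_coe]
      exact (card_le_univ P').trans hVμ
    · refine pow_root (n := 3) (by norm_num) ?_
      have h1 : 2 ^ (48 * (f + 1)) * (C * μ ^ (5 * f + 4)) ^ 3 ≤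
          2 ^ (48 * (f + 1)) * (Z.card ^ (4 * f + 4)) ^ 3 := by
        calc 2 ^ (48 * (f + 1)) * (C * μ ^ (5 * f + 4)) ^ 3
            = C ^ 3 * 2 ^ (48 * (f + 1)) * μ ^ (15 * f + 12) := by
              rw [mul_pow, ← pow_mul, show (5 * f + 4) * 3 = 15 * f + 12 by ring]
              ring
          _ ≤ C ^ 3 * 2 ^ (480 * (f + 1)) * μ ^ (15 * f + 14) :=
              Nat.mul_le_mul (Nat.mul_le_mul_left _
                (Nat.pow_le_pow_right (by norm_num) (by omega)))
                (Nat.pow_le_pow_right hμ1 (by omega))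
          _ ≤ M ^ (12 * f + 12) := hMe
          _ ≤ (16 * Z.card) ^ (12 * f + 12) := Nat.pow_le_pow_left hZ _
          _ = _ := by
              rw [mul_pow, show (16 : ℕ) = 2 ^ 4 by norm_num, ← pow_mul, ← pow_mul]
              congr 2 <;> ring
      exact Nat.le_of_mul_le_mul_left h1 (by positivity)
  · intro P' hP' n hn hn1 Z hZ
    refine emb_of_restrict (hk {x // x ∈ P'} {x // x ∈ U} (Sub H P') (Sub G U) (sub_free hG U)
      (hcolB P' hP') (n ^ 2) (Nat.pow_pos hn1) ?_ (sub_deg_sq H P' n hn) Z ?_)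
    · rw [Fintype.card_coe]
      exact hn.trans (Nat.le_self_pow (by norm_num) n)
    · rw [← pow_mul, show 2 * (5 * f + 4) = 10 * f + 8 by ring]
      exact hZ

theorem SK_all (j : ℕ) : ∃ C : ℕ, 1 ≤ C ∧ SK (j + 2) (3 ^ j - 1) C := by
  induction j with
  | zero => exact ⟨_, Nat.one_le_pow _ _ (by norm_num), SK_base⟩
  | succ j ih =>
    obtain ⟨C, hC, h⟩ := ih
    refine ⟨C ^ 3 * 2 ^ (600 * (3 ^ j - 1 + 1)), ?_, ?_⟩
    · exact Nat.mul_pos (Nat.pow_pos hC) (Nat.pow_pos (by norm_num))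
    · have h1 := SK_step hC h
      have h2 : 0 < 3 ^ j := by positivity
      have e : 3 * (3 ^ j - 1) + 2 = 3 ^ (j + 1) - 1 := by
        rw [pow_succ]
        omega
      rw [e] at h1
      exact h1

end

end Pool.Agent.RamseyH5
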