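import Mathlib

set_option autoImplicit false

/-!
# Holes in `H5`-free graphs: basic tools
-/

namespace Pool.Agent.RamseyH5

open Finset

/-- The graph `H5`: the 5-cycle `0,1,2,3,4` with the two chords `02` and `13`. -/
def H5 : SimpleGraph (Fin 5) :=
  SimpleGraph.fromRel (fun i j : Fin 5 => j = i + 1 ∨ (i = 0 ∧ j = 2) ∨ (i = 1 ∧ j = 3))

section

open scoped Classical

variable {W : Type}

/-- Two distinct vertices with three common neighbours two of which are adjacent give `H5`. -/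
theorem h5_of (G : SimpleGraph W) {a b x y z : W} (hab : a ≠ b) (hxz : x ≠ z) (hyz : y ≠ z)
    (hxy : G.Adj x y) (hax : G.Adj a x) (hay : G.Adj a y) (haz : G.Adj a z)
    (hbx : G.Adj b x) (hby : G.Adj b y) (hbz : G.Adj b z) : H5.IsContained G := by
  let f : Fin 5 → W := ![a, x, y, b, z]
  have hhom : ∀ i j, H5.Adj i j → G.Adj (f i) (f j) := by
    intro i j h
    rw [H5, SimpleGraph.fromRel_adj] at h
    fin_cases i <;> fin_cases j <;>
      first
      | (exact absurd h (by decide))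
      | (simp only [f]; simp; first | assumption | (apply SimpleGraph.Adj.symm; assumption))
  have hinj : Function.Injective f := by
    have h1 := hax.ne
    have h2 := hay.ne
    have h3 := haz.ne
    have h4 := hbx.ne
    have h5 := hby.ne
    have h6 := hbz.ne
    have h7 := hxy.ne
    intro i j h
    fin_cases i <;> fin_cases j <;> simp [f] at h ⊢ <;>
      first | (exact absurd h (by assumption)) | (exact absurd h.symm (by assumption))
  exact ⟨⟨⟨f, fun {i j} h => hhom i j h⟩, hinj⟩⟩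

/-- The neighbours of `x` in `Q`. -/
noncomputable def nb (G : SimpleGraph W) (Q : Finset W) (x : W) : Finset W := Q.filter (fun z => G.Adj x z)

/-- `X` and `Y` are disjoint and there is no edge between them. -/
def Sep (G : SimpleGraph W) (X Y : Finset W) : Prop := ∀ x ∈ X, ∀ y ∈ Y, x ≠ y ∧ ¬ G.Adj x y

/-- `X` spans no edge. -/
def Ind (G : SimpleGraph W) (X : Finset W) : Prop := ∀ x ∈ X, ∀ y ∈ X, ¬ G.Adj x y

theorem mem_nb {G : SimpleGraph W} {Q : Finset W} {x z : W} :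
    z ∈ nb G Q x ↔ z ∈ Q ∧ G.Adj x z := by
  simp [nb]

theorem nb_subset (G : SimpleGraph W) (Q : Finset W) (x : W) : nb G Q x ⊆ Q :=
  filter_subset _ _

theorem nb_mono (G : SimpleGraph W) {P Q : Finset W} (h : P ⊆ Q) (x : W) :
    nb G P x ⊆ nb G Q x := filter_subset_filter _ h

theorem Sep.symm {G : SimpleGraph W} {X Y : Finset W} (h : Sep G X Y) : Sep G Y X :=
  fun y hy x hx => ⟨(h x hx y hy).1.symm, fun hadj => (h x hx y hy).2 hadj.symm⟩

theorem Sep.mono {G : SimpleGraph W} {X Y X' Y' : Finset W} (h : Sep G X Y) (hX : X' ⊆ X)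
    (hY : Y' ⊆ Y) : Sep G X' Y' := fun x hx y hy => h x (hX hx) y (hY hy)

theorem Sep.union_left {G : SimpleGraph W} {X X' Y : Finset W} (h : Sep G X Y)
    (h' : Sep G X' Y) : Sep G (X ∪ X') Y := by
  intro x hx y hy
  rcases mem_union.1 hx with hx | hx
  · exact h x hx y hy
  · exact h' x hx y hy

theorem Sep.of_union_left {G : SimpleGraph W} {X X' Y : Finset W} (h : Sep G (X ∪ X') Y) :
    Sep G X Y ∧ Sep G X' Y :=
  ⟨h.mono subset_union_left subset_rfl, h.mono subset_union_right subset_rfl⟩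

/-- Pick a set avoiding the neighbourhood of `X`. -/
theorem pick (G : SimpleGraph W) (Z X : Finset W) (τ r : ℕ) (h : ∀ x ∈ X, (nb G Z x).card ≤ τ)
    (hc : X.card * (τ + 1) + r ≤ Z.card) : ∃ Y ⊆ Z, Y.card = r ∧ Sep G X Y := by
  have h1 : (X ∪ X.biUnion (nb G Z)).card ≤ X.card * (τ + 1) := by
    calc _ ≤ X.card + (X.biUnion (nb G Z)).card := card_union_le _ _
      _ ≤ X.card + X.card * τ := Nat.add_le_add_left (card_biUnion_le_card_mul _ _ _ h) _
      _ = _ := by ring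
  have h2 : r ≤ (Z \ (X ∪ X.biUnion (nb G Z))).card := by
    have := le_card_sdiff (X ∪ X.biUnion (nb G Z)) Z
    omega
  obtain ⟨Y, hY, hYr⟩ := exists_subset_card_eq h2
  refine ⟨Y, hY.trans sdiff_subset, hYr, ?_⟩
  intro x hx y hy
  have hy' := mem_sdiff.1 (hY hy)
  have hy2 : y ∉ X ∧ y ∉ X.biUnion (nb G Z) := by
    rw [← not_or, ← mem_union]; exact hy'.2
  refine ⟨fun h => hy2.1 (h ▸ hx), fun hadj => hy2.2 ?_⟩
  exact mem_biUnion.2 ⟨x, hx, mem_nb.2 ⟨hy'.1, hadj⟩⟩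

/-- Greedy independent set. -/
theorem greedy_indep (G : SimpleGraph W) (Z : Finset W) (τ : ℕ)
    (h : ∀ z ∈ Z, (nb G Z z).card ≤ τ) :
    ∀ s : ℕ, s * (τ + 1) ≤ Z.card → ∃ S ⊆ Z, S.card = s ∧ Ind G S := by
  intro s
  induction s with
  | zero => intro _; exact ⟨∅, empty_subset _, rfl, fun x hx => absurd hx (notMem_empty x)⟩
  | succ s ih =>
    intro hs
    have hs' : s * (τ + 1) + (τ + 1) ≤ Z.card := by rw [← Nat.succ_mul]; exact hs
    obtain ⟨S, hSZ, hSc, hSI⟩ := ih (by omega)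
    obtain ⟨Y, hYZ, hYc, hsep⟩ := pick G Z S τ 1 (fun x hx => h x (hSZ hx)) (by rw [hSc]; omega)
    obtain ⟨y, rfl⟩ := card_eq_one.1 hYc
    have hy : y ∈ ({y} : Finset W) := mem_singleton_self y
    have hyS : y ∉ S := fun hyS => (hsep y hyS y hy).1 rfl
    refine ⟨insert y S, insert_subset (hYZ hy) hSZ, by rw [card_insert_of_notMem hyS, hSc], ?_⟩
    intro a ha b hb
    rcases mem_insert.1 ha with rfl | ha' <;> rcases mem_insert.1 hb with rfl | hb'
    · exact G.loopless.irrefl _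
    · exact fun hadj => (hsep b hb' a hy).2 hadj.symm
    · exact (hsep a ha' b hy).2
    · exact hSI a ha' b hb'

/-- A hole: pairwise separated sets of sizes `s`, `n`, `n`, the first one being independent when
`p` holds. -/
def Hole (G : SimpleGraph W) (p : Prop) (s n : ℕ) (Q : Finset W) : Prop :=
  ∃ S X Y : Finset W, S ⊆ Q ∧ X ⊆ Q ∧ Y ⊆ Q ∧ S.card = s ∧ X.card = n ∧ Y.card = n ∧
    (p → Ind G S) ∧ Sep G S X ∧ Sep G S Y ∧ Sep G X Y

theorem Hole.mono {G : SimpleGraph W} {p : Prop} {s n : ℕ} {Q Q' : Finset W} (h : Hole G p s n Q)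
    (hQ : Q ⊆ Q') : Hole G p s n Q' := by
  obtain ⟨S, X, Y, h1, h2, h3, h4⟩ := h
  exact ⟨S, X, Y, h1.trans hQ, h2.trans hQ, h3.trans hQ, h4⟩

/-- A hole inside a set of small maximum degree. -/
theorem hole_of_sparse (G : SimpleGraph W) (p : Prop) (Z : Finset W) (τ s n : ℕ)
    (h : ∀ z ∈ Z, (nb G Z z).card ≤ τ) (hc : (s + n) * (τ + 1) + n ≤ Z.card) :
    Hole G p s n Z := by
  have h1 : s * (τ + 1) + (n * (τ + 1) + n) ≤ Z.card := by
    have : (s + n) * (τ + 1) = s * (τ + 1) + n * (τ + 1) := by ring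
    omega
  obtain ⟨S, hSZ, hSc, hSI⟩ := greedy_indep G Z τ h s (by omega)
  obtain ⟨X, hXZ, hXc, hSX⟩ := pick G Z S τ n (fun x hx => h x (hSZ hx)) (by rw [hSc]; omega)
  have hSX' : (S ∪ X).card ≤ s + n := by
    have := card_union_le S X
    omega
  obtain ⟨Y, hYZ, hYc, hsep⟩ := pick G Z (S ∪ X) τ n
    (fun x hx => h x ((union_subset hSZ hXZ) hx)) (by
      have := Nat.mul_le_mul_right (τ + 1) hSX'
      omega)
  exact ⟨S, X, Y, hSZ, hXZ, hYZ, hSc, hXc, hYc, fun _ => hSI, hSX, hsep.of_union_left.1,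
    hsep.of_union_left.2⟩

/-! ### Pairs with an edge in their common neighbourhood -/

/-- `x` and `y` have two common neighbours which are adjacent. -/
def PP (G : SimpleGraph W) (x y : W) : Prop :=
  ∃ a u, G.Adj a u ∧ G.Adj x a ∧ G.Adj x u ∧ G.Adj y a ∧ G.Adj y u

/-- The vertices of `B` forming such a pair with `x`. -/
noncomputable def Pd (G : SimpleGraph W) (B : Finset W) (x : W) : Finset W :=
  B.filter (fun y => y ≠ x ∧ PP G x y)

theorem mem_Pd {G : SimpleGraph W} {B : Finset W} {x y : W} :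
    y ∈ Pd G B x ↔ y ∈ B ∧ y ≠ x ∧ PP G x y := by
  simp [Pd]

theorem Pd_subset (G : SimpleGraph W) (B : Finset W) (x : W) : Pd G B x ⊆ B :=
  filter_subset _ _

theorem Pd_mono (G : SimpleGraph W) {B B' : Finset W} (h : B ⊆ B') (x : W) :
    Pd G B x ⊆ Pd G B' x := filter_subset_filter _ h

theorem uniq {G : SimpleGraph W} (hG : ¬ H5.IsContained G) {x y a u z : W} (hxy : x ≠ y)
    (hau : G.Adj a u) (hxa : G.Adj x a) (hxu : G.Adj x u) (hya : G.Adj y a) (hyu : G.Adj y u)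
    (hxz : G.Adj x z) (hyz : G.Adj y z) : z = a ∨ z = u := by
  by_contra hcon
  push Not at hcon
  exact hG (h5_of G hxy hcon.1.symm hcon.2.symm hau hxa hxu hxz hya hyu hyz)

/-- A vertex forming such a pair with `a` has at most two neighbours among those of `a`. -/
theorem nb_PP {G : SimpleGraph W} (hG : ¬ H5.IsContained G) {a y : W} (hay : y ≠ a)
    (h : PP G a y) (Z : Finset W) (hZ : ∀ z ∈ Z, G.Adj a z) : (nb G Z y).card ≤ 2 := by
  obtain ⟨b, u, hbu, hab, hau, hyb, hyu⟩ := h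
  have hsub : nb G Z y ⊆ {b, u} := by
    intro z hz
    have hz' := mem_nb.1 hz
    have := uniq hG hay.symm hbu hab hau hyb hyu (hZ z hz'.1) hz'.2
    simp only [mem_insert, mem_singleton]
    exact this
  exact (card_le_card hsub).trans card_le_two

theorem count_le {G : SimpleGraph W} (hG : ¬ H5.IsContained G) (A B : Finset W)
    (U : W → Finset W) (hU : ∀ a ∈ A, ∀ u ∈ U a, G.Adj a u) :
    ∑ a ∈ A, ∑ u ∈ U a, ((B.filter (fun x => G.Adj x a ∧ G.Adj x u)).offDiag).card ≤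
      2 * ∑ x ∈ B, (Pd G B x).card := by
  let Qs : Finset (Σ _ : W, Σ _ : W, W × W) :=
    A.sigma (fun a => (U a).sigma
      (fun u => (B.filter (fun x => G.Adj x a ∧ G.Adj x u)).offDiag))
  let Ps : Finset (W × W) := (B ×ˢ B).filter (fun q => q.2 ≠ q.1 ∧ PP G q.1 q.2)
  have hQ : Qs.card = ∑ a ∈ A, ∑ u ∈ U a,
      ((B.filter (fun x => G.Adj x a ∧ G.Adj x u)).offDiag).card := by
    simp only [Qs, card_sigma]
  have hP : Ps.card = ∑ x ∈ B, (Pd G B x).card := by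
    simp only [Ps, card_filter, sum_product, Pd]
  rw [← hQ, ← hP]
  have hmem : ∀ q ∈ Qs, q.2.2.1 ∈ B ∧ q.2.2.2 ∈ B ∧ q.2.2.1 ≠ q.2.2.2 ∧ G.Adj q.1 q.2.1 ∧
      G.Adj q.2.2.1 q.1 ∧ G.Adj q.2.2.1 q.2.1 ∧ G.Adj q.2.2.2 q.1 ∧ G.Adj q.2.2.2 q.2.1 := by
    rintro ⟨a, u, x, y⟩ hq
    simp only [Qs, mem_sigma, mem_offDiag, mem_filter] at hq
    obtain ⟨ha, hu, ⟨hx, hxa, hxu⟩, ⟨hy, hya, hyu⟩, hxy⟩ := hq
    exact ⟨hx, hy, hxy, hU a ha u hu, hxa, hxu, hya, hyu⟩
  refine card_le_mul_card_image_of_maps_to (f := fun q => q.2.2) ?_ 2 ?_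
  · intro q hq
    obtain ⟨h1, h2, h3, h4, h5, h6, h7, h8⟩ := hmem q hq
    exact mem_filter.2 ⟨mem_product.2 ⟨h1, h2⟩, h3.symm, q.1, q.2.1, h4, h5, h6, h7, h8⟩
  · rintro ⟨x, y⟩ _
    rcases (Qs.filter (fun q => q.2.2 = (x, y))).eq_empty_or_nonempty with h | ⟨q₀, hq₀⟩
    · rw [h]; simp
    · obtain ⟨hq₀Q, hq₀e⟩ := mem_filter.1 hq₀
      obtain ⟨a₀, u₀, x₀, y₀⟩ := q₀
      simp only [Prod.mk.injEq] at hq₀e
      obtain ⟨rfl, rfl⟩ := hq₀e
      obtain ⟨-, -, hxy, h4, h5, h6, h7, h8⟩ := hmem _ hq₀Q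
      simp only at hxy h4 h5 h6 h7 h8
      refine (card_le_card (t := {⟨a₀, u₀, (x₀, y₀)⟩, ⟨u₀, a₀, (x₀, y₀)⟩}) ?_).trans card_le_two
      rintro ⟨a, u, x, y⟩ hq
      obtain ⟨hqQ, hqe⟩ := mem_filter.1 hq
      simp only [Prod.mk.injEq] at hqe
      obtain ⟨rfl, rfl⟩ := hqe
      obtain ⟨-, -, -, g4, g5, g6, g7, g8⟩ := hmem _ hqQ
      simp only at g4 g5 g6 g7 g8
      have ha := uniq hG hxy h4 h5 h6 h7 h8 g5 g7
      have hu := uniq hG hxy h4 h5 h6 h7 h8 g6 g8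
      rcases ha with rfl | rfl <;> rcases hu with rfl | rfl
      · exact absurd g4 (G.loopless.irrefl _)
      · simp
      · simp
      · exact absurd g4 (G.loopless.irrefl _)

theorem lower (G : SimpleGraph W) (B Wa : Finset W) (a : W) (c : ℕ)
    (hWB : Wa ⊆ B) (hWa : ∀ u ∈ Wa, G.Adj a u)
    (hlow : 2 * (Wa.filter (fun u => c * (nb G Wa u).card ≤ Wa.card)).card ≤ Wa.card)
    (hbig : c ≤ Wa.card) :
    Wa.card ^ 3 ≤ 4 * c ^ 2 *
      ∑ u ∈ Wa, ((B.filter (fun x => G.Adj x a ∧ G.Adj x u)).offDiag).card := by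
  set Lo := Wa.filter (fun u => c * (nb G Wa u).card ≤ Wa.card) with hLo
  set Hh := Wa \ Lo with hHh
  have hpart : Hh.card + Lo.card = Wa.card :=
    card_sdiff_add_card_eq_card (filter_subset _ _)
  have hHc : Wa.card ≤ 2 * Hh.card := by omega
  have h1 : ∀ u ∈ Hh, Wa.card ^ 2 ≤ 2 * c ^ 2 *
      ((B.filter (fun x => G.Adj x a ∧ G.Adj x u)).offDiag).card := by
    intro u hu
    obtain ⟨huW, hut⟩ := mem_sdiff.1 hu
    have hut : Wa.card < c * (nb G Wa u).card := by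
      by_contra hcon
      exact hut (mem_filter.2 ⟨huW, by omega⟩)
    set t := (nb G Wa u).card with ht
    set T := (B.filter (fun x => G.Adj x a ∧ G.Adj x u)).card with hT
    have htT : t ≤ T := by
      apply card_le_card
      intro x hx
      obtain ⟨hx1, hx2⟩ := mem_nb.1 hx
      exact mem_filter.2 ⟨hWB hx1, (hWa x hx1).symm, hx2.symm⟩
    have ht2 : 2 ≤ t := by
      by_contra hcon
      have : t ≤ 1 := by omega
      have := Nat.mul_le_mul_left c this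
      omega
    rw [offDiag_card]
    have h2 : T * T - T = T * (T - 1) := by rw [Nat.mul_sub_one]
    rw [← hT, h2]
    obtain ⟨r, hr⟩ : ∃ r, T = r + 2 := ⟨T - 2, by omega⟩
    rw [hr] at htT ⊢
    have h3 : (r + 2) ^ 2 ≤ 2 * ((r + 2) * (r + 2 - 1)) := by
      rw [show r + 2 - 1 = r + 1 by omega]
      nlinarith
    calc Wa.card ^ 2 ≤ (c * t) ^ 2 := Nat.pow_le_pow_left hut.le 2
      _ ≤ (c * (r + 2)) ^ 2 := Nat.pow_le_pow_left (Nat.mul_le_mul_left c htT) 2
      _ = c ^ 2 * (r + 2) ^ 2 := by ring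
      _ ≤ c ^ 2 * (2 * ((r + 2) * (r + 2 - 1))) := Nat.mul_le_mul_left _ h3
      _ = _ := by ring
  calc Wa.card ^ 3 = Wa.card * Wa.card ^ 2 := by ring
    _ ≤ 2 * Hh.card * Wa.card ^ 2 := Nat.mul_le_mul_right _ hHc
    _ = 2 * ∑ _u ∈ Hh, Wa.card ^ 2 := by rw [sum_const, smul_eq_mul]; ring
    _ ≤ 2 * ∑ u ∈ Hh, 2 * c ^ 2 *
        ((B.filter (fun x => G.Adj x a ∧ G.Adj x u)).offDiag).card :=
        Nat.mul_le_mul_left _ (sum_le_sum h1)
    _ ≤ 2 * ∑ u ∈ Wa, 2 * c ^ 2 *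
        ((B.filter (fun x => G.Adj x a ∧ G.Adj x u)).offDiag).card :=
        Nat.mul_le_mul_left _ (sum_le_sum_of_subset sdiff_subset)
    _ = _ := by rw [← mul_sum]; ring

theorem nb_comm (G : SimpleGraph W) (A B : Finset W) :
    ∑ a ∈ A, (nb G B a).card = ∑ b ∈ B, (nb G A b).card := by
  simp only [nb, card_filter]
  rw [sum_comm]
  refine sum_congr rfl fun b _ => sum_congr rfl fun a _ => ?_
  simp only [G.adj_comm a b]

end

end Pool.Agent.RamseyH5
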