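import Pool.Agent.RamseyH5.Main

set_option autoImplicit false

/-!
# Embeddings into the complement of an `H5`-free graph
-/

namespace Pool.Agent.RamseyH5

open Finset

section

open scoped Classical

variable {V W : Type}

/-- `f` embeds `H` restricted to `X` into the complement of `G`. -/
def Good (H : SimpleGraph V) (G : SimpleGraph W) (X : Finset V) (f : V → W) : Prop :=
  (∀ x ∈ X, ∀ y ∈ X, f x = f y → x = y) ∧ ∀ x ∈ X, ∀ y ∈ X, H.Adj x y → ¬ G.Adj (f x) (f y)

/-- `H` restricted to `P` embeds into the complement of `G`, inside `Z`. -/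
def Emb (H : SimpleGraph V) (G : SimpleGraph W) (P : Finset V) (Z : Finset W) : Prop :=
  ∃ f : V → W, Good H G P f ∧ ∀ x ∈ P, f x ∈ Z

/-- `H` restricted to `P` is `D`-degenerate. -/
def Dg (H : SimpleGraph V) (P : Finset V) (D : ℕ) : Prop :=
  ∀ S ⊆ P, S.Nonempty → ∃ v ∈ S, (S.filter (fun u => H.Adj v u)).card ≤ D

theorem Dg.mono {H : SimpleGraph V} {P P' : Finset V} {D D' : ℕ} (h : Dg H P D) (hP : P' ⊆ P)
    (hD : D ≤ D') : Dg H P' D' := by
  intro S hS hne
  obtain ⟨v, hv, hc⟩ := h S (hS.trans hP) hne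
  exact ⟨v, hv, hc.trans hD⟩

theorem Dg_card (H : SimpleGraph V) (P : Finset V) : Dg H P P.card := by
  rintro S hS ⟨v, hv⟩
  exact ⟨v, hv, (card_le_card (filter_subset _ _)).trans (card_le_card hS)⟩

theorem Dg_indep (H : SimpleGraph V) (P : Finset V) (h : ∀ x ∈ P, ∀ y ∈ P, ¬ H.Adj x y) :
    Dg H P 0 := by
  rintro S hS ⟨v, hv⟩
  refine ⟨v, hv, ?_⟩
  rw [Nat.le_zero, card_eq_zero, filter_eq_empty_iff]
  exact fun u hu => h v (hS hv) u (hS hu)

theorem Dg_union {H : SimpleGraph V} {S B : Finset V} {D s : ℕ} (hB : Dg H B D)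
    (hS : S.card ≤ s) : Dg H (S ∪ B) (s + D) := by
  intro T hT hne
  by_cases h : (T \ S).Nonempty
  · obtain ⟨v, hv, hc⟩ := hB (T \ S) (fun x hx => by
      obtain ⟨h1, h2⟩ := mem_sdiff.1 hx
      rcases mem_union.1 (hT h1) with h | h
      · exact absurd h h2
      · exact h) h
    refine ⟨v, (mem_sdiff.1 hv).1, ?_⟩
    have h1 : T.filter (fun u => H.Adj v u) ⊆ S ∪ (T \ S).filter (fun u => H.Adj v u) := by
      intro u hu
      obtain ⟨h1, h2⟩ := mem_filter.1 hu
      by_cases hS' : u ∈ S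
      · exact mem_union_left _ hS'
      · exact mem_union_right _ (mem_filter.2 ⟨mem_sdiff.2 ⟨h1, hS'⟩, h2⟩)
    have h2 := (card_le_card h1).trans (card_union_le _ _)
    omega
  · rw [not_nonempty_iff_eq_empty, sdiff_eq_empty_iff_subset] at h
    obtain ⟨v, hv⟩ := hne
    refine ⟨v, hv, ?_⟩
    have := (card_le_card (filter_subset (fun u => H.Adj v u) T)).trans (card_le_card h)
    omega

theorem extend (H : SimpleGraph V) (G : SimpleGraph W) {X : Finset V} {f : V → W}
    (hf : Good H G X f) {y : V} (hy : y ∉ X) (Z : Finset W) (Δ c : ℕ)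
    (hdeg : ∀ x ∈ X, (nb G Z (f x)).card ≤ Δ)
    (hc : (X.filter (fun x => H.Adj y x)).card ≤ c)
    (hcard : c * Δ + X.card < Z.card) :
    ∃ z ∈ Z, Good H G (insert y X) (Function.update f y z) := by
  have hB : (X.image f ∪ (X.filter (fun x => H.Adj y x)).biUnion
      (fun x => nb G Z (f x))).card ≤ c * Δ + X.card := by
    calc _ ≤ (X.image f).card + ((X.filter (fun x => H.Adj y x)).biUnion
          (fun x => nb G Z (f x))).card := card_union_le _ _
      _ ≤ X.card + (X.filter (fun x => H.Adj y x)).card * Δ := by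
          refine Nat.add_le_add card_image_le (card_biUnion_le_card_mul _ _ _ ?_)
          intro x hx
          exact hdeg x (mem_filter.1 hx).1
      _ ≤ X.card + c * Δ := Nat.add_le_add_left (Nat.mul_le_mul_right _ hc) _
      _ = _ := by ring
  obtain ⟨z, hzZ, hzB⟩ := exists_mem_notMem_of_card_lt_card (lt_of_le_of_lt hB hcard)
  rw [mem_union, not_or] at hzB
  obtain ⟨hz1, hz2⟩ := hzB
  have hne : ∀ x ∈ X, f x ≠ z := fun x hx h => hz1 (mem_image.2 ⟨x, hx, h⟩)
  have hnadj : ∀ x ∈ X, H.Adj y x → ¬ G.Adj (f x) z := by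
    intro x hx hyx h
    exact hz2 (mem_biUnion.2 ⟨x, mem_filter.2 ⟨hx, hyx⟩, mem_nb.2 ⟨hzZ, h⟩⟩)
  have hupd : ∀ x ∈ X, Function.update f y z x = f x := by
    intro x hx
    have hxy : x ≠ y := fun h => hy (h ▸ hx)
    exact Function.update_of_ne hxy _ _
  refine ⟨z, hzZ, ?_, ?_⟩
  · intro a ha b hb hab
    rcases mem_insert.1 ha with rfl | ha' <;> rcases mem_insert.1 hb with rfl | hb'
    · rfl
    · rw [Function.update_self, hupd b hb'] at hab
      exact absurd hab.symm (hne b hb')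
    · rw [Function.update_self, hupd a ha'] at hab
      exact absurd hab (hne a ha')
    · rw [hupd a ha', hupd b hb'] at hab
      exact hf.1 a ha' b hb' hab
  · intro a ha b hb hab
    rcases mem_insert.1 ha with rfl | ha' <;> rcases mem_insert.1 hb with rfl | hb'
    · exact absurd hab (H.loopless.irrefl _)
    · rw [Function.update_self, hupd b hb']
      exact fun h => hnadj b hb' hab h.symm
    · rw [Function.update_self, hupd a ha']
      exact hnadj a ha' hab.symm
    · rw [hupd a ha', hupd b hb']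
      exact hf.2 a ha' b hb' hab

/-- Greedy embedding of a graph of small degeneracy into a set of small maximum degree. -/
theorem embed_degenerate [Nonempty W] (H : SimpleGraph V) (G : SimpleGraph W) (P : Finset V)
    (D : ℕ) (hD : Dg H P D) (Z : Finset W) (τ : ℕ) (hZ : ∀ z ∈ Z, (nb G Z z).card ≤ τ)
    (hc : D * τ + P.card ≤ Z.card) : Emb H G P Z := by
  have key : ∀ (n : ℕ) (X : Finset V), X ⊆ P → X.card = n →
      ∃ f : V → W, Good H G X f ∧ ∀ x ∈ X, f x ∈ Z := by
    intro n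
    induction n with
    | zero =>
      intro X _ hX
      rw [card_eq_zero] at hX
      subst hX
      exact ⟨fun _ => Classical.arbitrary W, ⟨fun x hx => absurd hx (notMem_empty x),
        fun x hx => absurd hx (notMem_empty x)⟩, fun x hx => absurd hx (notMem_empty x)⟩
    | succ n ih =>
      intro X hXP hX
      have hne : X.Nonempty := by
        rw [← card_pos, hX]
        exact Nat.succ_pos n
      obtain ⟨v, hvX, hv⟩ := hD X hXP hne
      have hX' : (X.erase v).card = n := by rw [card_erase_of_mem hvX, hX]; rfl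
      obtain ⟨f, hf, hfZ⟩ := ih (X.erase v) ((erase_subset v X).trans hXP) hX'
      have hvn : v ∉ X.erase v := notMem_erase v X
      have hcc : ((X.erase v).filter (fun x => H.Adj v x)).card ≤ D :=
        le_trans (card_le_card (filter_subset_filter _ (erase_subset v X))) hv
      have hXc := card_le_card hXP
      obtain ⟨z, hz, hgood⟩ := extend H G hf hvn Z τ D (fun x hx => hZ _ (hfZ x hx)) hcc
        (by omega)
      refine ⟨Function.update f v z, ?_, ?_⟩
      · rwa [insert_erase hvX] at hgood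
      · intro x hx
        by_cases hxv : x = v
        · subst hxv; rw [Function.update_self]; exact hz
        · rw [Function.update_of_ne hxv]
          exact hfZ x (mem_erase.2 ⟨hxv, hx⟩)
  exact key P.card P subset_rfl rfl

theorem Emb.mono {H : SimpleGraph V} {G : SimpleGraph W} {P : Finset V} {Z Z' : Finset W}
    (h : Emb H G P Z) (hZ : Z ⊆ Z') : Emb H G P Z' := by
  obtain ⟨f, hf, hfZ⟩ := h
  exact ⟨f, hf, fun x hx => hZ (hfZ x hx)⟩

/-- An embedding has an image. -/
theorem Emb.image {H : SimpleGraph V} {G : SimpleGraph W} {P : Finset V} {Z : Finset W}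
    (h : Emb H G P Z) : ∃ X ⊆ Z, X.card ≤ P.card ∧ Emb H G P X := by
  obtain ⟨f, hf, hfZ⟩ := h
  refine ⟨P.image f, image_subset_iff.2 hfZ, card_image_le, f, hf, fun x hx => ?_⟩
  exact mem_image_of_mem f hx

theorem Emb.union {H : SimpleGraph V} {G : SimpleGraph W} {P P' : Finset V} {X Z : Finset W}
    (h : Emb H G P X) (h' : Emb H G P' Z) (hsep : Sep G X Z) : Emb H G (P ∪ P') (X ∪ Z) := by
  obtain ⟨f, hf, hfX⟩ := h
  obtain ⟨g, hg, hgZ⟩ := h'
  have hcase : ∀ x ∈ P ∪ P', (x ∈ P ∧ (if x ∈ P then f x else g x) = f x) ∨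
      (x ∈ P' ∧ (if x ∈ P then f x else g x) = g x) := by
    intro x hx
    by_cases h1 : x ∈ P
    · exact Or.inl ⟨h1, by simp [h1]⟩
    · rcases mem_union.1 hx with h | h
      · exact absurd h h1
      · exact Or.inr ⟨h, by simp [h1]⟩
  refine ⟨fun v => if v ∈ P then f v else g v, ⟨?_, ?_⟩, ?_⟩
  · intro x hx y hy hxy
    simp only at hxy
    rcases hcase x hx with ⟨h1, e1⟩ | ⟨h1, e1⟩ <;> rcases hcase y hy with ⟨h2, e2⟩ | ⟨h2, e2⟩ <;>
      rw [e1, e2] at hxy
    · exact hf.1 x h1 y h2 hxy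
    · exact absurd hxy (hsep _ (hfX x h1) _ (hgZ y h2)).1
    · exact absurd hxy.symm (hsep _ (hfX y h2) _ (hgZ x h1)).1
    · exact hg.1 x h1 y h2 hxy
  · intro x hx y hy hxy
    simp only
    rcases hcase x hx with ⟨h1, e1⟩ | ⟨h1, e1⟩ <;> rcases hcase y hy with ⟨h2, e2⟩ | ⟨h2, e2⟩ <;>
      rw [e1, e2]
    · exact hf.2 x h1 y h2 hxy
    · exact (hsep _ (hfX x h1) _ (hgZ y h2)).2
    · exact fun h => (hsep _ (hfX y h2) _ (hgZ x h1)).2 h.symm
    · exact hg.2 x h1 y h2 hxy
  · intro x hx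
    simp only
    rcases hcase x hx with ⟨h1, e1⟩ | ⟨h1, e1⟩ <;> rw [e1]
    · exact mem_union_left _ (hfX x h1)
    · exact mem_union_right _ (hgZ x h1)

theorem emb_indep [Nonempty W] (H : SimpleGraph V) (G : SimpleGraph W) (P : Finset V)
    (h : ∀ x ∈ P, ∀ y ∈ P, ¬ H.Adj x y) (X : Finset W) (hc : P.card ≤ X.card) :
    Emb H G P X :=
  embed_degenerate H G P 0 (Dg_indep H P h) X X.card
    (fun z _ => card_le_card (nb_subset G X z)) (by omega)

theorem contained_of_emb [Fintype V] (H : SimpleGraph V) (G : SimpleGraph W) {Z : Finset W}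
    (h : Emb H G univ Z) : H.IsContained Gᶜ := by
  obtain ⟨g, hg, -⟩ := h
  refine ⟨⟨⟨g, ?_⟩, ?_⟩⟩
  · intro a b hab
    rw [SimpleGraph.compl_adj]
    exact ⟨fun h => hab.ne (hg.1 a (mem_univ a) b (mem_univ b) h),
      hg.2 a (mem_univ a) b (mem_univ b) hab⟩
  · intro a b h
    exact hg.1 a (mem_univ a) b (mem_univ b) h

/-- Embedding graphs with at most `n` vertices and degeneracy at most `D`. -/
theorem deg_embed [Nonempty W] {G : SimpleGraph W} (hG : ¬ H5.IsContained G)
    (H : SimpleGraph V) (P : Finset V) (n D : ℕ) (hD1 : 1 ≤ D) (hPn : P.card ≤ n)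
    (hD : Dg H P D) (Q : Finset W) (hQn : 64 * n * D ≤ Q.card)
    (hQ : 32768 * D ^ 5 ≤ Q.card ^ 2) : Emb H G P Q := by
  by_contra hno
  set N := Q.card with hN
  have hQn' : 64 * n ≤ N := by nlinarith
  have hN2 : 32 * D ^ 2 ≤ N := by
    by_contra hcon
    push Not at hcon
    have h1 := Nat.pow_lt_pow_left hcon (n := 2) (by norm_num)
    have h2 : D ^ 4 ≤ D ^ 5 := Nat.pow_le_pow_right (by omega) (by norm_num)
    nlinarith
  have hNpos : 0 < N := by nlinarith
  set L := Q.filter (fun x => 4 * D * (nb G Q x).card ≤ N) with hL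
  have hLc : 2 * L.card < N := by
    by_contra hcon
    push Not at hcon
    have hdiv : 4 * (D * (N / (4 * D))) ≤ N := by
      calc 4 * (D * (N / (4 * D))) = 4 * D * (N / (4 * D)) := by ring
        _ ≤ _ := Nat.mul_div_le N (4 * D)
    refine hno (Emb.mono (embed_degenerate H G P D hD L (N / (4 * D)) (fun z hz => ?_)
      (by omega)) (filter_subset _ _))
    rw [Nat.le_div_iff_mul_le (by omega), Nat.mul_comm]
    exact (Nat.mul_le_mul_left _ (card_le_card (nb_mono G (filter_subset _ _) z))).trans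
      (mem_filter.1 hz).2
  set A := Q \ L with hA
  have hAc : A.card + L.card = N := card_sdiff_add_card_eq_card (filter_subset _ _)
  have hAd : ∀ a ∈ A, N < 4 * D * (nb G Q a).card := by
    intro a ha
    obtain ⟨haQ, haL⟩ := mem_sdiff.1 ha
    by_contra hcon
    exact haL (mem_filter.2 ⟨haQ, by omega⟩)
  have hd8 : ∀ a ∈ A, 8 * D ≤ (nb G Q a).card := by
    intro a ha
    have h := hAd a ha
    by_contra hcon
    push Not at hcon
    have := Nat.mul_le_mul_left (4 * D) hcon.le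
    nlinarith
  have hdn : ∀ a ∈ A, 16 * n ≤ (nb G Q a).card := by
    intro a ha
    have h := hAd a ha
    by_contra hcon
    push Not at hcon
    have := Nat.mul_le_mul_left (4 * D) hcon.le
    nlinarith
  have hlow : ∀ a ∈ A, (nb G Q a).card ^ 3 ≤ 4 * (4 * D) ^ 2 * ∑ u ∈ nb G Q a,
      ((Q.filter (fun x => G.Adj x a ∧ G.Adj x u)).offDiag).card := by
    intro a ha
    have hd := hd8 a ha
    have hd' := hdn a ha
    set Wa := nb G Q a with hWa
    apply lower G Q Wa a (4 * D) (nb_subset G Q a) (fun u hu => (mem_nb.1 hu).2)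
    · by_contra hcon
      push Not at hcon
      have hdiv : 4 * (D * (Wa.card / (4 * D))) ≤ Wa.card := by
        calc 4 * (D * (Wa.card / (4 * D))) = 4 * D * (Wa.card / (4 * D)) := by ring
          _ ≤ _ := Nat.mul_div_le Wa.card (4 * D)
      refine hno (Emb.mono (embed_degenerate H G P D hD
        (Wa.filter (fun u => 4 * D * (nb G Wa u).card ≤ Wa.card)) (Wa.card / (4 * D))
        (fun z hz => ?_) (by omega)) ((filter_subset _ _).trans (nb_subset G Q a)))
      rw [Nat.le_div_iff_mul_le (by omega), Nat.mul_comm]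
      exact (Nat.mul_le_mul_left _ (card_le_card (nb_mono G (filter_subset _ _) z))).trans
        (mem_filter.1 hz).2
    · omega
  have hcount := count_le hG A Q (fun a => nb G Q a) (fun a _ u hu => (mem_nb.1 hu).2)
  have hsumP : ∑ x ∈ Q, (Pd G Q x).card ≤ N * N := by
    calc _ ≤ ∑ _x ∈ Q, N := sum_le_sum fun x _ => card_le_card (Pd_subset G Q x)
      _ = N * N := by rw [sum_const, smul_eq_mul]
  have h3 : A.card * N ^ 3 ≤ 8192 * D ^ 5 * N ^ 2 := by
    calc A.card * N ^ 3 = ∑ _a ∈ A, N ^ 3 := by rw [sum_const, smul_eq_mul]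
      _ ≤ ∑ a ∈ A, (4 * D) ^ 3 * (nb G Q a).card ^ 3 :=
          sum_le_sum fun a ha => by
            rw [← Nat.mul_pow]
            exact Nat.pow_le_pow_left (hAd a ha).le 3
      _ = (4 * D) ^ 3 * ∑ a ∈ A, (nb G Q a).card ^ 3 := by rw [← mul_sum]
      _ ≤ (4 * D) ^ 3 * ∑ a ∈ A, 4 * (4 * D) ^ 2 * ∑ u ∈ nb G Q a,
          ((Q.filter (fun x => G.Adj x a ∧ G.Adj x u)).offDiag).card :=
          Nat.mul_le_mul_left _ (sum_le_sum hlow)
      _ = (4 * D) ^ 3 * (4 * (4 * D) ^ 2 * ∑ a ∈ A, ∑ u ∈ nb G Q a,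
          ((Q.filter (fun x => G.Adj x a ∧ G.Adj x u)).offDiag).card) := by rw [← mul_sum]
      _ ≤ (4 * D) ^ 3 * (4 * (4 * D) ^ 2 * (2 * (N * N))) :=
          Nat.mul_le_mul_left _ (Nat.mul_le_mul_left _
            (hcount.trans (Nat.mul_le_mul_left _ hsumP)))
      _ = 8192 * D ^ 5 * N ^ 2 := by ring
  have h5 : N ^ 2 * N ^ 2 ≤ N ^ 2 * (16384 * D ^ 5) := by
    calc N ^ 2 * N ^ 2 = N * N ^ 3 := by ring
      _ ≤ 2 * A.card * N ^ 3 := Nat.mul_le_mul_right _ (by omega)
      _ = 2 * (A.card * N ^ 3) := by ring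
      _ ≤ 2 * (8192 * D ^ 5 * N ^ 2) := Nat.mul_le_mul_left _ h3
      _ = _ := by ring
  have h6 : N ^ 2 ≤ 16384 * D ^ 5 := Nat.le_of_mul_le_mul_left h5 (by positivity)
  have h7 : 0 < D ^ 5 := by positivity
  omega

end

end Pool.Agent.RamseyH5
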