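import Pool.Agent.RamseyH5.Core

set_option autoImplicit false

/-!
# Holes in `H5`-free graphs: the counting arguments
-/

namespace Pool.Agent.RamseyH5

open Finset

section

open scoped Classical

variable {W : Type}

/-- A hole whose second set consists of partners of `a` and whose other sets are neighbours
of `a`. -/
theorem hole_centre {G : SimpleGraph W} (hG : ¬ H5.IsContained G) (p : Prop) (Q : Finset W)
    (a : W) (Z : Finset W) (hZQ : Z ⊆ Q) (hZ : ∀ z ∈ Z, G.Adj a z) (τ s n : ℕ)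
    (hτ : ∀ z ∈ Z, (nb G Z z).card ≤ τ) (hX : n ≤ (Pd G Q a).card)
    (hc : s * (τ + 1) + 4 * n ≤ Z.card) : Hole G p s n Q := by
  obtain ⟨X, hXP, hXc⟩ := exists_subset_card_eq hX
  obtain ⟨Z', hZ'Z, hZ'c, hsep⟩ := pick G Z X 2 (s * (τ + 1) + n)
    (fun y hy => nb_PP hG (mem_Pd.1 (hXP hy)).2.1 (mem_Pd.1 (hXP hy)).2.2 Z hZ)
    (by rw [hXc]; omega)
  have hτ' : ∀ z ∈ Z', (nb G Z' z).card ≤ τ := fun z hz =>
    (card_le_card (nb_mono G hZ'Z z)).trans (hτ z (hZ'Z hz))
  obtain ⟨S, hSZ, hSc, hSI⟩ := greedy_indep G Z' τ hτ' s (by omega)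
  obtain ⟨Y, hYZ, hYc, hSY⟩ := pick G Z' S τ n (fun x hx => hτ' x (hSZ hx)) (by rw [hSc]; omega)
  exact ⟨S, X, Y, (hSZ.trans hZ'Z).trans hZQ, hXP.trans (Pd_subset G Q a),
    (hYZ.trans hZ'Z).trans hZQ, hSc, hXc, hYc, fun _ => hSI,
    (hsep.mono subset_rfl hSZ).symm, hSY, hsep.mono subset_rfl hYZ⟩

/-- Two separated sets of sizes `s` and `n` in every set of size `256 * s * n`. -/
theorem two_hole {G : SimpleGraph W} (hG : ¬ H5.IsContained G) (Q : Finset W) (s n : ℕ)
    (hs : 1 ≤ s) (hsn : s ≤ n) (hQ : 256 * s * n ≤ Q.card) :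
    ∃ X Y : Finset W, X ⊆ Q ∧ Y ⊆ Q ∧ X.card = s ∧ Y.card = n ∧ Sep G X Y := by
  by_contra hno
  have hno' : ∀ X Y : Finset W, X ⊆ Q → Y ⊆ Q → X.card = s → Y.card = n → ¬ Sep G X Y :=
    fun X Y h1 h2 h3 h4 h5 => hno ⟨X, Y, h1, h2, h3, h4, h5⟩
  set N := Q.card with hN
  have hNn : 256 * n ≤ N := by nlinarith
  set δ := N / (4 * s) with hδ
  have hδ1 : 4 * (s * δ) ≤ N := by
    have := Nat.mul_div_le N (4 * s)
    calc 4 * (s * δ) = 4 * s * (N / (4 * s)) := by rw [hδ]; ring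
      _ ≤ N := this
  have hδn : 64 * n ≤ δ := by
    rw [hδ, Nat.le_div_iff_mul_le (by omega)]
    calc 64 * n * (4 * s) = 256 * s * n := by ring
      _ ≤ N := hQ
  set L := Q.filter (fun x => (nb G Q x).card < δ) with hL
  have hLs : L.card < s := by
    by_contra hcon
    push Not at hcon
    obtain ⟨X, hXL, hXc⟩ := exists_subset_card_eq hcon
    obtain ⟨Y, hYQ, hYc, hsep⟩ := pick G Q X δ n
      (fun x hx => (mem_filter.1 (hXL hx)).2.le) (by
        rw [hXc, Nat.mul_add]; omega)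
    exact hno' X Y (hXL.trans (filter_subset _ _)) hYQ hXc hYc hsep
  set A := Q \ L with hA
  have hAc : A.card + L.card = N := card_sdiff_add_card_eq_card (filter_subset _ _)
  have hAd : ∀ a ∈ A, a ∈ Q ∧ δ ≤ (nb G Q a).card := by
    intro a ha
    obtain ⟨haQ, haL⟩ := mem_sdiff.1 ha
    refine ⟨haQ, ?_⟩
    by_contra hcon
    exact haL (mem_filter.2 ⟨haQ, by omega⟩)
  have hlow : ∀ a ∈ A, (nb G Q a).card ^ 3 ≤ 4 * (8 * s) ^ 2 * ∑ u ∈ nb G Q a,
      ((Q.filter (fun x => G.Adj x a ∧ G.Adj x u)).offDiag).card := by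
    intro a ha
    have hd := (hAd a ha).2
    set Wa := nb G Q a with hWa
    apply lower G Q Wa a (8 * s) (nb_subset G Q a) (fun u hu => (mem_nb.1 hu).2)
    · by_contra hcon
      push Not at hcon
      have hcs : s ≤ (Wa.filter (fun u => 8 * s * (nb G Wa u).card ≤ Wa.card)).card := by omega
      obtain ⟨X, hXL, hXc⟩ := exists_subset_card_eq hcs
      have hdiv := Nat.mul_div_le Wa.card (8 * s)
      have hdiv' : 8 * (s * (Wa.card / (8 * s))) ≤ Wa.card := by
        calc 8 * (s * (Wa.card / (8 * s))) = 8 * s * (Wa.card / (8 * s)) := by ring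
          _ ≤ _ := hdiv
      obtain ⟨Y, hYQ, hYc, hsep⟩ := pick G Wa X (Wa.card / (8 * s)) n (fun x hx => by
        rw [Nat.le_div_iff_mul_le (by omega), Nat.mul_comm]
        exact (mem_filter.1 (hXL hx)).2) (by rw [hXc, Nat.mul_add]; omega)
      exact hno' X Y ((hXL.trans (filter_subset _ _)).trans (nb_subset G Q a))
        (hYQ.trans (nb_subset G Q a)) hXc hYc hsep
    · omega
  have hPd : ∀ a ∈ A, (Pd G Q a).card ≤ s := by
    intro a ha
    by_contra hcon
    push Not at hcon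
    obtain ⟨X, hXL, hXc⟩ := exists_subset_card_eq hcon.le
    have hd := (hAd a ha).2
    obtain ⟨Y, hYQ, hYc, hsep⟩ := pick G (nb G Q a) X 2 n
      (fun y hy => nb_PP hG (mem_Pd.1 (hXL hy)).2.1 (mem_Pd.1 (hXL hy)).2.2 _
        (fun z hz => (mem_nb.1 hz).2)) (by rw [hXc]; omega)
    exact hno' X Y (hXL.trans (Pd_subset G Q a)) (hYQ.trans (nb_subset G Q a)) hXc hYc hsep
  have hcount := count_le hG A Q (fun a => nb G Q a) (fun a _ u hu => (mem_nb.1 hu).2)
  have hsumP : ∑ x ∈ Q, (Pd G Q x).card ≤ 2 * (s * N) := by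
    have h1 : ∑ x ∈ Q \ L, (Pd G Q x).card ≤ N * s := by
      calc _ ≤ ∑ _x ∈ Q \ L, s := sum_le_sum hPd
        _ = A.card * s := by rw [sum_const, smul_eq_mul]
        _ ≤ N * s := Nat.mul_le_mul_right _ (by omega)
    have h2 : ∑ x ∈ L, (Pd G Q x).card ≤ s * N := by
      calc _ ≤ ∑ _x ∈ L, N := sum_le_sum fun x _ => card_le_card (Pd_subset G Q x)
        _ = L.card * N := by rw [sum_const, smul_eq_mul]
        _ ≤ s * N := Nat.mul_le_mul_right _ hLs.le
    rw [← sum_sdiff (filter_subset (fun x => (nb G Q x).card < δ) Q), ← hL]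
    calc _ ≤ N * s + s * N := Nat.add_le_add h1 h2
      _ = _ := by ring
  have h3 : A.card * δ ^ 3 ≤ 1024 * s ^ 3 * N := by
    calc A.card * δ ^ 3 = ∑ _a ∈ A, δ ^ 3 := by rw [sum_const, smul_eq_mul]
      _ ≤ ∑ a ∈ A, (nb G Q a).card ^ 3 :=
          sum_le_sum fun a ha => Nat.pow_le_pow_left (hAd a ha).2 3
      _ ≤ ∑ a ∈ A, 4 * (8 * s) ^ 2 * ∑ u ∈ nb G Q a,
          ((Q.filter (fun x => G.Adj x a ∧ G.Adj x u)).offDiag).card := sum_le_sum hlow
      _ = 4 * (8 * s) ^ 2 * ∑ a ∈ A, ∑ u ∈ nb G Q a,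
          ((Q.filter (fun x => G.Adj x a ∧ G.Adj x u)).offDiag).card := by rw [← mul_sum]
      _ ≤ 4 * (8 * s) ^ 2 * (2 * (2 * (s * N))) :=
          Nat.mul_le_mul_left _ (hcount.trans (Nat.mul_le_mul_left _ hsumP))
      _ = 1024 * s ^ 3 * N := by ring
  have h4 : N ≤ 2 * A.card := by omega
  have h5 : N * δ ^ 3 ≤ N * (2048 * s ^ 3) := by
    calc N * δ ^ 3 ≤ 2 * A.card * δ ^ 3 := Nat.mul_le_mul_right _ h4
      _ = 2 * (A.card * δ ^ 3) := by ring
      _ ≤ 2 * (1024 * s ^ 3 * N) := Nat.mul_le_mul_left _ h3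
      _ = _ := by ring
  have h6 : δ ^ 3 ≤ 2048 * s ^ 3 := Nat.le_of_mul_le_mul_left h5 (by omega)
  have h7 : (64 * s) ^ 3 ≤ δ ^ 3 := Nat.pow_le_pow_left (by omega) 3
  have h8 : 0 < s ^ 3 := by positivity
  nlinarith

/-- Independent sets of size `s` in every set of size `C * s ^ (5 / 2)`. -/
theorem indep_set {G : SimpleGraph W} (hG : ¬ H5.IsContained G) (Q : Finset W) (s : ℕ)
    (hs : 1 ≤ s) (hQ : 32768 * s ^ 5 ≤ Q.card ^ 2) :
    ∃ S : Finset W, S ⊆ Q ∧ S.card = s ∧ Ind G S := by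
  by_contra hno
  have hno' : ∀ S : Finset W, S ⊆ Q → S.card = s → ¬ Ind G S :=
    fun S h1 h2 h3 => hno ⟨S, h1, h2, h3⟩
  set N := Q.card with hN
  have hN2 : 32 * s ^ 2 ≤ N := by
    by_contra hcon
    push Not at hcon
    have h1 := Nat.pow_lt_pow_left hcon (n := 2) (by norm_num)
    have h2 : s ^ 4 ≤ s ^ 5 := Nat.pow_le_pow_right (by omega) (by norm_num)
    nlinarith
  have hN3 : 32 * s ≤ N := by nlinarith
  set L := Q.filter (fun x => 4 * s * (nb G Q x).card ≤ N) with hL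
  have hLc : 2 * L.card < N := by
    by_contra hcon
    push Not at hcon
    have hdiv : 4 * (s * (N / (4 * s))) ≤ N := by
      calc 4 * (s * (N / (4 * s))) = 4 * s * (N / (4 * s)) := by ring
        _ ≤ _ := Nat.mul_div_le N (4 * s)
    obtain ⟨S, hSL, hSc, hSI⟩ := greedy_indep G L (N / (4 * s)) (fun z hz => by
      rw [Nat.le_div_iff_mul_le (by omega), Nat.mul_comm]
      exact (Nat.mul_le_mul_left _ (card_le_card (nb_mono G (filter_subset _ _) z))).trans
        (mem_filter.1 hz).2) s (by rw [Nat.mul_add]; omega)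
    exact hno' S (hSL.trans (filter_subset _ _)) hSc hSI
  set A := Q \ L with hA
  have hAc : A.card + L.card = N := card_sdiff_add_card_eq_card (filter_subset _ _)
  have hAd : ∀ a ∈ A, N < 4 * s * (nb G Q a).card := by
    intro a ha
    obtain ⟨haQ, haL⟩ := mem_sdiff.1 ha
    by_contra hcon
    exact haL (mem_filter.2 ⟨haQ, by omega⟩)
  have hd8 : ∀ a ∈ A, 8 * s ≤ (nb G Q a).card := by
    intro a ha
    have h := hAd a ha
    by_contra hcon
    push Not at hcon
    have := Nat.mul_le_mul_left (4 * s) hcon.le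
    nlinarith
  have hlow : ∀ a ∈ A, (nb G Q a).card ^ 3 ≤ 4 * (4 * s) ^ 2 * ∑ u ∈ nb G Q a,
      ((Q.filter (fun x => G.Adj x a ∧ G.Adj x u)).offDiag).card := by
    intro a ha
    have hd := hd8 a ha
    set Wa := nb G Q a with hWa
    apply lower G Q Wa a (4 * s) (nb_subset G Q a) (fun u hu => (mem_nb.1 hu).2)
    · by_contra hcon
      push Not at hcon
      have hdiv : 4 * (s * (Wa.card / (4 * s))) ≤ Wa.card := by
        calc 4 * (s * (Wa.card / (4 * s))) = 4 * s * (Wa.card / (4 * s)) := by ring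
          _ ≤ _ := Nat.mul_div_le Wa.card (4 * s)
      obtain ⟨S, hSL, hSc, hSI⟩ := greedy_indep G
        (Wa.filter (fun u => 4 * s * (nb G Wa u).card ≤ Wa.card)) (Wa.card / (4 * s))
        (fun z hz => by
          rw [Nat.le_div_iff_mul_le (by omega), Nat.mul_comm]
          exact (Nat.mul_le_mul_left _ (card_le_card (nb_mono G (filter_subset _ _) z))).trans
            (mem_filter.1 hz).2) s (by rw [Nat.mul_add]; omega)
      exact hno' S ((hSL.trans (filter_subset _ _)).trans (nb_subset G Q a)) hSc hSI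
    · omega
  have hcount := count_le hG A Q (fun a => nb G Q a) (fun a _ u hu => (mem_nb.1 hu).2)
  have hsumP : ∑ x ∈ Q, (Pd G Q x).card ≤ N * N := by
    calc _ ≤ ∑ _x ∈ Q, N := sum_le_sum fun x _ => card_le_card (Pd_subset G Q x)
      _ = N * N := by rw [sum_const, smul_eq_mul]
  have h3 : A.card * N ^ 3 ≤ 8192 * s ^ 5 * N ^ 2 := by
    calc A.card * N ^ 3 = ∑ _a ∈ A, N ^ 3 := by rw [sum_const, smul_eq_mul]
      _ ≤ ∑ a ∈ A, (4 * s) ^ 3 * (nb G Q a).card ^ 3 :=
          sum_le_sum fun a ha => by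
            rw [← Nat.mul_pow]
            exact Nat.pow_le_pow_left (hAd a ha).le 3
      _ = (4 * s) ^ 3 * ∑ a ∈ A, (nb G Q a).card ^ 3 := by rw [← mul_sum]
      _ ≤ (4 * s) ^ 3 * ∑ a ∈ A, 4 * (4 * s) ^ 2 * ∑ u ∈ nb G Q a,
          ((Q.filter (fun x => G.Adj x a ∧ G.Adj x u)).offDiag).card :=
          Nat.mul_le_mul_left _ (sum_le_sum hlow)
      _ = (4 * s) ^ 3 * (4 * (4 * s) ^ 2 * ∑ a ∈ A, ∑ u ∈ nb G Q a,
          ((Q.filter (fun x => G.Adj x a ∧ G.Adj x u)).offDiag).card) := by rw [← mul_sum]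
      _ ≤ (4 * s) ^ 3 * (4 * (4 * s) ^ 2 * (2 * (N * N))) :=
          Nat.mul_le_mul_left _ (Nat.mul_le_mul_left _
            (hcount.trans (Nat.mul_le_mul_left _ hsumP)))
      _ = 8192 * s ^ 5 * N ^ 2 := by ring
  have h5 : N ^ 2 * N ^ 2 ≤ N ^ 2 * (16384 * s ^ 5) := by
    calc N ^ 2 * N ^ 2 = N * N ^ 3 := by ring
      _ ≤ 2 * A.card * N ^ 3 := Nat.mul_le_mul_right _ (by omega)
      _ = 2 * (A.card * N ^ 3) := by ring
      _ ≤ 2 * (8192 * s ^ 5 * N ^ 2) := Nat.mul_le_mul_left _ h3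
      _ = _ := by ring
  have hNpos : 0 < N := by omega
  have h6 : N ^ 2 ≤ 16384 * s ^ 5 := Nat.le_of_mul_le_mul_left h5 (by positivity)
  have h7 : 0 < s ^ 5 := by positivity
  omega

/-- The main lemma. -/
theorem holeM {G : SimpleGraph W} (hG : ¬ H5.IsContained G) (Q : Finset W) (p : Prop)
    (s n δ R : ℕ) (hs : 1 ≤ s) (hsn : s ≤ n) (hQ0 : 0 < Q.card)
    (hLc : 16 * (Q.filter (fun x => (nb G Q x).card < δ)).card ≤ Q.card) (hδn : 64 * n ≤ δ)
    (hδR : 32768 * s ^ 2 * R ≤ δ ^ 3) (hR : ∑ x ∈ Q, (Pd G Q x).card ≤ Q.card * R) :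
    Hole G p s n Q := by
  by_contra hno
  set N := Q.card with hN
  set L := Q.filter (fun x => (nb G Q x).card < δ) with hL
  have hLQ : L ⊆ Q := filter_subset _ _
  have hdL : ∀ a ∈ Q, a ∉ L → δ ≤ (nb G Q a).card := by
    intro a ha haL
    by_contra hcon
    exact haL (mem_filter.2 ⟨ha, by omega⟩)
  set Hi := (Q \ L).filter (fun b => 2 * ((nb G Q b).filter (fun u =>
    8 * s * (nb G (nb G Q b) u).card ≤ (nb G Q b).card)).card ≤ (nb G Q b).card) with hHi
  have hHiQ : Hi ⊆ Q := (filter_subset _ _).trans sdiff_subset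
  have hHid : ∀ b ∈ Hi, δ ≤ (nb G Q b).card := by
    intro b hb
    obtain ⟨h1, h2⟩ := mem_sdiff.1 (mem_filter.1 hb).1
    exact hdL b h1 h2
  have h1 : ∑ b ∈ Hi, (nb G Q b).card ^ 3 ≤ 512 * s ^ 2 * (N * R) := by
    calc ∑ b ∈ Hi, (nb G Q b).card ^ 3 ≤ ∑ b ∈ Hi, 4 * (8 * s) ^ 2 * ∑ u ∈ nb G Q b,
          ((Q.filter (fun x => G.Adj x b ∧ G.Adj x u)).offDiag).card := by
          refine sum_le_sum fun b hb => ?_
          apply lower G Q (nb G Q b) b (8 * s) (nb_subset G Q b) (fun u hu => (mem_nb.1 hu).2)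
            (mem_filter.1 hb).2
          have := hHid b hb
          omega
      _ = 4 * (8 * s) ^ 2 * ∑ b ∈ Hi, ∑ u ∈ nb G Q b,
          ((Q.filter (fun x => G.Adj x b ∧ G.Adj x u)).offDiag).card := by rw [← mul_sum]
      _ ≤ 4 * (8 * s) ^ 2 * (2 * (N * R)) :=
          Nat.mul_le_mul_left _ ((count_le hG Hi Q (fun b => nb G Q b)
            (fun b _ u hu => (mem_nb.1 hu).2)).trans (Nat.mul_le_mul_left _ hR))
      _ = _ := by ring
  have hδpos : 0 < δ := by omega
  have h2 : 64 * ∑ b ∈ Hi, (nb G Q b).card ≤ N * δ := by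
    have h3 : δ ^ 2 * (64 * ∑ b ∈ Hi, (nb G Q b).card) ≤ δ ^ 2 * (N * δ) := by
      calc δ ^ 2 * (64 * ∑ b ∈ Hi, (nb G Q b).card)
          = 64 * ∑ b ∈ Hi, δ ^ 2 * (nb G Q b).card := by rw [← mul_sum]; ring
        _ ≤ 64 * ∑ b ∈ Hi, (nb G Q b).card ^ 3 := by
            refine Nat.mul_le_mul_left _ (sum_le_sum fun b hb => ?_)
            calc δ ^ 2 * (nb G Q b).card ≤ (nb G Q b).card ^ 2 * (nb G Q b).card :=
                  Nat.mul_le_mul_right _ (Nat.pow_le_pow_left (hHid b hb) 2)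
              _ = _ := by ring
        _ ≤ 64 * (512 * s ^ 2 * (N * R)) := Nat.mul_le_mul_left _ h1
        _ = N * (32768 * s ^ 2 * R) := by ring
        _ ≤ N * δ ^ 3 := Nat.mul_le_mul_left _ hδR
        _ = _ := by ring
    exact Nat.le_of_mul_le_mul_left h3 (by positivity)
  have h3 : 64 * Hi.card ≤ N := by
    have h4 : δ * (64 * Hi.card) ≤ δ * N := by
      calc δ * (64 * Hi.card) = 64 * ∑ _b ∈ Hi, δ := by rw [sum_const, smul_eq_mul]; ring
        _ ≤ 64 * ∑ b ∈ Hi, (nb G Q b).card := Nat.mul_le_mul_left _ (sum_le_sum hHid)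
        _ ≤ N * δ := h2
        _ = _ := by ring
    exact Nat.le_of_mul_le_mul_left h4 hδpos
  set V := L ∪ Hi with hV
  have hVQ : V ⊆ Q := union_subset hLQ hHiQ
  set A := Q \ V with hA
  have hAQ : A ⊆ Q := sdiff_subset
  have hAmem : ∀ a ∈ A, a ∈ Q ∧ a ∉ L ∧ a ∉ Hi := by
    intro a ha
    obtain ⟨h1, h2⟩ := mem_sdiff.1 ha
    rw [hV, mem_union, not_or] at h2
    exact ⟨h1, h2.1, h2.2⟩
  have hAd : ∀ a ∈ A, δ ≤ (nb G Q a).card := fun a ha =>
    hdL a (hAmem a ha).1 (hAmem a ha).2.1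
  -- few partners
  have hPd : ∀ a ∈ A, (Pd G Q a).card ≤ n := by
    intro a ha
    by_contra hcon
    push Not at hcon
    obtain ⟨haQ, haL, haH⟩ := hAmem a ha
    have hd := hAd a ha
    set Wa := nb G Q a with hWa
    set Z := Wa.filter (fun u => 8 * s * (nb G Wa u).card ≤ Wa.card) with hZ
    have hZc : Wa.card < 2 * Z.card := by
      by_contra hcon2
      exact haH (mem_filter.2 ⟨mem_sdiff.2 ⟨haQ, haL⟩, by
        push Not at hcon2
        exact hcon2⟩)
    have hdiv : 8 * (s * (Wa.card / (8 * s))) ≤ Wa.card := by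
      calc 8 * (s * (Wa.card / (8 * s))) = 8 * s * (Wa.card / (8 * s)) := by ring
        _ ≤ _ := Nat.mul_div_le Wa.card (8 * s)
    refine hno (hole_centre hG p Q a Z ((filter_subset _ _).trans (nb_subset G Q a))
      (fun z hz => (mem_nb.1 (mem_filter.1 hz).1).2) (Wa.card / (8 * s)) s n (fun z hz => by
        rw [Nat.le_div_iff_mul_le (by omega), Nat.mul_comm]
        exact (Nat.mul_le_mul_left _ (card_le_card (nb_mono G (filter_subset _ _) z))).trans
          (mem_filter.1 hz).2) hcon.le (by rw [Nat.mul_add]; omega))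
  -- vertices with many neighbours outside `A`
  set E := A.filter (fun a => 2 * (nb G A a).card ≤ (nb G Q a).card) with hE
  have hEA : E ⊆ A := filter_subset _ _
  have h5 : 64 * E.card ≤ 10 * N := by
    have hsplit : ∀ a, (nb G Q a).card = (nb G A a).card + (nb G V a).card := by
      intro a
      rw [← card_union_of_disjoint]
      · congr 1
        ext z
        simp only [mem_union, mem_nb, hA, mem_sdiff]
        constructor
        · rintro ⟨h1, h2⟩
          by_cases h : z ∈ V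
          · exact Or.inr ⟨h, h2⟩
          · exact Or.inl ⟨⟨h1, h⟩, h2⟩
        · rintro (⟨⟨h1, _⟩, h2⟩ | ⟨h1, h2⟩)
          · exact ⟨h1, h2⟩
          · exact ⟨hVQ h1, h2⟩
      · rw [disjoint_left]
        intro z hz hz'
        exact (mem_sdiff.1 (mem_nb.1 hz).1).2 (mem_nb.1 hz').1
    have h6 : δ * E.card ≤ 2 * ∑ x ∈ V, (nb G Q x).card := by
      calc δ * E.card = ∑ _a ∈ E, δ := by rw [sum_const, smul_eq_mul]; ring
        _ ≤ ∑ a ∈ E, 2 * (nb G V a).card := by
            refine sum_le_sum fun a ha => ?_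
            have h1 := (mem_filter.1 ha).2
            have h2 := hsplit a
            have h3 := hAd a (hEA ha)
            omega
        _ = 2 * ∑ a ∈ E, (nb G V a).card := by rw [← mul_sum]
        _ = 2 * ∑ x ∈ V, (nb G E x).card := by rw [nb_comm]
        _ ≤ 2 * ∑ x ∈ V, (nb G Q x).card := Nat.mul_le_mul_left _
            (sum_le_sum fun x _ => card_le_card (nb_mono G (hEA.trans hAQ) x))
    have h7 : ∑ x ∈ V, (nb G Q x).card ≤ L.card * δ + ∑ b ∈ Hi, (nb G Q b).card := by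
      calc ∑ x ∈ V, (nb G Q x).card
          ≤ ∑ x ∈ L, (nb G Q x).card + ∑ b ∈ Hi, (nb G Q b).card := by
            rw [hV]
            exact (sum_union_inter (s₁ := L) (s₂ := Hi)
              (f := fun x => (nb G Q x).card)) ▸ Nat.le_add_right _ _
        _ ≤ _ := by
            refine Nat.add_le_add_right ?_ _
            calc _ ≤ ∑ _x ∈ L, δ := sum_le_sum fun x hx => (mem_filter.1 hx).2.le
              _ = _ := by rw [sum_const, smul_eq_mul]
    have h8 : δ * (64 * E.card) ≤ δ * (10 * N) := by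
      have h9 : 8 * (16 * L.card * δ) ≤ 8 * (N * δ) :=
        Nat.mul_le_mul_left _ (Nat.mul_le_mul_right _ hLc)
      calc δ * (64 * E.card) = 64 * (δ * E.card) := by ring
        _ ≤ 64 * (2 * (L.card * δ + ∑ b ∈ Hi, (nb G Q b).card)) :=
            Nat.mul_le_mul_left _ (h6.trans (Nat.mul_le_mul_left _ h7))
        _ = 8 * (16 * L.card * δ) + 2 * (64 * ∑ b ∈ Hi, (nb G Q b).card) := by ring
        _ ≤ 8 * (N * δ) + 2 * (N * δ) := Nat.add_le_add h9 (Nat.mul_le_mul_left _ h2)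
        _ = _ := by ring
    exact Nat.le_of_mul_le_mul_left h8 hδpos
  set A' := A \ E with hA'
  have hA'A : A' ⊆ A := sdiff_subset
  have hA'c : N ≤ 2 * A'.card := by
    have e1 : A'.card + E.card = A.card := card_sdiff_add_card_eq_card hEA
    have e2 : A.card + V.card = N := card_sdiff_add_card_eq_card hVQ
    have e3 : V.card ≤ L.card + Hi.card := card_union_le _ _
    omega
  have hWa : ∀ a ∈ A', 32 * n ≤ (nb G A a).card ∧ δ ≤ 2 * (nb G A a).card := by
    intro a ha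
    obtain ⟨h1, h2⟩ := mem_sdiff.1 ha
    have h3 : (nb G Q a).card < 2 * (nb G A a).card := by
      by_contra hcon
      exact h2 (mem_filter.2 ⟨h1, by omega⟩)
    have h4 := hAd a h1
    omega
  have hlow : ∀ a ∈ A', (nb G A a).card ^ 3 ≤ 4 * (8 * n) ^ 2 * ∑ u ∈ nb G A a,
      ((A.filter (fun x => G.Adj x a ∧ G.Adj x u)).offDiag).card := by
    intro a ha
    obtain ⟨hd, -⟩ := hWa a ha
    set Wa := nb G A a with hWa'
    apply lower G A Wa a (8 * n) (nb_subset G A a) (fun u hu => (mem_nb.1 hu).2)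
    · by_contra hcon
      push Not at hcon
      have hdiv : 8 * (n * (Wa.card / (8 * n))) ≤ Wa.card := by
        calc 8 * (n * (Wa.card / (8 * n))) = 8 * n * (Wa.card / (8 * n)) := by ring
          _ ≤ _ := Nat.mul_div_le Wa.card (8 * n)
      have hsn' : s * (Wa.card / (8 * n) + 1) ≤ n * (Wa.card / (8 * n) + 1) :=
        Nat.mul_le_mul_right _ hsn
      refine hno ((hole_of_sparse G p
        (Wa.filter (fun u => 8 * n * (nb G Wa u).card ≤ Wa.card)) (Wa.card / (8 * n)) s n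
        (fun z hz => by
          rw [Nat.le_div_iff_mul_le (by omega), Nat.mul_comm]
          exact (Nat.mul_le_mul_left _ (card_le_card (nb_mono G (filter_subset _ _) z))).trans
            (mem_filter.1 hz).2) ?_).mono
              (((filter_subset _ _).trans (nb_subset G A a)).trans hAQ))
      rw [Nat.add_mul, Nat.mul_add n]
      rw [Nat.mul_add n] at hsn'
      omega
    · omega
  have hcount := count_le hG A' A (fun a => nb G A a) (fun a _ u hu => (mem_nb.1 hu).2)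
  have hsumP : ∑ x ∈ A, (Pd G A x).card ≤ N * n := by
    calc _ ≤ ∑ _x ∈ A, n := sum_le_sum fun x hx =>
          (card_le_card (Pd_mono G hAQ x)).trans (hPd x hx)
      _ = A.card * n := by rw [sum_const, smul_eq_mul]
      _ ≤ N * n := Nat.mul_le_mul_right _ (card_le_card hAQ)
  have hup : ∑ a ∈ A', (nb G A a).card ^ 3 ≤ 512 * n ^ 3 * N := by
    calc ∑ a ∈ A', (nb G A a).card ^ 3 ≤ ∑ a ∈ A', 4 * (8 * n) ^ 2 * ∑ u ∈ nb G A a,
          ((A.filter (fun x => G.Adj x a ∧ G.Adj x u)).offDiag).card := sum_le_sum hlow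
      _ = 4 * (8 * n) ^ 2 * ∑ a ∈ A', ∑ u ∈ nb G A a,
          ((A.filter (fun x => G.Adj x a ∧ G.Adj x u)).offDiag).card := by rw [← mul_sum]
      _ ≤ 4 * (8 * n) ^ 2 * (2 * (N * n)) :=
          Nat.mul_le_mul_left _ (hcount.trans (Nat.mul_le_mul_left _ hsumP))
      _ = _ := by ring
  have hdown : N * (1024 * n ^ 2 * δ) ≤ 4 * ∑ a ∈ A', (nb G A a).card ^ 3 := by
    calc N * (1024 * n ^ 2 * δ) ≤ 2 * A'.card * (1024 * n ^ 2 * δ) :=
          Nat.mul_le_mul_right _ hA'c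
      _ = 2 * ∑ _a ∈ A', 1024 * n ^ 2 * δ := by rw [sum_const, smul_eq_mul]; ring
      _ ≤ 2 * ∑ a ∈ A', 2 * (nb G A a).card ^ 3 := by
          refine Nat.mul_le_mul_left _ (sum_le_sum fun a ha => ?_)
          obtain ⟨hd1, hd2⟩ := hWa a ha
          calc 1024 * n ^ 2 * δ ≤ 1024 * n ^ 2 * (2 * (nb G A a).card) :=
                Nat.mul_le_mul_left _ hd2
            _ = 2 * ((32 * n) ^ 2 * (nb G A a).card) := by ring
            _ ≤ 2 * ((nb G A a).card ^ 2 * (nb G A a).card) :=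
                Nat.mul_le_mul_left _ (Nat.mul_le_mul_right _ (Nat.pow_le_pow_left hd1 2))
            _ = _ := by ring
      _ = _ := by rw [← mul_sum]; ring
  have hfin : (N * (1024 * n ^ 2)) * δ ≤ (N * (1024 * n ^ 2)) * (2 * n) := by
    calc (N * (1024 * n ^ 2)) * δ = N * (1024 * n ^ 2 * δ) := by ring
      _ ≤ 4 * (512 * n ^ 3 * N) := hdown.trans (Nat.mul_le_mul_left _ hup)
      _ = _ := by ring
  have hn : 0 < n := by omega
  have := Nat.le_of_mul_le_mul_left hfin (by positivity)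
  omega

end

end Pool.Agent.RamseyH5
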