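import Pool.Agent.RamseyH5.Embed

set_option autoImplicit false

/-!
# Joins in the complement of an `H5`-free graph
-/

namespace Pool.Agent.RamseyH5

open Finset

section

open scoped Classical

variable {V W : Type}

/-- The abstract counting argument. -/
theorem countM {G : SimpleGraph W} (hG : ¬ H5.IsContained G) (Q : Finset W)
    (σ n δ R : ℕ) (hσ : 1 ≤ σ) (hn : 1 ≤ n) (hQ0 : 0 < Q.card)
    (hLc : 16 * (Q.filter (fun x => (nb G Q x).card < δ)).card ≤ Q.card) (hδn : 64 * n ≤ δ)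
    (hδσ : 8 * σ ≤ δ) (hδR : 32768 * σ ^ 2 * R ≤ δ ^ 3)
    (hR : ∑ x ∈ Q, (Pd G Q x).card ≤ Q.card * R)
    (h2 : ∀ a ∈ Q, δ ≤ (nb G Q a).card → ∀ Z ⊆ nb G Q a, (nb G Q a).card < 2 * Z.card →
      (∀ z ∈ Z, (nb G Z z).card ≤ (nb G Q a).card / (8 * σ)) → (Pd G Q a).card ≤ n)
    (h3 : ∀ Wa ⊆ Q, 32 * n ≤ Wa.card → ∀ Z ⊆ Wa, Wa.card < 2 * Z.card →
      (∀ z ∈ Z, (nb G Z z).card ≤ Wa.card / (8 * n)) → False) : False := by
  set N := Q.card with hN
  set L := Q.filter (fun x => (nb G Q x).card < δ) with hL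
  have hLQ : L ⊆ Q := filter_subset _ _
  have hdL : ∀ a ∈ Q, a ∉ L → δ ≤ (nb G Q a).card := by
    intro a ha haL
    by_contra hcon
    exact haL (mem_filter.2 ⟨ha, by omega⟩)
  set Hi := (Q \ L).filter (fun b => 2 * ((nb G Q b).filter (fun u =>
    8 * σ * (nb G (nb G Q b) u).card ≤ (nb G Q b).card)).card ≤ (nb G Q b).card) with hHi
  have hHiQ : Hi ⊆ Q := (filter_subset _ _).trans sdiff_subset
  have hHid : ∀ b ∈ Hi, δ ≤ (nb G Q b).card := by
    intro b hb
    obtain ⟨h1, h2⟩ := mem_sdiff.1 (mem_filter.1 hb).1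
    exact hdL b h1 h2
  have h1 : ∑ b ∈ Hi, (nb G Q b).card ^ 3 ≤ 512 * σ ^ 2 * (N * R) := by
    calc ∑ b ∈ Hi, (nb G Q b).card ^ 3 ≤ ∑ b ∈ Hi, 4 * (8 * σ) ^ 2 * ∑ u ∈ nb G Q b,
          ((Q.filter (fun x => G.Adj x b ∧ G.Adj x u)).offDiag).card := by
          refine sum_le_sum fun b hb => ?_
          apply lower G Q (nb G Q b) b (8 * σ) (nb_subset G Q b) (fun u hu => (mem_nb.1 hu).2)
            (mem_filter.1 hb).2
          have := hHid b hb
          omega
      _ = 4 * (8 * σ) ^ 2 * ∑ b ∈ Hi, ∑ u ∈ nb G Q b,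
          ((Q.filter (fun x => G.Adj x b ∧ G.Adj x u)).offDiag).card := by rw [← mul_sum]
      _ ≤ 4 * (8 * σ) ^ 2 * (2 * (N * R)) :=
          Nat.mul_le_mul_left _ ((count_le hG Hi Q (fun b => nb G Q b)
            (fun b _ u hu => (mem_nb.1 hu).2)).trans (Nat.mul_le_mul_left _ hR))
      _ = _ := by ring
  have hδpos : 0 < δ := by omega
  have h4 : 64 * ∑ b ∈ Hi, (nb G Q b).card ≤ N * δ := by
    have h3 : δ ^ 2 * (64 * ∑ b ∈ Hi, (nb G Q b).card) ≤ δ ^ 2 * (N * δ) := by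
      calc δ ^ 2 * (64 * ∑ b ∈ Hi, (nb G Q b).card)
          = 64 * ∑ b ∈ Hi, δ ^ 2 * (nb G Q b).card := by rw [← mul_sum]; ring
        _ ≤ 64 * ∑ b ∈ Hi, (nb G Q b).card ^ 3 := by
            refine Nat.mul_le_mul_left _ (sum_le_sum fun b hb => ?_)
            calc δ ^ 2 * (nb G Q b).card ≤ (nb G Q b).card ^ 2 * (nb G Q b).card :=
                  Nat.mul_le_mul_right _ (Nat.pow_le_pow_left (hHid b hb) 2)
              _ = _ := by ring
        _ ≤ 64 * (512 * σ ^ 2 * (N * R)) := Nat.mul_le_mul_left _ h1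
        _ = N * (32768 * σ ^ 2 * R) := by ring
        _ ≤ N * δ ^ 3 := Nat.mul_le_mul_left _ hδR
        _ = _ := by ring
    exact Nat.le_of_mul_le_mul_left h3 (by positivity)
  have h5 : 64 * Hi.card ≤ N := by
    have h6 : δ * (64 * Hi.card) ≤ δ * N := by
      calc δ * (64 * Hi.card) = 64 * ∑ _b ∈ Hi, δ := by rw [sum_const, smul_eq_mul]; ring
        _ ≤ 64 * ∑ b ∈ Hi, (nb G Q b).card := Nat.mul_le_mul_left _ (sum_le_sum hHid)
        _ ≤ N * δ := h4
        _ = _ := by ring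
    exact Nat.le_of_mul_le_mul_left h6 hδpos
  set V0 := L ∪ Hi with hV
  have hVQ : V0 ⊆ Q := union_subset hLQ hHiQ
  set A := Q \ V0 with hA
  have hAQ : A ⊆ Q := sdiff_subset
  have hAmem : ∀ a ∈ A, a ∈ Q ∧ a ∉ L ∧ a ∉ Hi := by
    intro a ha
    obtain ⟨h1, h2⟩ := mem_sdiff.1 ha
    rw [hV, mem_union, not_or] at h2
    exact ⟨h1, h2.1, h2.2⟩
  have hAd : ∀ a ∈ A, δ ≤ (nb G Q a).card := fun a ha =>
    hdL a (hAmem a ha).1 (hAmem a ha).2.1
  -- few partners
  have hPd : ∀ a ∈ A, (Pd G Q a).card ≤ n := by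
    intro a ha
    obtain ⟨haQ, haL, haH⟩ := hAmem a ha
    refine h2 a haQ (hAd a ha) ((nb G Q a).filter (fun u =>
      8 * σ * (nb G (nb G Q a) u).card ≤ (nb G Q a).card)) (filter_subset _ _) ?_ ?_
    · by_contra hcon2
      push Not at hcon2
      exact haH (mem_filter.2 ⟨mem_sdiff.2 ⟨haQ, haL⟩, hcon2⟩)
    · intro z hz
      rw [Nat.le_div_iff_mul_le (by omega), Nat.mul_comm]
      exact (Nat.mul_le_mul_left _ (card_le_card (nb_mono G (filter_subset _ _) z))).trans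
        (mem_filter.1 hz).2
  -- vertices with many neighbours outside `A`
  set E := A.filter (fun a => 2 * (nb G A a).card ≤ (nb G Q a).card) with hE
  have hEA : E ⊆ A := filter_subset _ _
  have h6 : 64 * E.card ≤ 10 * N := by
    have hsplit : ∀ a, (nb G Q a).card = (nb G A a).card + (nb G V0 a).card := by
      intro a
      rw [← card_union_of_disjoint]
      · congr 1
        ext z
        simp only [mem_union, mem_nb, hA, mem_sdiff]
        constructor
        · rintro ⟨h1, h2⟩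
          by_cases h : z ∈ V0
          · exact Or.inr ⟨h, h2⟩
          · exact Or.inl ⟨⟨h1, h⟩, h2⟩
        · rintro (⟨⟨h1, _⟩, h2⟩ | ⟨h1, h2⟩)
          · exact ⟨h1, h2⟩
          · exact ⟨hVQ h1, h2⟩
      · rw [disjoint_left]
        intro z hz hz'
        exact (mem_sdiff.1 (mem_nb.1 hz).1).2 (mem_nb.1 hz').1
    have h6 : δ * E.card ≤ 2 * ∑ x ∈ V0, (nb G Q x).card := by
      calc δ * E.card = ∑ _a ∈ E, δ := by rw [sum_const, smul_eq_mul]; ring
        _ ≤ ∑ a ∈ E, 2 * (nb G V0 a).card := by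
            refine sum_le_sum fun a ha => ?_
            have h1 := (mem_filter.1 ha).2
            have h2 := hsplit a
            have h3 := hAd a (hEA ha)
            omega
        _ = 2 * ∑ a ∈ E, (nb G V0 a).card := by rw [← mul_sum]
        _ = 2 * ∑ x ∈ V0, (nb G E x).card := by rw [nb_comm]
        _ ≤ 2 * ∑ x ∈ V0, (nb G Q x).card := Nat.mul_le_mul_left _
            (sum_le_sum fun x _ => card_le_card (nb_mono G (hEA.trans hAQ) x))
    have h7 : ∑ x ∈ V0, (nb G Q x).card ≤ L.card * δ + ∑ b ∈ Hi, (nb G Q b).card := by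
      calc ∑ x ∈ V0, (nb G Q x).card
          ≤ ∑ x ∈ L, (nb G Q x).card + ∑ b ∈ Hi, (nb G Q b).card := by
            rw [hV]
            exact (sum_union_inter (s₁ := L) (s₂ := Hi)
              (f := fun x => (nb G Q x).card)) ▸ Nat.le_add_right _ _
        _ ≤ _ := by
            refine Nat.add_le_add_right ?_ _
            calc _ ≤ ∑ _x ∈ L, δ := sum_le_sum fun x hx => (mem_filter.1 hx).2.le
              _ = _ := by rw [sum_const, smul_eq_mul]
    have h8 : δ * (64 * E.card) ≤ δ * (10 * N) := by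
      have h9 : 8 * (16 * L.card * δ) ≤ 8 * (N * δ) :=
        Nat.mul_le_mul_left _ (Nat.mul_le_mul_right _ hLc)
      calc δ * (64 * E.card) = 64 * (δ * E.card) := by ring
        _ ≤ 64 * (2 * (L.card * δ + ∑ b ∈ Hi, (nb G Q b).card)) :=
            Nat.mul_le_mul_left _ (h6.trans (Nat.mul_le_mul_left _ h7))
        _ = 8 * (16 * L.card * δ) + 2 * (64 * ∑ b ∈ Hi, (nb G Q b).card) := by ring
        _ ≤ 8 * (N * δ) + 2 * (N * δ) := Nat.add_le_add h9 (Nat.mul_le_mul_left _ h4)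
        _ = _ := by ring
    exact Nat.le_of_mul_le_mul_left h8 hδpos
  set A' := A \ E with hA'
  have hA'A : A' ⊆ A := sdiff_subset
  have hA'c : N ≤ 2 * A'.card := by
    have e1 : A'.card + E.card = A.card := card_sdiff_add_card_eq_card hEA
    have e2 : A.card + V0.card = N := card_sdiff_add_card_eq_card hVQ
    have e3 : V0.card ≤ L.card + Hi.card := card_union_le _ _
    omega
  have hWa : ∀ a ∈ A', 32 * n ≤ (nb G A a).card ∧ δ ≤ 2 * (nb G A a).card := by
    intro a ha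
    obtain ⟨h1, h2⟩ := mem_sdiff.1 ha
    have h3 : (nb G Q a).card < 2 * (nb G A a).card := by
      by_contra hcon
      exact h2 (mem_filter.2 ⟨h1, by omega⟩)
    have h4 := hAd a h1
    omega
  have hlow : ∀ a ∈ A', (nb G A a).card ^ 3 ≤ 4 * (8 * n) ^ 2 * ∑ u ∈ nb G A a,
      ((A.filter (fun x => G.Adj x a ∧ G.Adj x u)).offDiag).card := by
    intro a ha
    obtain ⟨hd, -⟩ := hWa a ha
    set Wa := nb G A a with hWa'
    apply lower G A Wa a (8 * n) (nb_subset G A a) (fun u hu => (mem_nb.1 hu).2)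
    · by_contra hcon
      push Not at hcon
      refine h3 Wa ((nb_subset G A a).trans hAQ) hd
        (Wa.filter (fun u => 8 * n * (nb G Wa u).card ≤ Wa.card)) (filter_subset _ _) hcon
        (fun z hz => ?_)
      rw [Nat.le_div_iff_mul_le (by omega), Nat.mul_comm]
      exact (Nat.mul_le_mul_left _ (card_le_card (nb_mono G (filter_subset _ _) z))).trans
        (mem_filter.1 hz).2
    · omega
  have hcount := count_le hG A' A (fun a => nb G A a) (fun a _ u hu => (mem_nb.1 hu).2)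
  have hsumP : ∑ x ∈ A, (Pd G A x).card ≤ N * n := by
    calc _ ≤ ∑ _x ∈ A, n := sum_le_sum fun x hx =>
          (card_le_card (Pd_mono G hAQ x)).trans (hPd x hx)
      _ = A.card * n := by rw [sum_const, smul_eq_mul]
      _ ≤ N * n := Nat.mul_le_mul_right _ (card_le_card hAQ)
  have hup : ∑ a ∈ A', (nb G A a).card ^ 3 ≤ 512 * n ^ 3 * N := by
    calc ∑ a ∈ A', (nb G A a).card ^ 3 ≤ ∑ a ∈ A', 4 * (8 * n) ^ 2 * ∑ u ∈ nb G A a,
          ((A.filter (fun x => G.Adj x a ∧ G.Adj x u)).offDiag).card := sum_le_sum hlow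
      _ = 4 * (8 * n) ^ 2 * ∑ a ∈ A', ∑ u ∈ nb G A a,
          ((A.filter (fun x => G.Adj x a ∧ G.Adj x u)).offDiag).card := by rw [← mul_sum]
      _ ≤ 4 * (8 * n) ^ 2 * (2 * (N * n)) :=
          Nat.mul_le_mul_left _ (hcount.trans (Nat.mul_le_mul_left _ hsumP))
      _ = _ := by ring
  have hdown : N * (1024 * n ^ 2 * δ) ≤ 4 * ∑ a ∈ A', (nb G A a).card ^ 3 := by
    calc N * (1024 * n ^ 2 * δ) ≤ 2 * A'.card * (1024 * n ^ 2 * δ) :=
          Nat.mul_le_mul_right _ hA'c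
      _ = 2 * ∑ _a ∈ A', 1024 * n ^ 2 * δ := by rw [sum_const, smul_eq_mul]; ring
      _ ≤ 2 * ∑ a ∈ A', 2 * (nb G A a).card ^ 3 := by
          refine Nat.mul_le_mul_left _ (sum_le_sum fun a ha => ?_)
          obtain ⟨hd1, hd2⟩ := hWa a ha
          calc 1024 * n ^ 2 * δ ≤ 1024 * n ^ 2 * (2 * (nb G A a).card) :=
                Nat.mul_le_mul_left _ hd2
            _ = 2 * ((32 * n) ^ 2 * (nb G A a).card) := by ring
            _ ≤ 2 * ((nb G A a).card ^ 2 * (nb G A a).card) :=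
                Nat.mul_le_mul_left _ (Nat.mul_le_mul_right _ (Nat.pow_le_pow_left hd1 2))
            _ = _ := by ring
      _ = _ := by rw [← mul_sum]; ring
  have hfin : (N * (1024 * n ^ 2)) * δ ≤ (N * (1024 * n ^ 2)) * (2 * n) := by
    calc (N * (1024 * n ^ 2)) * δ = N * (1024 * n ^ 2 * δ) := by ring
      _ ≤ 4 * (512 * n ^ 3 * N) := hdown.trans (Nat.mul_le_mul_left _ hup)
      _ = _ := by ring
  have := Nat.le_of_mul_le_mul_left hfin (by positivity)
  omega

/-- The join of an independent set and a `D`-degenerate graph. -/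
theorem join_embed [Nonempty W] {G : SimpleGraph W} (hG : ¬ H5.IsContained G)
    (H : SimpleGraph V) (A B : Finset V) (n D : ℕ) (hD1 : 1 ≤ D) (hDn : D ≤ n)
    (hA : A.card ≤ n) (hB : B.card ≤ n) (hAI : ∀ x ∈ A, ∀ y ∈ A, ¬ H.Adj x y)
    (hBD : Dg H B D) (Q : Finset W) (hQ1 : 4294967296 * n ^ 2 ≤ Q.card)
    (hQ2 : 4294967296 * (n ^ 2 * D ^ 3) ≤ Q.card ^ 2) : Emb H G (A ∪ B) Q := by
  by_contra hno
  have hn : 1 ≤ n := hD1.trans hDn
  have hn2 : n ≤ n ^ 2 := Nat.le_self_pow (by norm_num) n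
  have hnD : n * D ≤ n ^ 2 := by
    calc n * D ≤ n * n := Nat.mul_le_mul_left _ hDn
      _ = n ^ 2 := by ring
  have hD5 : D ^ 5 ≤ n ^ 2 * D ^ 3 := by
    calc D ^ 5 = D ^ 2 * D ^ 3 := by ring
      _ ≤ n ^ 2 * D ^ 3 := Nat.mul_le_mul_right _ (Nat.pow_le_pow_left hDn 2)
  set N := Q.card with hN
  obtain ⟨hδ1, hδn, hδN⟩ := delta_facts N n n hn le_rfl (by omega)
  set δ := N / (4 * n) with hδ
  set L := Q.filter (fun x => (nb G Q x).card < δ) with hL
  -- few vertices of small degree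
  have hLn : L.card < n := by
    by_contra hcon
    push Not at hcon
    obtain ⟨X, hXL, hXc⟩ := exists_subset_card_eq hcon
    obtain ⟨Q₁, hQ₁, hQ₁c, hsep⟩ := pick G Q X δ (N / 2)
      (fun x hx => (mem_filter.1 (hXL hx)).2.le) (by rw [hXc, Nat.mul_add]; omega)
    have e1 : Emb H G A X := emb_indep H G A hAI X (by omega)
    have e2 : Emb H G B Q₁ := by
      refine deg_embed hG H B n D hD1 hB hBD Q₁ ?_ ?_
      · rw [hQ₁c]
        have : 64 * n * D = 64 * (n * D) := by ring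
        omega
      · rw [hQ₁c]
        have h1 : N ^ 2 ≤ 16 * (N / 2) ^ 2 := by
          have : N ≤ 4 * (N / 2) := by omega
          calc N ^ 2 ≤ (4 * (N / 2)) ^ 2 := Nat.pow_le_pow_left this 2
            _ = _ := by ring
        omega
    exact hno ((e1.union e2 hsep).mono (union_subset (hXL.trans (filter_subset _ _)) hQ₁))
  have hL16 : 16 * L.card ≤ N := by omega
  -- the bound on the number of partners
  set x₀ := 32768 * D ^ 5 with hx₀
  have hx₀pos : 1 ≤ x₀ := by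
    have : 1 ≤ D ^ 5 := Nat.one_le_pow _ _ hD1
    omega
  set r := Nat.sqrt x₀ + 1 with hr
  have hr1 : x₀ ≤ r ^ 2 := by
    have := Nat.lt_succ_sqrt' x₀
    exact this.le
  have hr2 : r ^ 2 ≤ 4 * x₀ := by
    have h1 : 1 ≤ Nat.sqrt x₀ := by
      rw [Nat.le_sqrt]
      omega
    have h2 : Nat.sqrt x₀ ^ 2 ≤ x₀ := Nat.sqrt_le' x₀
    calc r ^ 2 ≤ (2 * Nat.sqrt x₀) ^ 2 := Nat.pow_le_pow_left (by omega) 2
      _ = 4 * Nat.sqrt x₀ ^ 2 := by ring
      _ ≤ _ := Nat.mul_le_mul_left _ h2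
  have hPd : ∀ x ∈ Q \ L, (Pd G Q x).card ≤ 64 * n * D + r := by
    intro x hx
    by_contra hcon
    push Not at hcon
    obtain ⟨hxQ, hxL⟩ := mem_sdiff.1 hx
    have hd : δ ≤ (nb G Q x).card := by
      by_contra hcon2
      exact hxL (mem_filter.2 ⟨hxQ, by omega⟩)
    have e1 : Emb H G B (Pd G Q x) := by
      refine deg_embed hG H B n D hD1 hB hBD (Pd G Q x) (by omega) (hr1.trans ?_)
      exact Nat.pow_le_pow_left (by omega) 2
    obtain ⟨X, hXP, hXc, e1'⟩ := e1.image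
    obtain ⟨Y, hY, hYc, hsep⟩ := pick G (nb G Q x) X 2 n
      (fun y hy => nb_PP hG (mem_Pd.1 (hXP hy)).2.1 (mem_Pd.1 (hXP hy)).2.2 _
        (fun z hz => (mem_nb.1 hz).2)) (by omega)
    have e2 : Emb H G A Y := emb_indep H G A hAI Y (by omega)
    have := (e2.union e1' hsep.symm).mono (union_subset (hY.trans (nb_subset G Q x))
      (hXP.trans (Pd_subset G Q x)))
    exact hno this
  have hsum : ∑ x ∈ Q, (Pd G Q x).card ≤ N * (65 * (n * D) + r) := by
    have e1 : ∑ x ∈ Q \ L, (Pd G Q x).card ≤ N * (64 * n * D + r) := by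
      calc _ ≤ ∑ _x ∈ Q \ L, (64 * n * D + r) := sum_le_sum hPd
        _ = (Q \ L).card * (64 * n * D + r) := by rw [sum_const, smul_eq_mul]
        _ ≤ N * (64 * n * D + r) := Nat.mul_le_mul_right _ (card_le_card sdiff_subset)
    have e2 : ∑ x ∈ L, (Pd G Q x).card ≤ n * N := by
      calc _ ≤ ∑ _x ∈ L, N := sum_le_sum fun x _ => card_le_card (Pd_subset G Q x)
        _ = L.card * N := by rw [sum_const, smul_eq_mul]
        _ ≤ n * N := Nat.mul_le_mul_right _ hLn.le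
    rw [← sum_sdiff (filter_subset (fun x => (nb G Q x).card < δ) Q), ← hL]
    calc _ ≤ N * (64 * n * D + r) + n * N := Nat.add_le_add e1 e2
      _ ≤ N * (64 * n * D + r) + N * (n * D) := by
          refine Nat.add_le_add_left ?_ _
          rw [Nat.mul_comm n N]
          exact Nat.mul_le_mul_left _ (Nat.le_mul_of_pos_right n hD1)
      _ = _ := by ring
  -- the numerical condition
  have hnum : 32768 * D ^ 2 * (65 * (n * D) + r) ≤ δ ^ 3 := by
    have h1 : 2 * (16777216 * (65 * (n ^ 4 * D ^ 3))) ≤ N ^ 3 := by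
      calc 2 * (16777216 * (65 * (n ^ 4 * D ^ 3)))
          ≤ 4294967296 * n ^ 2 * (4294967296 * (n ^ 2 * D ^ 3)) := by
            have : 4294967296 * n ^ 2 * (4294967296 * (n ^ 2 * D ^ 3)) =
              18446744073709551616 * (n ^ 4 * D ^ 3) := by ring
            rw [this]
            omega
        _ ≤ N * N ^ 2 := Nat.mul_le_mul hQ1 hQ2
        _ = N ^ 3 := by ring
    have h2 : 2 * (16777216 * (n ^ 3 * D ^ 2 * r)) ≤ N ^ 3 := by
      by_contra hcon
      push Not at hcon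
      have h3 : (N ^ 3) ^ 2 < (2 * (16777216 * (n ^ 3 * D ^ 2 * r))) ^ 2 :=
        Nat.pow_lt_pow_left hcon (by norm_num)
      have h4 : (2 * (16777216 * (n ^ 3 * D ^ 2 * r))) ^ 2 =
          1125899906842624 * (n ^ 6 * D ^ 4 * r ^ 2) := by ring
      have h5 : n ^ 6 * D ^ 4 * r ^ 2 ≤ n ^ 6 * D ^ 4 * (4 * x₀) := Nat.mul_le_mul_left _ hr2
      have h6 : n ^ 6 * D ^ 4 * (4 * x₀) = 131072 * (n ^ 6 * D ^ 9) := by rw [hx₀]; ring
      have h7 : (4294967296 * (n ^ 2 * D ^ 3)) ^ 3 ≤ (N ^ 2) ^ 3 := Nat.pow_le_pow_left hQ2 3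
      have h8 : (4294967296 * (n ^ 2 * D ^ 3)) ^ 3 =
          79228162514264337593543950336 * (n ^ 6 * D ^ 9) := by ring
      have h9 : (N ^ 2) ^ 3 = (N ^ 3) ^ 2 := by ring
      rw [h4] at h3
      rw [h6] at h5
      rw [h8, h9] at h7
      omega
    have h3 : 512 * n ^ 3 * (32768 * D ^ 2 * (65 * (n * D) + r)) ≤ 512 * n ^ 3 * δ ^ 3 := by
      have e : 512 * n ^ 3 * (32768 * D ^ 2 * (65 * (n * D) + r)) =
          16777216 * (65 * (n ^ 4 * D ^ 3)) + 16777216 * (n ^ 3 * D ^ 2 * r) := by ring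
      rw [e]
      omega
    exact Nat.le_of_mul_le_mul_left h3 (by positivity)
  refine countM hG Q D n δ (65 * (n * D) + r) hD1 hn (by omega) hL16 hδn (by omega) hnum hsum
    ?_ ?_
  · intro a haQ hda Z hZ hZc hZd
    by_contra hcon
    push Not at hcon
    obtain ⟨X, hXP, hXc⟩ := exists_subset_card_eq hcon.le
    obtain ⟨Z', hZ', hZ'c, hsep⟩ := pick G Z X 2 (Z.card - 3 * n)
      (fun y hy => nb_PP hG (mem_Pd.1 (hXP hy)).2.1 (mem_Pd.1 (hXP hy)).2.2 _
        (fun z hz => (mem_nb.1 (hZ hz)).2)) (by omega)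
    have hdiv : 8 * (D * ((nb G Q a).card / (8 * D))) ≤ (nb G Q a).card := by
      calc 8 * (D * ((nb G Q a).card / (8 * D))) = 8 * D * ((nb G Q a).card / (8 * D)) := by ring
        _ ≤ _ := Nat.mul_div_le _ _
    have e1 : Emb H G A X := emb_indep H G A hAI X (by omega)
    have e2 : Emb H G B Z' := embed_degenerate H G B D hBD Z' ((nb G Q a).card / (8 * D))
      (fun z hz => (card_le_card (nb_mono G hZ' z)).trans (hZd z (hZ' hz))) (by omega)
    exact hno ((e1.union e2 hsep).mono (union_subset (hXP.trans (Pd_subset G Q a))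
      (hZ'.trans (hZ.trans (nb_subset G Q a)))))
  · intro Wa hWa hWac Z hZ hZc hZd
    have hAB : (A ∪ B).card ≤ 2 * n := by
      have := card_union_le A B
      omega
    have hdiv : 8 * (n * (Wa.card / (8 * n))) ≤ Wa.card := by
      calc 8 * (n * (Wa.card / (8 * n))) = 8 * n * (Wa.card / (8 * n)) := by ring
        _ ≤ _ := Nat.mul_div_le _ _
    refine hno ((embed_degenerate H G (A ∪ B) (2 * n) ((Dg_card H _).mono subset_rfl hAB) Z
      (Wa.card / (8 * n)) hZd ?_).mono (hZ.trans hWa))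
    have : 2 * n * (Wa.card / (8 * n)) = 2 * (n * (Wa.card / (8 * n))) := by ring
    omega

/-- The main embedding theorem. -/
theorem main_embed [Nonempty W] {G : SimpleGraph W} (hG : ¬ H5.IsContained G)
    (H : SimpleGraph V) (S A B : Finset V) (s n D : ℕ) (hs1 : 1 ≤ s) (hsn : s ≤ n)
    (hD1 : 1 ≤ D) (hDn : D ≤ n) (hS : S.card ≤ s)
    (hA : A.card ≤ n) (hB : B.card ≤ n) (hAI : ∀ x ∈ A, ∀ y ∈ A, ¬ H.Adj x y)
    (hBD : Dg H B D) (Q : Finset W) (hQ1 : 17179869184 * n ^ 2 ≤ Q.card)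
    (hQ2 : 17179869184 * 4 * (n ^ 2 * D ^ 3) ≤ Q.card ^ 2)
    (hQ3 : 17179869184 * s ^ 5 ≤ Q.card ^ 2) : Emb H G (S ∪ (A ∪ B)) Q := by
  by_contra hno
  have hn : 1 ≤ n := hD1.trans hDn
  have hn2 : n ≤ n ^ 2 := Nat.le_self_pow (by norm_num) n
  have hs2 : s ^ 2 ≤ n ^ 2 := Nat.pow_le_pow_left hsn 2
  set N := Q.card with hN
  obtain ⟨hδ1, hδn, hδN⟩ := delta_facts N s n hs1 hsn (by omega)
  set δ := N / (4 * s) with hδ
  set L := Q.filter (fun x => (nb G Q x).card < δ) with hL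
  have hL16 : 16 * L.card ≤ N := by
    by_contra hcon
    push Not at hcon
    have hL1 : 64 * s * s ≤ L.card := by
      have : 64 * s * s = 64 * s ^ 2 := by ring
      omega
    have hL2 : 32768 * s ^ 5 ≤ L.card ^ 2 := by
      have h1 : N ^ 2 ≤ 256 * L.card ^ 2 := by
        calc N ^ 2 ≤ (16 * L.card) ^ 2 := Nat.pow_le_pow_left hcon.le 2
          _ = _ := by ring
      omega
    have e1 := deg_embed hG H S s s hs1 hS ((Dg_card H S).mono subset_rfl hS) L hL1 hL2
    obtain ⟨X, hXL, hXc, e1'⟩ := e1.image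
    have hX2 : X.card * (δ + 1) ≤ s * δ + s := by
      calc X.card * (δ + 1) ≤ s * (δ + 1) := Nat.mul_le_mul_right _ (hXc.trans hS)
        _ = _ := by ring
    obtain ⟨Q₁, hQ₁, hQ₁c, hsep⟩ := pick G Q X δ (N / 2)
      (fun x hx => (mem_filter.1 (hXL hx)).2.le) (by omega)
    have e2 : Emb H G (A ∪ B) Q₁ := by
      refine join_embed hG H A B n D hD1 hDn hA hB hAI hBD Q₁ ?_ ?_
      · rw [hQ₁c]
        omega
      · rw [hQ₁c]
        have h1 : N ^ 2 ≤ 16 * (N / 2) ^ 2 := by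
          have : N ≤ 4 * (N / 2) := by omega
          calc N ^ 2 ≤ (4 * (N / 2)) ^ 2 := Nat.pow_le_pow_left this 2
            _ = _ := by ring
        omega
    exact hno ((e1'.union e2 hsep).mono (union_subset (hXL.trans (filter_subset _ _)) hQ₁))
  have hnum : 32768 * (s + D) ^ 2 * N ≤ δ ^ 3 := by
    have h1 : s ^ 3 * (s + D) ^ 2 ≤ 4 * s ^ 5 + 2 * (n ^ 2 * D ^ 3) := by
      have h2 : (s + D) ^ 2 ≤ 2 * s ^ 2 + 2 * D ^ 2 := by
        nlinarith [sq_nonneg ((s : ℤ) - D), Nat.le_total s D]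
      have h3 : s ^ 3 * D ^ 2 ≤ s ^ 5 + n ^ 2 * D ^ 3 := by
        rcases Nat.le_total D s with h | h
        · calc s ^ 3 * D ^ 2 ≤ s ^ 3 * s ^ 2 := Nat.mul_le_mul_left _ (Nat.pow_le_pow_left h 2)
            _ = s ^ 5 := by ring
            _ ≤ _ := Nat.le_add_right _ _
        · calc s ^ 3 * D ^ 2 = s ^ 2 * s * D ^ 2 := by ring
            _ ≤ n ^ 2 * D * D ^ 2 := Nat.mul_le_mul_right _ (Nat.mul_le_mul hs2 h)
            _ = n ^ 2 * D ^ 3 := by ring
            _ ≤ _ := Nat.le_add_left _ _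
      calc s ^ 3 * (s + D) ^ 2 ≤ s ^ 3 * (2 * s ^ 2 + 2 * D ^ 2) := Nat.mul_le_mul_left _ h2
        _ = 2 * s ^ 5 + 2 * (s ^ 3 * D ^ 2) := by ring
        _ ≤ 2 * s ^ 5 + 2 * (s ^ 5 + n ^ 2 * D ^ 3) :=
            Nat.add_le_add_left (Nat.mul_le_mul_left _ h3) _
        _ = _ := by ring
    have h4 : 16777216 * (s ^ 3 * (s + D) ^ 2) ≤ N ^ 2 := by omega
    have h5 : 512 * s ^ 3 * (32768 * (s + D) ^ 2 * N) ≤ 512 * s ^ 3 * δ ^ 3 := by
      calc 512 * s ^ 3 * (32768 * (s + D) ^ 2 * N)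
          = N * (16777216 * (s ^ 3 * (s + D) ^ 2)) := by ring
        _ ≤ N * N ^ 2 := Nat.mul_le_mul_left _ h4
        _ = N ^ 3 := by ring
        _ ≤ _ := hδN
    exact Nat.le_of_mul_le_mul_left h5 (by positivity)
  have hsum : ∑ x ∈ Q, (Pd G Q x).card ≤ N * N := by
    calc ∑ x ∈ Q, (Pd G Q x).card ≤ ∑ _x ∈ Q, N :=
          sum_le_sum fun x _ => card_le_card (Pd_subset G Q x)
      _ = N * N := by rw [sum_const, smul_eq_mul]
  refine countM hG Q (s + D) n δ N (by omega) hn (by omega) hL16 hδn (by omega) hnum hsum ?_ ?_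
  · intro a haQ hda Z hZ hZc hZd
    by_contra hcon
    push Not at hcon
    obtain ⟨X, hXP, hXc⟩ := exists_subset_card_eq hcon.le
    obtain ⟨Z', hZ', hZ'c, hsep⟩ := pick G Z X 2 (Z.card - 3 * n)
      (fun y hy => nb_PP hG (mem_Pd.1 (hXP hy)).2.1 (mem_Pd.1 (hXP hy)).2.2 _
        (fun z hz => (mem_nb.1 (hZ hz)).2)) (by omega)
    have hdiv : 8 * ((s + D) * ((nb G Q a).card / (8 * (s + D)))) ≤ (nb G Q a).card := by
      calc 8 * ((s + D) * ((nb G Q a).card / (8 * (s + D)))) =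
            8 * (s + D) * ((nb G Q a).card / (8 * (s + D))) := by ring
        _ ≤ _ := Nat.mul_div_le _ _
    have hSB : (S ∪ B).card ≤ 2 * n := by
      have := card_union_le S B
      omega
    have e1 : Emb H G A X := emb_indep H G A hAI X (by omega)
    have e2 : Emb H G (S ∪ B) Z' := embed_degenerate H G (S ∪ B) (s + D) (Dg_union hBD hS) Z'
      ((nb G Q a).card / (8 * (s + D)))
      (fun z hz => (card_le_card (nb_mono G hZ' z)).trans (hZd z (hZ' hz))) (by omega)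
    have e3 := (e1.union e2 hsep).mono (union_subset (hXP.trans (Pd_subset G Q a))
      (hZ'.trans (hZ.trans (nb_subset G Q a))))
    have e4 : A ∪ (S ∪ B) = S ∪ (A ∪ B) := by
      rw [← union_assoc, union_comm A S, union_assoc]
    rw [e4] at e3
    exact hno e3
  · intro Wa hWa hWac Z hZ hZc hZd
    have hAB : (S ∪ (A ∪ B)).card ≤ 3 * n := by
      have h1 := card_union_le A B
      have h2 := card_union_le S (A ∪ B)
      omega
    have hdiv : 8 * (n * (Wa.card / (8 * n))) ≤ Wa.card := by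
      calc 8 * (n * (Wa.card / (8 * n))) = 8 * n * (Wa.card / (8 * n)) := by ring
        _ ≤ _ := Nat.mul_div_le _ _
    refine hno ((embed_degenerate H G (S ∪ (A ∪ B)) (3 * n) ((Dg_card H _).mono subset_rfl hAB) Z
      (Wa.card / (8 * n)) hZd ?_).mono (hZ.trans hWa))
    have : 3 * n * (Wa.card / (8 * n)) = 3 * (n * (Wa.card / (8 * n))) := by ring
    omega

end

end Pool.Agent.RamseyH5
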