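import Pool.Agent.RamseyH5.Holes

set_option autoImplicit false

/-!
# Holes in `H5`-free graphs: large sets contain holes
-/

namespace Pool.Agent.RamseyH5

open Finset

section

open scoped Classical

variable {W : Type}

/-- A separated set gives a hole. -/
theorem hole_of_low {G : SimpleGraph W} (hG : ¬ H5.IsContained G) (p : Prop) (Q : Finset W)
    (s n δ : ℕ) (hsn : s ≤ n) (hn : 1 ≤ n) (h1 : 4096 * n ^ 2 ≤ Q.card)
    (hδ : 4 * (s * δ) ≤ Q.card) (S : Finset W) (hSQ : S ⊆ Q) (hSc : S.card = s)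
    (hSI : p → Ind G S) (hSd : ∀ x ∈ S, (nb G Q x).card ≤ δ) : Hole G p s n Q := by
  have hn2 : n ≤ n ^ 2 := Nat.le_self_pow (by norm_num) n
  obtain ⟨Q₁, hQ₁, hQ₁c, hsep⟩ := pick G Q S δ (Q.card / 2) hSd (by
    rw [hSc, Nat.mul_add]; omega)
  obtain ⟨X, Y, hX, hY, hXc, hYc, hXY⟩ := two_hole hG Q₁ n n hn le_rfl (by
    rw [hQ₁c]
    have : 256 * n * n = 256 * n ^ 2 := by ring
    omega)
  exact ⟨S, X, Y, hSQ, hX.trans hQ₁, hY.trans hQ₁, hSc, hXc, hYc, hSI,
    hsep.mono subset_rfl hX, hsep.mono subset_rfl hY, hXY⟩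

theorem delta_facts (N s n : ℕ) (hs : 1 ≤ s) (hsn : s ≤ n) (h1 : 4096 * n ^ 2 ≤ N) :
    4 * (s * (N / (4 * s))) ≤ N ∧ 64 * n ≤ N / (4 * s) ∧ N ^ 3 ≤ 512 * s ^ 3 * (N / (4 * s)) ^ 3 := by
  have hδ1 : 4 * (s * (N / (4 * s))) ≤ N := by
    calc 4 * (s * (N / (4 * s))) = 4 * s * (N / (4 * s)) := by ring
      _ ≤ N := Nat.mul_div_le N (4 * s)
  have hδn : 64 * n ≤ N / (4 * s) := by
    rw [Nat.le_div_iff_mul_le (by omega)]
    calc 64 * n * (4 * s) ≤ 64 * n * (4 * n) := Nat.mul_le_mul_left _ (by omega)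
      _ = 256 * n ^ 2 := by ring
      _ ≤ N := by omega
  refine ⟨hδ1, hδn, ?_⟩
  have h2 : N < 4 * s * (N / (4 * s) + 1) := Nat.lt_mul_div_succ N (by omega)
  have h3 : 4 * s * (N / (4 * s) + 1) ≤ 8 * s * (N / (4 * s)) := by
    have : 1 ≤ N / (4 * s) := by omega
    nlinarith
  calc N ^ 3 ≤ (8 * s * (N / (4 * s))) ^ 3 := Nat.pow_le_pow_left (h2.le.trans h3) 3
    _ = _ := by ring

/-- Holes with an independent first set. -/
theorem hole_indep {G : SimpleGraph W} (hG : ¬ H5.IsContained G) (Q : Finset W) (s n : ℕ)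
    (hs : 1 ≤ s) (hsn : s ≤ n) (h1 : 4096 * n ^ 2 ≤ Q.card)
    (h2 : 67108864 * s ^ 5 ≤ Q.card ^ 2) : Hole G True s n Q := by
  set N := Q.card with hN
  obtain ⟨hδ1, hδn, hδN⟩ := delta_facts N s n hs hsn h1
  set δ := N / (4 * s) with hδ
  set L := Q.filter (fun x => (nb G Q x).card < δ) with hL
  have hn2 : n ≤ n ^ 2 := Nat.le_self_pow (by norm_num) n
  rcases Nat.lt_or_ge (L.card ^ 2) (32768 * s ^ 5) with hcase | hcase
  · have hL16 : 16 * L.card ≤ N := by
      by_contra hcon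
      push Not at hcon
      have h3 : N ^ 2 < 256 * L.card ^ 2 := by
        calc N ^ 2 < (16 * L.card) ^ 2 := Nat.pow_lt_pow_left hcon (by norm_num)
          _ = 256 * L.card ^ 2 := by ring
      omega
    refine holeM hG Q True s n δ N hs hsn (by omega) hL16 hδn ?_ ?_
    · have h3 : 512 * s ^ 3 * (131072 * s ^ 2 * N) ≤ 512 * s ^ 3 * δ ^ 3 := by
        calc 512 * s ^ 3 * (131072 * s ^ 2 * N) = N * (67108864 * s ^ 5) := by ring
          _ ≤ N * N ^ 2 := Nat.mul_le_mul_left _ h2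
          _ = N ^ 3 := by ring
          _ ≤ _ := hδN
      have h4 := Nat.le_of_mul_le_mul_left h3 (by positivity)
      have h5 : 32768 * s ^ 2 * N ≤ 131072 * s ^ 2 * N := by
        apply Nat.mul_le_mul_right
        apply Nat.mul_le_mul_right
        norm_num
      omega
    · calc ∑ x ∈ Q, (Pd G Q x).card ≤ ∑ _x ∈ Q, N :=
            sum_le_sum fun x _ => card_le_card (Pd_subset G Q x)
        _ = N * N := by rw [sum_const, smul_eq_mul]
  · obtain ⟨S, hSL, hSc, hSI⟩ := indep_set hG L s hs hcase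
    exact hole_of_low hG True Q s n δ hsn (by omega) h1 hδ1 S (hSL.trans (filter_subset _ _))
      hSc (fun _ => hSI) (fun x hx => (mem_filter.1 (hSL hx)).2.le)

/-- Holes with an arbitrary first set. -/
theorem hole_any {G : SimpleGraph W} (hG : ¬ H5.IsContained G) (Q : Finset W) (s n : ℕ)
    (hs : 1 ≤ s) (hsn : s ≤ n) (h1 : 4096 * n ^ 2 ≤ Q.card)
    (h2 : 8589934592 * (s ^ 6 * n) ≤ Q.card ^ 3) : Hole G False s n Q := by
  set N := Q.card with hN
  obtain ⟨hδ1, hδn, hδN⟩ := delta_facts N s n hs hsn h1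
  set δ := N / (4 * s) with hδ
  set L := Q.filter (fun x => (nb G Q x).card < δ) with hL
  have hn2 : n ≤ n ^ 2 := Nat.le_self_pow (by norm_num) n
  rcases Nat.lt_or_ge L.card s with hcase | hcase
  · have hL16 : 16 * L.card ≤ N := by omega
    by_contra hno
    have hPd : ∀ x ∈ Q \ L, (Pd G Q x).card ≤ 256 * s * n := by
      intro x hx
      by_contra hcon
      push Not at hcon
      obtain ⟨hxQ, hxL⟩ := mem_sdiff.1 hx
      have hd : δ ≤ (nb G Q x).card := by
        by_contra hcon2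
        exact hxL (mem_filter.2 ⟨hxQ, by omega⟩)
      obtain ⟨S, X, hS, hX, hSc, hXc, hSX⟩ := two_hole hG (Pd G Q x) s n hs hsn hcon.le
      obtain ⟨Y, hY, hYc, hsep⟩ := pick G (nb G Q x) (S ∪ X) 2 n
        (fun y hy => nb_PP hG (mem_Pd.1 ((union_subset hS hX) hy)).2.1
          (mem_Pd.1 ((union_subset hS hX) hy)).2.2 _ (fun z hz => (mem_nb.1 hz).2)) (by
            have := card_union_le S X
            omega)
      exact hno ⟨S, X, Y, hS.trans (Pd_subset G Q x), hX.trans (Pd_subset G Q x),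
        hY.trans (nb_subset G Q x), hSc, hXc, hYc, fun h => h.elim, hSX,
        hsep.of_union_left.1, hsep.of_union_left.2⟩
    refine hno (holeM hG Q False s n δ (257 * s * n) hs hsn (by omega) hL16 hδn ?_ ?_)
    · have h3 : 512 * s ^ 3 * (16777216 * (s ^ 3 * n)) ≤ 512 * s ^ 3 * δ ^ 3 := by
        calc 512 * s ^ 3 * (16777216 * (s ^ 3 * n)) = 8589934592 * (s ^ 6 * n) := by ring
          _ ≤ N ^ 3 := h2
          _ ≤ _ := hδN
      have h4 := Nat.le_of_mul_le_mul_left h3 (by positivity)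
      calc 32768 * s ^ 2 * (257 * s * n) = 8421376 * (s ^ 3 * n) := by ring
        _ ≤ 16777216 * (s ^ 3 * n) := Nat.mul_le_mul_right _ (by norm_num)
        _ ≤ δ ^ 3 := h4
    · have e1 : ∑ x ∈ Q \ L, (Pd G Q x).card ≤ N * (256 * s * n) := by
        calc _ ≤ ∑ _x ∈ Q \ L, 256 * s * n := sum_le_sum hPd
          _ = (Q \ L).card * (256 * s * n) := by rw [sum_const, smul_eq_mul]
          _ ≤ N * (256 * s * n) := Nat.mul_le_mul_right _ (card_le_card sdiff_subset)
      have e2 : ∑ x ∈ L, (Pd G Q x).card ≤ s * N := by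
        calc _ ≤ ∑ _x ∈ L, N := sum_le_sum fun x _ => card_le_card (Pd_subset G Q x)
          _ = L.card * N := by rw [sum_const, smul_eq_mul]
          _ ≤ s * N := Nat.mul_le_mul_right _ hcase.le
      rw [← sum_sdiff (filter_subset (fun x => (nb G Q x).card < δ) Q), ← hL]
      calc _ ≤ N * (256 * s * n) + s * N := Nat.add_le_add e1 e2
        _ ≤ N * (256 * s * n) + N * (s * n) := by
            refine Nat.add_le_add_left ?_ _
            rw [Nat.mul_comm s N]
            exact Nat.mul_le_mul_left _ (Nat.le_mul_of_pos_right s (by omega))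
        _ = _ := by ring
  · obtain ⟨S, hSL, hSc⟩ := exists_subset_card_eq hcase
    exact hole_of_low hG False Q s n δ hsn (by omega) h1 hδ1 S (hSL.trans (filter_subset _ _))
      hSc (fun h => h.elim) (fun x hx => (mem_filter.1 (hSL hx)).2.le)

/-- From a hole to an embedding of a graph. -/
theorem contained_of_hole {V : Type} (H : SimpleGraph V) (G : SimpleGraph W) (p : Prop)
    (s n : ℕ) (Q : Finset W) (hole : Hole G p s n Q) (S A B : Finset V)
    (hcov : ∀ v, v ∈ S ∨ v ∈ A ∨ v ∈ B) (hS : S.card ≤ s) (hA : A.card ≤ n) (hB : B.card ≤ n)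
    (hAI : ∀ x ∈ A, ∀ y ∈ A, ¬ H.Adj x y) (hBI : ∀ x ∈ B, ∀ y ∈ B, ¬ H.Adj x y)
    (hp : p ∨ ∀ x ∈ S, ∀ y ∈ S, ¬ H.Adj x y) : H.IsContained Gᶜ := by
  obtain ⟨S', X, Y, -, -, -, hSc, hXc, hYc, hSI, hSX, hSY, hXY⟩ := hole
  have emb : ∀ (P : Finset V) (P' : Finset W), P.card ≤ P'.card →
      ∃ g : V → W, (∀ x ∈ P, g x ∈ P') ∧ ∀ x ∈ P, ∀ y ∈ P, g x = g y → x = y := by
    intro P P' hc
    rcases P.eq_empty_or_nonempty with rfl | hne
    · rcases isEmpty_or_nonempty W with hW | hW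
      · rcases isEmpty_or_nonempty V with hV | ⟨⟨v⟩⟩
        · exact ⟨fun v => (hV.false v).elim, fun x hx => absurd hx (notMem_empty x),
            fun x hx => absurd hx (notMem_empty x)⟩
        · exfalso
          have e1 : S' = ∅ := eq_empty_of_isEmpty S'
          have e2 : X = ∅ := eq_empty_of_isEmpty X
          have e3 : Y = ∅ := eq_empty_of_isEmpty Y
          rw [e1, card_empty] at hSc
          rw [e2, card_empty] at hXc
          rcases hcov v with h | h | h
          · have := card_pos.2 ⟨v, h⟩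
            omega
          · have := card_pos.2 ⟨v, h⟩
            omega
          · have := card_pos.2 ⟨v, h⟩
            omega
      · exact ⟨fun _ => Classical.arbitrary W, fun x hx => absurd hx (notMem_empty x),
          fun x hx => absurd hx (notMem_empty x)⟩
    · have hne' : P'.Nonempty := by
        rw [← card_pos]
        have := card_pos.2 hne
        omega
      obtain ⟨w, -⟩ := hne'
      have hcc : Fintype.card P ≤ Fintype.card P' := by simpa using hc
      obtain ⟨e⟩ := Function.Embedding.nonempty_of_card_le hcc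
      refine ⟨fun v => if h : v ∈ P then (e ⟨v, h⟩ : W) else w, ?_, ?_⟩
      · intro x hx
        simp only [hx, dif_pos]
        exact (e ⟨x, hx⟩).2
      · intro x hx y hy hxy
        simp only [hx, hy, dif_pos] at hxy
        have := e.injective (Subtype.ext hxy)
        exact congrArg Subtype.val this
  obtain ⟨g1, hg1, hg1i⟩ := emb S S' (by omega)
  obtain ⟨g2, hg2, hg2i⟩ := emb A X (by omega)
  obtain ⟨g3, hg3, hg3i⟩ := emb B Y (by omega)
  let f : V → W := fun v => if v ∈ S then g1 v else if v ∈ A then g2 v else g3 v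
  have key : ∀ x y, x ≠ y → f x ≠ f y ∧ (H.Adj x y → ¬ G.Adj (f x) (f y)) := by
    intro x y hxy
    have hx : (x ∈ S ∧ f x = g1 x) ∨ (x ∈ A ∧ f x = g2 x) ∨ (x ∈ B ∧ f x = g3 x) := by
      by_cases h1 : x ∈ S
      · exact Or.inl ⟨h1, by simp [f, h1]⟩
      · by_cases h2 : x ∈ A
        · exact Or.inr (Or.inl ⟨h2, by simp [f, h1, h2]⟩)
        · refine Or.inr (Or.inr ⟨?_, by simp [f, h1, h2]⟩)
          rcases hcov x with h | h | h
          · exact absurd h h1
          · exact absurd h h2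
          · exact h
    have hy : (y ∈ S ∧ f y = g1 y) ∨ (y ∈ A ∧ f y = g2 y) ∨ (y ∈ B ∧ f y = g3 y) := by
      by_cases h1 : y ∈ S
      · exact Or.inl ⟨h1, by simp [f, h1]⟩
      · by_cases h2 : y ∈ A
        · exact Or.inr (Or.inl ⟨h2, by simp [f, h1, h2]⟩)
        · refine Or.inr (Or.inr ⟨?_, by simp [f, h1, h2]⟩)
          rcases hcov y with h | h | h
          · exact absurd h h1
          · exact absurd h h2
          · exact h
    rcases hx with ⟨hx, ex⟩ | ⟨hx, ex⟩ | ⟨hx, ex⟩ <;>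
      rcases hy with ⟨hy, ey⟩ | ⟨hy, ey⟩ | ⟨hy, ey⟩ <;> rw [ex, ey]
    · refine ⟨fun h => hxy (hg1i x hx y hy h), fun hadj => ?_⟩
      rcases hp with hp | hp
      · exact hSI hp _ (hg1 x hx) _ (hg1 y hy)
      · exact absurd hadj (hp x hx y hy)
    · exact ⟨(hSX _ (hg1 x hx) _ (hg2 y hy)).1, fun _ => (hSX _ (hg1 x hx) _ (hg2 y hy)).2⟩
    · exact ⟨(hSY _ (hg1 x hx) _ (hg3 y hy)).1, fun _ => (hSY _ (hg1 x hx) _ (hg3 y hy)).2⟩
    · exact ⟨(hSX.symm _ (hg2 x hx) _ (hg1 y hy)).1,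
        fun _ => (hSX.symm _ (hg2 x hx) _ (hg1 y hy)).2⟩
    · exact ⟨fun h => hxy (hg2i x hx y hy h), fun hadj => absurd hadj (hAI x hx y hy)⟩
    · exact ⟨(hXY _ (hg2 x hx) _ (hg3 y hy)).1, fun _ => (hXY _ (hg2 x hx) _ (hg3 y hy)).2⟩
    · exact ⟨(hSY.symm _ (hg3 x hx) _ (hg1 y hy)).1,
        fun _ => (hSY.symm _ (hg3 x hx) _ (hg1 y hy)).2⟩
    · exact ⟨(hXY.symm _ (hg3 x hx) _ (hg2 y hy)).1,
        fun _ => (hXY.symm _ (hg3 x hx) _ (hg2 y hy)).2⟩
    · exact ⟨fun h => hxy (hg3i x hx y hy h), fun hadj => absurd hadj (hBI x hx y hy)⟩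
  refine ⟨⟨⟨f, ?_⟩, ?_⟩⟩
  · intro a b hab
    rw [SimpleGraph.compl_adj]
    exact ⟨(key a b hab.ne).1, (key a b hab.ne).2 hab⟩
  · intro a b h
    by_contra hne
    exact (key a b hne).1 h

end

end Pool.Agent.RamseyH5
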