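import Pool.Agent.RamseyH5.Stage

set_option autoImplicit false

/-!
# Iterated halving of the maximum degree
-/

namespace Pool.Agent.RamseyH5

open Finset

section

open scoped Classical

variable {V W : Type}

/-- What is needed for one stage: a small graph which does not embed. -/
def Src (H : SimpleGraph V) (G : SimpleGraph W) (σ M : ℕ) (X₀ : Finset W) : Prop :=
  ∀ X ⊆ X₀, ∀ Dc : ℕ, 1 ≤ Dc → (∀ x ∈ X, (nb G X x).card ≤ Dc) → M ≤ 8 * X.card →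
    ∃ (PA PR : Finset V) (n : ℕ), 16384 * n ≤ Dc ∧ PA.card ≤ n ∧ PR.card ≤ n ∧
      (∀ x ∈ PA, ∀ y ∈ PA, ¬ H.Adj x y) ∧ Dg H PR σ ∧ ¬ Emb H G (PA ∪ PR) X

/-- Intermediate state. -/
def State (G : SimpleGraph W) (O X₀ : Finset W) (σ Δ M Dc : ℕ) : Prop :=
  ∃ (O' X : Finset W) (c b1 b2 : ℕ), X ⊆ X₀ ∧ Inv G O O' X Δ M c ∧
    (∀ x ∈ X, (nb G X x).card ≤ Dc) ∧ (X₀ \ X).card ≤ c + b1 + b2 ∧
    b1 * (512 * Δ) + M * Dc ≤ M * Δ ∧ b2 * Dc ^ 3 ≤ 8192 * σ ^ 2 * M ^ 2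

theorem process [Nonempty W] {G : SimpleGraph W} (hG : ¬ H5.IsContained G) {H : SimpleGraph V}
    {O X₀ O₀ : Finset W} {σ Δ M c₀ Dend D₀ : ℕ} (hσ : 1 ≤ σ) (hM : 1 ≤ M)
    (hsrc : Src H G σ M X₀) (hend : 1048576 * σ ^ 2 * M ≤ Dend ^ 3) (h16 : 16 * σ ≤ Dend)
    (hD₀ : Dend ≤ D₀) (hD₀Δ : D₀ ≤ Δ) (hX₀M : X₀.card ≤ M) (hX₀4 : M ≤ 4 * X₀.card)
    (hO : 128 * M ≤ O.card)
    (hXO : ∀ x ∈ X₀, Δ * O.card ≤ 2 * M * (nb G O x).card)
    (hlow : ∀ v ∈ O, ∀ X ⊆ X₀, Δ ≤ 256 * (nb G X v).card →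
      (nb G X v).card < 2 * (Lo G σ (nb G X v)).card)
    (hInv : Inv G O O₀ X₀ Δ M c₀) (hdeg : ∀ x ∈ X₀, (nb G X₀ x).card ≤ D₀) :
    ∃ (O' X : Finset W) (c : ℕ), X ⊆ X₀ ∧ Inv G O O' X Δ M c ∧
      (∀ x ∈ X, (nb G X x).card ≤ Dend) ∧ 16 * (X₀ \ X).card ≤ M := by
  have hDend1 : 1 ≤ Dend := by omega
  have hex : ∃ Dc, Dend ≤ Dc ∧ Dc ≤ Δ ∧ State G O X₀ σ Δ M Dc := by
    refine ⟨D₀, hD₀, hD₀Δ, O₀, X₀, c₀, 0, 0, subset_rfl, hInv, hdeg, ?_, ?_, ?_⟩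
    · rw [sdiff_self]
      simp
    · rw [Nat.zero_mul, Nat.zero_add]
      exact Nat.mul_le_mul_left _ hD₀Δ
    · simp
  obtain ⟨hDc1, hDcΔ, O₁, X₁, c₁, b1, b2, hX₁, hInv₁, hdeg₁, hcard₁, hb1, hb2⟩ :=
    Nat.find_spec hex
  have hmin := fun Dc (h : Dc < Nat.find hex) => Nat.find_min hex h
  set Dc := Nat.find hex with hDc
  have hOpos : 1 ≤ O.card := by omega
  have hΔ1 : 1 ≤ Δ := by omega
  obtain ⟨O', X, c, hO', hX, hXc, hInvc, hcl1, hcl2⟩ := closure G O Δ M _ O₁ X₁ c₁ rfl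
    (fun x hx => hXO x (hX₁ hx)) hInv₁
  have hXX₀ : X ⊆ X₀ := hX.trans hX₁
  have hXd : (X₀ \ X).card ≤ c + b1 + b2 := by
    have h1 : (X₀ \ X).card ≤ (X₀ \ X₁).card + (X₁ \ X).card := by
      refine (card_le_card ?_).trans (card_union_le _ _)
      intro y hy
      obtain ⟨h1, h2⟩ := mem_sdiff.1 hy
      by_cases h : y ∈ X₁
      · exact mem_union_right _ (mem_sdiff.2 ⟨h, h2⟩)
      · exact mem_union_left _ (mem_sdiff.2 ⟨h1, h⟩)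
    omega
  have hcM : 64 * c ≤ M := hInvc.bound hΔ1 hOpos
  have hb1M : 512 * b1 ≤ M := by
    have h1 : Δ * (512 * b1) ≤ Δ * M := by
      calc Δ * (512 * b1) = b1 * (512 * Δ) := by ring
        _ ≤ M * Δ := le_trans (Nat.le_add_right _ _) hb1
        _ = _ := by ring
    exact Nat.le_of_mul_le_mul_left h1 hΔ1
  have hσM : 0 < σ ^ 2 * M := Nat.mul_pos (Nat.pow_pos hσ) hM
  have hb2gen : ∀ b : ℕ, b * Dc ^ 3 ≤ 12288 * σ ^ 2 * M ^ 2 → 85 * b ≤ M := by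
    intro b hb
    have h1 : Dend ^ 3 ≤ Dc ^ 3 := Nat.pow_le_pow_left hDc1 3
    have h2 : 12288 * (σ ^ 2 * M) * (85 * b) ≤ 12288 * (σ ^ 2 * M) * M := by
      calc 12288 * (σ ^ 2 * M) * (85 * b) ≤ b * (1048576 * σ ^ 2 * M) := by
            have : 12288 * (σ ^ 2 * M) * (85 * b) = 1044480 * (b * (σ ^ 2 * M)) := by ring
            have : b * (1048576 * σ ^ 2 * M) = 1048576 * (b * (σ ^ 2 * M)) := by ring
            omega
        _ ≤ b * Dc ^ 3 := Nat.mul_le_mul_left _ (hend.trans h1)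
        _ ≤ 12288 * σ ^ 2 * M ^ 2 := hb
        _ = _ := by ring
    exact Nat.le_of_mul_le_mul_left h2 (by omega)
  have hb2M : 85 * b2 ≤ M := by
    refine hb2gen b2 (hb2.trans ?_)
    have : 8192 * σ ^ 2 * M ^ 2 = 8192 * (σ ^ 2 * M ^ 2) := by ring
    have : 12288 * σ ^ 2 * M ^ 2 = 12288 * (σ ^ 2 * M ^ 2) := by ring
    omega
  have hXcard : X₀.card ≤ X.card + (X₀ \ X).card := by
    have := le_card_sdiff X X₀
    omega
  have hXdeg : ∀ x ∈ X, (nb G X x).card ≤ Dc := fun x hx =>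
    (card_le_card (nb_mono G hX x)).trans (hdeg₁ x (hX hx))
  obtain ⟨PA, PR, n, hn, hPA, hPR, hPAI, hPRD, hno⟩ := hsrc X hXX₀ Dc (by omega) hXdeg (by omega)
  have hXM : X.card ≤ M := (card_le_card hXX₀).trans hX₀M
  obtain ⟨B1, B2, hB1, hB2, hB⟩ := stage hG hσ hPA hPR hPAI hPRD hno Dc Δ M O.card O' (by omega)
    hn hDcΔ hXM hM hO (card_le_card (hInvc.1)) hcl1 hcl2
    (fun v hv => hlow v (hInvc.1 hv) X hXX₀ (hcl1 v hv))
  -- the new set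
  set Xn := X \ (B1 ∪ B2) with hXn
  have hXnX : Xn ⊆ X := sdiff_subset
  have hInvn : Inv G O O' Xn Δ M c := hInvc.subset hXnX
  have hdegn : ∀ x ∈ Xn, (nb G Xn x).card ≤ Dc / 2 := by
    intro x hx
    obtain ⟨h1, h2⟩ := mem_sdiff.1 hx
    rw [mem_union, not_or] at h2
    have h3 := hB x h1 h2.1 h2.2
    have h4 := card_le_card (nb_mono G hXnX x)
    omega
  have hcardn : (X₀ \ Xn).card ≤ c + (b1 + B1.card) + (b2 + B2.card) := by
    have h1 : (X₀ \ Xn).card ≤ (X₀ \ X).card + (B1 ∪ B2).card := by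
      refine (card_le_card ?_).trans (card_union_le _ _)
      intro y hy
      obtain ⟨h1, h2⟩ := mem_sdiff.1 hy
      by_cases h : y ∈ X
      · refine mem_union_right _ ?_
        by_contra h3
        exact h2 (mem_sdiff.2 ⟨h, h3⟩)
      · exact mem_union_left _ (mem_sdiff.2 ⟨h1, h⟩)
    have h2 := card_union_le B1 B2
    omega
  have hb1n : 2 * ((b1 + B1.card) * (512 * Δ)) + M * Dc ≤ 2 * (M * Δ) := by
    have h1 : 2 * (B1.card * (512 * Δ)) ≤ M * Dc := by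
      calc 2 * (B1.card * (512 * Δ)) = 1024 * (B1.card * Δ) := by ring
        _ ≤ 1024 * (8 * n * M) := Nat.mul_le_mul_left _ hB1
        _ = M * (8192 * n) := by ring
        _ ≤ M * Dc := Nat.mul_le_mul_left _ (by omega)
    have h2 : 2 * ((b1 + B1.card) * (512 * Δ)) = 2 * (b1 * (512 * Δ)) +
      2 * (B1.card * (512 * Δ)) := by ring
    omega
  have hb2n : (b2 + B2.card) * Dc ^ 3 ≤ 12288 * σ ^ 2 * M ^ 2 := by
    calc (b2 + B2.card) * Dc ^ 3 = b2 * Dc ^ 3 + B2.card * Dc ^ 3 := by ring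
      _ ≤ 8192 * σ ^ 2 * M ^ 2 + 4096 * σ ^ 2 * M ^ 2 := Nat.add_le_add hb2 hB2
      _ = _ := by ring
  rcases Nat.lt_or_ge (Dc / 2) Dend with hcase | hcase
  · have h1 : 85 * (b2 + B2.card) ≤ M := hb2gen _ hb2n
    have h2 : 512 * (b1 + B1.card) ≤ M := by
      have h3 : (2 * Δ) * (512 * (b1 + B1.card)) ≤ (2 * Δ) * M := by
        calc (2 * Δ) * (512 * (b1 + B1.card)) = 2 * ((b1 + B1.card) * (512 * Δ)) := by ring
          _ ≤ 2 * (M * Δ) := le_trans (Nat.le_add_right _ _) hb1n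
          _ = _ := by ring
      exact Nat.le_of_mul_le_mul_left h3 (by omega)
    exact ⟨O', Xn, c, hXnX.trans hXX₀, hInvn, fun x hx => (hdegn x hx).trans hcase.le, by omega⟩
  · exfalso
    refine hmin (Dc / 2) (by omega) ⟨hcase, by omega, O', Xn, c, b1 + B1.card, b2 + B2.card,
      hXnX.trans hXX₀, hInvn, hdegn, hcardn, ?_, ?_⟩
    · have h1 : 2 * (M * (Dc / 2)) ≤ M * Dc := by
        calc 2 * (M * (Dc / 2)) = M * (2 * (Dc / 2)) := by ring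
          _ ≤ M * Dc := Nat.mul_le_mul_left _ (by omega)
      omega
    · have h1 : 8 * (Dc / 2) ^ 3 ≤ Dc ^ 3 := by
        calc 8 * (Dc / 2) ^ 3 = (2 * (Dc / 2)) ^ 3 := by ring
          _ ≤ Dc ^ 3 := Nat.pow_le_pow_left (by omega) 3
      have h2 : 8 * ((b2 + B2.card) * (Dc / 2) ^ 3) ≤ 12288 * (σ ^ 2 * M ^ 2) := by
        calc 8 * ((b2 + B2.card) * (Dc / 2) ^ 3) = (b2 + B2.card) * (8 * (Dc / 2) ^ 3) := by ring
          _ ≤ (b2 + B2.card) * Dc ^ 3 := Nat.mul_le_mul_left _ h1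
          _ ≤ 12288 * σ ^ 2 * M ^ 2 := hb2n
          _ = _ := by ring
      have h3 : 8192 * σ ^ 2 * M ^ 2 = 8192 * (σ ^ 2 * M ^ 2) := by ring
      omega

end

end Pool.Agent.RamseyH5
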