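import Pool.Agent.RamseyH5.Refine

set_option autoImplicit false

/-!
# Refined halving of the maximum degree
-/

namespace Pool.Agent.RamseyH5

open Finset

section

open scoped Classical

variable {V W : Type}

theorem stage' [Nonempty W] {G : SimpleGraph W} (hG : ¬ H5.IsContained G) {H : SimpleGraph V}
    {PA PR : Finset V} {σ n : ℕ} {X : Finset W} (hσ : 1 ≤ σ) (hPA : PA.card ≤ n)
    (hPR : PR.card ≤ n) (hPAI : ∀ x ∈ PA, ∀ y ∈ PA, ¬ H.Adj x y) (hPRD : Dg H PR σ)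
    (hno : ¬ Emb H G (PA ∪ PR) X) (Dc Δ M Os : ℕ) (O' : Finset W) (hσD : 16 * σ ≤ Dc)
    (hnD : 16384 * n ≤ Dc) (hDΔ : Dc ≤ Δ) (hXM : X.card ≤ M) (hM : 1 ≤ M)
    (hOs : 128 * M ≤ Os) (hO' : O'.card ≤ Os)
    (hcl1 : ∀ v ∈ O', Δ ≤ 256 * (nb G X v).card)
    (hcl2 : ∀ x ∈ X, Δ * Os ≤ 4 * M * (nb G O' x).card)
    (hlow : ∀ v ∈ O', (nb G X v).card < 2 * (Lo G σ (nb G X v)).card) (Rb : ℕ)
    (hRb : ∑ x ∈ X, (Pd G X x).card ≤ M * Rb) :
    ∃ B1 B2 : Finset W, B1.card * Δ ≤ 8 * n * M ∧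
      B2.card * Dc ^ 3 ≤ 4096 * σ ^ 2 * (M * Rb) ∧
      ∀ u ∈ X, u ∉ B1 → u ∉ B2 → 2 * (nb G X u).card < Dc := by
  have hn : 1 ≤ n := by
    by_contra hcon
    have h1 : PA = ∅ := card_eq_zero.1 (by omega)
    have h2 : PR = ∅ := card_eq_zero.1 (by omega)
    rw [h1, h2, union_empty] at hno
    exact hno (Emb_empty H G X)
  let Z : W → Finset W := fun v => Fw G X n (nb G X v).card (nb G X v)
  let T' : W → Finset W := fun v => nb G X v \ Z v
  let E : W → Finset W := fun v => Fw G X n (nb G X v).card (T' v)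
  have htn : ∀ v ∈ O', 64 * n ≤ (nb G X v).card := by
    intro v hv
    have := hcl1 v hv
    omega
  have hZ : ∀ v ∈ O', (Z v).card < n := fun v hv =>
    fw_lt hσ hPA hPR hPAI hPRD hno hn _ _ (nb_subset G X v) subset_rfl (by omega) (htn v hv)
      (hlow v hv)
  have hE : ∀ v ∈ O', (E v).card < n := fun v hv =>
    fw_lt hσ hPA hPR hPAI hPRD hno hn _ _ (nb_subset G X v) sdiff_subset (by
      have h1 : (nb G X v).card - (Z v).card ≤ (T' v).card := le_card_sdiff (Z v) (nb G X v)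
      have h2 := hZ v hv
      omega) (htn v hv) (hlow v hv)
  let ex : W → Finset W := fun u => O'.filter (fun v => u ∈ E v)
  let B1 := X.filter (fun u => (nb G O' u).card ≤ 2 * (ex u).card)
  let B2 := X.filter (fun u => Dc ≤ 2 * (nb G X u).card ∧
    2 * (Lo G σ (nb G X u)).card ≤ (nb G X u).card)
  have hOpos : 0 < Os := by omega
  refine ⟨B1, B2, ?_, ?_, ?_⟩
  · have h1 : Os * (B1.card * Δ) ≤ Os * (8 * n * M) := by
      calc Os * (B1.card * Δ) = B1.card * (Δ * Os) := by ring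
        _ = ∑ _u ∈ B1, Δ * Os := by rw [sum_const, smul_eq_mul]
        _ ≤ ∑ u ∈ B1, 4 * M * (2 * (ex u).card) :=
            sum_le_sum fun u hu => (hcl2 u (mem_filter.1 hu).1).trans
              (Nat.mul_le_mul_left _ (mem_filter.1 hu).2)
        _ = 8 * M * ∑ u ∈ B1, (ex u).card := by
            rw [mul_sum]
            exact sum_congr rfl fun u _ => by ring
        _ ≤ 8 * M * ∑ u ∈ X, (ex u).card :=
            Nat.mul_le_mul_left _ (sum_le_sum_of_subset (filter_subset _ _))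
        _ = 8 * M * ∑ v ∈ O', (E v).card := by
            congr 1
            simp only [ex, card_filter]
            rw [sum_comm]
            refine sum_congr rfl fun v _ => ?_
            rw [← card_filter]
            congr 1
            ext u
            simp only [mem_filter]
            exact ⟨fun h => h.2, fun h => ⟨filter_subset _ _ h, h⟩⟩
        _ ≤ 8 * M * ∑ _v ∈ O', n :=
            Nat.mul_le_mul_left _ (sum_le_sum fun v hv => (hE v hv).le)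
        _ = 8 * M * (O'.card * n) := by rw [sum_const, smul_eq_mul]
        _ ≤ 8 * M * (Os * n) := Nat.mul_le_mul_left _ (Nat.mul_le_mul_right _ hO')
        _ = _ := by ring
    exact Nat.le_of_mul_le_mul_left h1 hOpos
  · have h1 : ∀ u ∈ B2, Dc ^ 3 ≤ 2048 * σ ^ 2 * ∑ w ∈ nb G X u,
        ((X.filter (fun x => G.Adj x u ∧ G.Adj x w)).offDiag).card := by
      intro u hu
      obtain ⟨huX, hu1, hu2⟩ := mem_filter.1 hu
      have h2 := lower G X (nb G X u) u (8 * σ) (nb_subset G X u)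
        (fun w hw => (mem_nb.1 hw).2) hu2 (by omega)
      calc Dc ^ 3 ≤ (2 * (nb G X u).card) ^ 3 := Nat.pow_le_pow_left hu1 3
        _ = 8 * (nb G X u).card ^ 3 := by ring
        _ ≤ 8 * (4 * (8 * σ) ^ 2 * ∑ w ∈ nb G X u,
            ((X.filter (fun x => G.Adj x u ∧ G.Adj x w)).offDiag).card) :=
            Nat.mul_le_mul_left _ h2
        _ = _ := by ring
    have h3 := count_le hG B2 X (fun u => nb G X u) (fun u _ w hw => (mem_nb.1 hw).2)
    have h4 := hRb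
    calc B2.card * Dc ^ 3 = ∑ _u ∈ B2, Dc ^ 3 := by rw [sum_const, smul_eq_mul]
      _ ≤ ∑ u ∈ B2, 2048 * σ ^ 2 * ∑ w ∈ nb G X u,
          ((X.filter (fun x => G.Adj x u ∧ G.Adj x w)).offDiag).card := sum_le_sum h1
      _ = 2048 * σ ^ 2 * ∑ u ∈ B2, ∑ w ∈ nb G X u,
          ((X.filter (fun x => G.Adj x u ∧ G.Adj x w)).offDiag).card := by rw [← mul_sum]
      _ ≤ 2048 * σ ^ 2 * (2 * (M * Rb)) :=
          Nat.mul_le_mul_left _ (h3.trans (Nat.mul_le_mul_left _ h4))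
      _ = _ := by ring
  · intro u huX hu1 hu2
    by_contra hcon
    push Not at hcon
    have hd : (nb G X u).card < 2 * (Lo G σ (nb G X u)).card := by
      by_contra h
      exact hu2 (mem_filter.2 ⟨huX, hcon, by omega⟩)
    have hex : 2 * (ex u).card < (nb G O' u).card := by
      by_contra h
      exact hu1 (mem_filter.2 ⟨huX, by omega⟩)
    have hbig : 32 * Δ ≤ (nb G O' u).card := by
      have h1 := hcl2 u huX
      have h2 : 4 * M * (32 * Δ) ≤ 4 * M * (nb G O' u).card := by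
        calc 4 * M * (32 * Δ) = Δ * (128 * M) := by ring
          _ ≤ Δ * Os := Nat.mul_le_mul_left _ hOs
          _ ≤ _ := h1
      exact Nat.le_of_mul_le_mul_left h2 (by omega)
    have hKc : (nb G O' u).card ≤ (nb G O' u \ ex u).card + (ex u).card := by
      have := le_card_sdiff (ex u) (nb G O' u)
      omega
    have hK := count_one hG X (nb G O' u \ ex u) u (by
      intro v hv
      obtain ⟨hv1, hv2⟩ := mem_sdiff.1 hv
      obtain ⟨hvO, huv⟩ := mem_nb.1 hv1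
      have huE : u ∉ E v := fun h => hv2 (mem_filter.2 ⟨hvO, h⟩)
      have h1 : (nb G X v).card < 8 * n * (nb G (T' v) u).card := by
        by_contra h
        exact huE (mem_filter.2 ⟨huX, by omega⟩)
      have h2 : 0 < (nb G (T' v) u).card := by
        by_contra h
        have h0 : (nb G (T' v) u).card = 0 := by omega
        rw [h0] at h1
        omega
      obtain ⟨a, ha⟩ := card_pos.1 h2
      obtain ⟨ha1, hua⟩ := mem_nb.1 ha
      obtain ⟨ha2, ha3⟩ := mem_sdiff.1 ha1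
      obtain ⟨haX, hva⟩ := mem_nb.1 ha2
      have h3 : (nb G X v).card < 8 * n * (nb G (nb G X v) a).card := by
        by_contra h
        exact ha3 (mem_filter.2 ⟨haX, by omega⟩)
      have h4 : 1 < (nb G (nb G X v) a).card := by
        by_contra h
        have h5 : (nb G (nb G X v) a).card ≤ 1 := by omega
        have h6 := Nat.mul_le_mul_left (8 * n) h5
        have h7 := htn v hvO
        omega
      obtain ⟨y, hy, hyu⟩ := exists_mem_ne h4 u
      obtain ⟨hy1, hay⟩ := mem_nb.1 hy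
      obtain ⟨hyX, hvy⟩ := mem_nb.1 hy1
      exact ⟨a, y, hyX, hyu, hva, huv, hua, hvy.symm, hay.symm⟩)
    have hPd : n ≤ (Pd G X u).card := by omega
    have h9 := lo_embed hσ hPA hPR hPAI hPRD hno (nb G X u) (Lo G σ (nb G X u)) (Pd G X u) 2
      (nb_subset G X u) (Pd_subset G X u) subset_rfl
      (fun y hy => nb_PP hG (mem_Pd.1 hy).2.1 (mem_Pd.1 hy).2.2 _
        (fun z hz => (mem_nb.1 (Lo_subset G σ _ hz)).2)) (by omega)
    omega

/-- What is needed for one refined stage. -/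
def Src2 (H : SimpleGraph V) (G : SimpleGraph W) (σ M Dend D₀ : ℕ) (X₀ : Finset W) : Prop :=
  ∀ X ⊆ X₀, ∀ Dc : ℕ, Dend ≤ Dc → Dc ≤ D₀ → (∀ x ∈ X, (nb G X x).card ≤ Dc) →
    M ≤ 8 * X.card →
    ∃ (PA PR : Finset V) (n Rb : ℕ), 16384 * n ≤ Dc ∧ PA.card ≤ n ∧ PR.card ≤ n ∧
      (∀ x ∈ PA, ∀ y ∈ PA, ¬ H.Adj x y) ∧ Dg H PR σ ∧ ¬ Emb H G (PA ∪ PR) X ∧
      ∑ x ∈ X, (Pd G X x).card ≤ M * Rb ∧ 17592186044416 * σ ^ 4 * Rb ^ 2 ≤ Dend * Dc ^ 5

/-- Intermediate state. -/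
def State2 (G : SimpleGraph W) (O X₀ : Finset W) (Δ M Dend Dc : ℕ) : Prop :=
  ∃ (O' X : Finset W) (c b1 b2 : ℕ), X ⊆ X₀ ∧ Inv G O O' X Δ M c ∧
    (∀ x ∈ X, (nb G X x).card ≤ Dc) ∧ (X₀ \ X).card ≤ c + b1 + b2 ∧
    b1 * (512 * Δ) + M * Dc ≤ M * Δ ∧ 1048576 * b2 ^ 2 * Dc ≤ 6 * (M ^ 2 * Dend)

theorem process2 [Nonempty W] {G : SimpleGraph W} (hG : ¬ H5.IsContained G) {H : SimpleGraph V}
    {O X₀ O₀ : Finset W} {σ Δ M c₀ Dend D₀ : ℕ} (hσ : 1 ≤ σ) (hM : 1 ≤ M)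
    (hsrc : Src2 H G σ M Dend D₀ X₀) (h16 : 16 * σ ≤ Dend)
    (hD₀ : Dend ≤ D₀) (hD₀Δ : D₀ ≤ Δ) (hX₀M : X₀.card ≤ M) (hX₀4 : M ≤ 4 * X₀.card)
    (hO : 128 * M ≤ O.card)
    (hXO : ∀ x ∈ X₀, Δ * O.card ≤ 2 * M * (nb G O x).card)
    (hlow : ∀ v ∈ O, ∀ X ⊆ X₀, Δ ≤ 256 * (nb G X v).card →
      (nb G X v).card < 2 * (Lo G σ (nb G X v)).card)
    (hInv : Inv G O O₀ X₀ Δ M c₀) (hdeg : ∀ x ∈ X₀, (nb G X₀ x).card ≤ D₀) :
    ∃ (O' X : Finset W) (c : ℕ), X ⊆ X₀ ∧ Inv G O O' X Δ M c ∧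
      (∀ x ∈ X, (nb G X x).card ≤ Dend) ∧ 16 * (X₀ \ X).card ≤ M := by
  have hDend1 : 1 ≤ Dend := by omega
  have hex : ∃ Dc, Dend ≤ Dc ∧ Dc ≤ D₀ ∧ State2 G O X₀ Δ M Dend Dc := by
    refine ⟨D₀, hD₀, le_rfl, O₀, X₀, c₀, 0, 0, subset_rfl, hInv, hdeg, ?_, ?_, ?_⟩
    · rw [sdiff_self]
      simp
    · rw [Nat.zero_mul, Nat.zero_add]
      exact Nat.mul_le_mul_left _ hD₀Δ
    · simp
  obtain ⟨hDc1, hDcD, O₁, X₁, c₁, b1, b2, hX₁, hInv₁, hdeg₁, hcard₁, hb1, hb2⟩ :=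
    Nat.find_spec hex
  have hmin := fun Dc (h : Dc < Nat.find hex) => Nat.find_min hex h
  set Dc := Nat.find hex with hDc
  have hDcΔ : Dc ≤ Δ := hDcD.trans hD₀Δ
  have hOpos : 1 ≤ O.card := by omega
  have hΔ1 : 1 ≤ Δ := by omega
  obtain ⟨O', X, c, hO', hX, hXc, hInvc, hcl1, hcl2⟩ := closure G O Δ M _ O₁ X₁ c₁ rfl
    (fun x hx => hXO x (hX₁ hx)) hInv₁
  have hXX₀ : X ⊆ X₀ := hX.trans hX₁
  have hXd : (X₀ \ X).card ≤ c + b1 + b2 := by
    have h1 : (X₀ \ X).card ≤ (X₀ \ X₁).card + (X₁ \ X).card := by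
      refine (card_le_card ?_).trans (card_union_le _ _)
      intro y hy
      obtain ⟨h1, h2⟩ := mem_sdiff.1 hy
      by_cases h : y ∈ X₁
      · exact mem_union_right _ (mem_sdiff.2 ⟨h, h2⟩)
      · exact mem_union_left _ (mem_sdiff.2 ⟨h1, h⟩)
    omega
  have hcM : 64 * c ≤ M := hInvc.bound hΔ1 hOpos
  have hb1M : 512 * b1 ≤ M := by
    have h1 : Δ * (512 * b1) ≤ Δ * M := by
      calc Δ * (512 * b1) = b1 * (512 * Δ) := by ring
        _ ≤ M * Δ := le_trans (Nat.le_add_right _ _) hb1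
        _ = _ := by ring
    exact Nat.le_of_mul_le_mul_left h1 hΔ1
  have hb2gen : ∀ b : ℕ, 1048576 * b ^ 2 * Dc ≤ 12 * (M ^ 2 * Dend) → 85 * b ≤ M := by
    intro b hb
    have h2 : Dend * (1048576 * b ^ 2) ≤ Dend * (12 * M ^ 2) := by
      calc Dend * (1048576 * b ^ 2) = 1048576 * b ^ 2 * Dend := by ring
        _ ≤ 1048576 * b ^ 2 * Dc := Nat.mul_le_mul_left _ hDc1
        _ ≤ 12 * (M ^ 2 * Dend) := hb
        _ = _ := by ring
    have h3 := Nat.le_of_mul_le_mul_left h2 hDend1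
    by_contra hcon
    push Not at hcon
    have h4 := Nat.pow_lt_pow_left hcon (n := 2) (by norm_num)
    have h5 : (85 * b) ^ 2 = 7225 * b ^ 2 := by ring
    omega
  have hb2M : 85 * b2 ≤ M := hb2gen b2 (hb2.trans (by omega))
  have hXcard : X₀.card ≤ X.card + (X₀ \ X).card := by
    have := le_card_sdiff X X₀
    omega
  have hXdeg : ∀ x ∈ X, (nb G X x).card ≤ Dc := fun x hx =>
    (card_le_card (nb_mono G hX x)).trans (hdeg₁ x (hX hx))
  obtain ⟨PA, PR, n, Rb, hn, hPA, hPR, hPAI, hPRD, hno, hRb, hRbn⟩ :=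
    hsrc X hXX₀ Dc hDc1 hDcD hXdeg (by omega)
  have hXM : X.card ≤ M := (card_le_card hXX₀).trans hX₀M
  obtain ⟨B1, B2, hB1, hB2, hB⟩ := stage' hG hσ hPA hPR hPAI hPRD hno Dc Δ M O.card O' (by omega)
    hn hDcΔ hXM hM hO (card_le_card (hInvc.1)) hcl1 hcl2
    (fun v hv => hlow v (hInvc.1 hv) X hXX₀ (hcl1 v hv)) Rb hRb
  have hB2' : 1048576 * B2.card ^ 2 * Dc ≤ M ^ 2 * Dend := by
    have h1 : (B2.card * Dc ^ 3) ^ 2 ≤ (4096 * σ ^ 2 * (M * Rb)) ^ 2 := Nat.pow_le_pow_left hB2 2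
    have h2 : Dc ^ 5 * (1048576 * B2.card ^ 2 * Dc) ≤ Dc ^ 5 * (M ^ 2 * Dend) := by
      calc Dc ^ 5 * (1048576 * B2.card ^ 2 * Dc) = 1048576 * (B2.card * Dc ^ 3) ^ 2 := by ring
        _ ≤ 1048576 * (4096 * σ ^ 2 * (M * Rb)) ^ 2 := Nat.mul_le_mul_left _ h1
        _ = M ^ 2 * (17592186044416 * σ ^ 4 * Rb ^ 2) := by ring
        _ ≤ M ^ 2 * (Dend * Dc ^ 5) := Nat.mul_le_mul_left _ hRbn
        _ = _ := by ring
    exact Nat.le_of_mul_le_mul_left h2 (Nat.pow_pos (by omega))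
  -- the new set
  set Xn := X \ (B1 ∪ B2) with hXn
  have hXnX : Xn ⊆ X := sdiff_subset
  have hInvn : Inv G O O' Xn Δ M c := hInvc.subset hXnX
  have hdegn : ∀ x ∈ Xn, (nb G Xn x).card ≤ Dc / 2 := by
    intro x hx
    obtain ⟨h1, h2⟩ := mem_sdiff.1 hx
    rw [mem_union, not_or] at h2
    have h3 := hB x h1 h2.1 h2.2
    have h4 := card_le_card (nb_mono G hXnX x)
    omega
  have hcardn : (X₀ \ Xn).card ≤ c + (b1 + B1.card) + (b2 + B2.card) := by
    have h1 : (X₀ \ Xn).card ≤ (X₀ \ X).card + (B1 ∪ B2).card := by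
      refine (card_le_card ?_).trans (card_union_le _ _)
      intro y hy
      obtain ⟨h1, h2⟩ := mem_sdiff.1 hy
      by_cases h : y ∈ X
      · refine mem_union_right _ ?_
        by_contra h3
        exact h2 (mem_sdiff.2 ⟨h, h3⟩)
      · exact mem_union_left _ (mem_sdiff.2 ⟨h1, h⟩)
    have h2 := card_union_le B1 B2
    omega
  have hb1n : 2 * ((b1 + B1.card) * (512 * Δ)) + M * Dc ≤ 2 * (M * Δ) := by
    have h1 : 2 * (B1.card * (512 * Δ)) ≤ M * Dc := by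
      calc 2 * (B1.card * (512 * Δ)) = 1024 * (B1.card * Δ) := by ring
        _ ≤ 1024 * (8 * n * M) := Nat.mul_le_mul_left _ hB1
        _ = M * (8192 * n) := by ring
        _ ≤ M * Dc := Nat.mul_le_mul_left _ (by omega)
    have h2 : 2 * ((b1 + B1.card) * (512 * Δ)) = 2 * (b1 * (512 * Δ)) +
      2 * (B1.card * (512 * Δ)) := by ring
    omega
  have hb2n : 2 * (1048576 * (b2 + B2.card) ^ 2 * Dc) ≤ 24 * (M ^ 2 * Dend) := by
    have h1 : 2 * (b2 + B2.card) ^ 2 ≤ 3 * b2 ^ 2 + 6 * B2.card ^ 2 := by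
      nlinarith [sq_nonneg ((b2 : ℤ) - 2 * B2.card), sq_nonneg ((b2 : ℤ) - B2.card),
        Nat.le_total b2 B2.card]
    calc 2 * (1048576 * (b2 + B2.card) ^ 2 * Dc) = 1048576 * Dc * (2 * (b2 + B2.card) ^ 2) := by
          ring
      _ ≤ 1048576 * Dc * (3 * b2 ^ 2 + 6 * B2.card ^ 2) := Nat.mul_le_mul_left _ h1
      _ = 3 * (1048576 * b2 ^ 2 * Dc) + 6 * (1048576 * B2.card ^ 2 * Dc) := by ring
      _ ≤ 3 * (6 * (M ^ 2 * Dend)) + 6 * (M ^ 2 * Dend) :=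
          Nat.add_le_add (Nat.mul_le_mul_left _ hb2) (Nat.mul_le_mul_left _ hB2')
      _ = _ := by ring
  rcases Nat.lt_or_ge (Dc / 2) Dend with hcase | hcase
  · have h1 : 85 * (b2 + B2.card) ≤ M := hb2gen _ (by omega)
    have h2 : 512 * (b1 + B1.card) ≤ M := by
      have h3 : (2 * Δ) * (512 * (b1 + B1.card)) ≤ (2 * Δ) * M := by
        calc (2 * Δ) * (512 * (b1 + B1.card)) = 2 * ((b1 + B1.card) * (512 * Δ)) := by ring
          _ ≤ 2 * (M * Δ) := le_trans (Nat.le_add_right _ _) hb1n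
          _ = _ := by ring
      exact Nat.le_of_mul_le_mul_left h3 (by omega)
    exact ⟨O', Xn, c, hXnX.trans hXX₀, hInvn, fun x hx => (hdegn x hx).trans hcase.le, by omega⟩
  · exfalso
    refine hmin (Dc / 2) (by omega) ⟨hcase, by omega, O', Xn, c, b1 + B1.card, b2 + B2.card,
      hXnX.trans hXX₀, hInvn, hdegn, hcardn, ?_, ?_⟩
    · have h1 : 2 * (M * (Dc / 2)) ≤ M * Dc := by
        calc 2 * (M * (Dc / 2)) = M * (2 * (Dc / 2)) := by ring
          _ ≤ M * Dc := Nat.mul_le_mul_left _ (by omega)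
      omega
    · have h1 : 2 * (1048576 * (b2 + B2.card) ^ 2 * (Dc / 2)) ≤
          1048576 * (b2 + B2.card) ^ 2 * Dc := by
        calc 2 * (1048576 * (b2 + B2.card) ^ 2 * (Dc / 2)) =
              1048576 * (b2 + B2.card) ^ 2 * (2 * (Dc / 2)) := by ring
          _ ≤ _ := Nat.mul_le_mul_left _ (by omega)
      omega

end

end Pool.Agent.RamseyH5
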