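import Pool.Agent.RamseyH5.SparseMain

set_option autoImplicit false

/-!
# Refined counting: joins of an independent set and an easier graph
-/

namespace Pool.Agent.RamseyH5

open Finset

section

open scoped Classical

variable {V W : Type}

/-- The core, with a sharper bound on its size. -/
theorem core' [Fintype V] {H : SimpleGraph V} {G : SimpleGraph W}
    (hno : ∀ Z : Finset W, ¬ Emb H G univ Z) {M μ : ℕ} (hM : 1 ≤ M)
    (hVμ : Fintype.card V ≤ μ)
    (hμ : ∑ v : V, (univ.filter (fun u => H.Adj v u)).card ≤ μ) (hMμ : 262144 * μ ≤ M)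
    (R : Finset W) (Dm : ℕ) (hDm : 1 ≤ Dm) (hR : M ≤ 8 * R.card)
    (hdeg : ∀ x ∈ R, (nb G R x).card ≤ Dm) :
    ∃ P : Finset V, 16384 * P.card ≤ Dm ∧ P.card * M ≤ 16 * μ * Dm ∧
      ∀ P' : Finset V, P ⊆ P' → ∀ Hst : Finset W,
      (∀ x ∈ Hst, (nb G R x).card ≤ Dm) → ¬ Emb H G P' Hst := by
  set k := R.card / (2 * Dm) with hk
  have hk1 : 2 * (k * Dm) ≤ R.card := by
    calc 2 * (k * Dm) = 2 * Dm * (R.card / (2 * Dm)) := by rw [hk]; ring
      _ ≤ R.card := Nat.mul_div_le _ _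
  have hk2 : R.card < 2 * Dm * (k + 1) := Nat.lt_mul_div_succ _ (by omega)
  set P := univ.filter (fun v => k < (univ.filter (fun u => H.Adj v u)).card) with hP
  have h1 : P.card * (k + 1) ≤ μ := by
    calc P.card * (k + 1) = ∑ _v ∈ P, (k + 1) := by rw [sum_const, smul_eq_mul]
      _ ≤ ∑ v ∈ P, (univ.filter (fun u => H.Adj v u)).card :=
          sum_le_sum fun v hv => (mem_filter.1 hv).2
      _ ≤ ∑ v : V, (univ.filter (fun u => H.Adj v u)).card :=
          sum_le_sum_of_subset (subset_univ _)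
      _ ≤ μ := hμ
  have h0 : R.card * P.card ≤ 2 * μ * Dm := by
    calc R.card * P.card ≤ 2 * Dm * (k + 1) * P.card := Nat.mul_le_mul_right _ hk2.le
      _ = 2 * Dm * (P.card * (k + 1)) := by ring
      _ ≤ 2 * Dm * μ := Nat.mul_le_mul_left _ h1
      _ = _ := by ring
  refine ⟨P, ?_, ?_, ?_⟩
  · have h2 : R.card * (16384 * P.card) ≤ R.card * Dm := by
      calc R.card * (16384 * P.card) = 16384 * (R.card * P.card) := by ring
        _ ≤ 16384 * (2 * μ * Dm) := Nat.mul_le_mul_left _ h0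
        _ = Dm * (32768 * μ) := by ring
        _ ≤ Dm * R.card := Nat.mul_le_mul_left _ (by omega)
        _ = _ := by ring
    exact Nat.le_of_mul_le_mul_left h2 (by omega)
  · calc P.card * M ≤ P.card * (8 * R.card) := Nat.mul_le_mul_left _ hR
      _ = 8 * (R.card * P.card) := by ring
      _ ≤ 8 * (2 * μ * Dm) := Nat.mul_le_mul_left _ h0
      _ = _ := by ring
  · intro P' hPP' Hst hHst hemb
    refine hno _ (rest_embed H G P' Hst R Dm k hemb hHst hdeg ?_ (by omega))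
    intro v hv
    by_contra hcon
    push Not at hcon
    exact hv (hPP' (mem_filter.2 ⟨mem_univ _, hcon⟩))

/-- The refined bound for the number of pairs. -/
theorem sum_pd [Nonempty W] {G : SimpleGraph W} (hG : ¬ H5.IsContained G)
    (H : SimpleGraph V) (PA PB : Finset V) (n R F : ℕ) (X : Finset W) (hPA : PA.card ≤ n)
    (hPB : PB.card ≤ n) (hPAI : ∀ x ∈ PA, ∀ y ∈ PA, ¬ H.Adj x y)
    (hno : ¬ Emb H G (PA ∪ PB) X) (h1 : ∀ Z ⊆ X, F ≤ Z.card → Emb H G PB Z)
    (h2 : ∀ Z ⊆ X, R ≤ Z.card → Emb H G PB Z) (hc : n * (4 * n + 1) + F ≤ X.card) :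
    ∑ x ∈ X, (Pd G X x).card ≤ X.card * (R + n) := by
  set L := X.filter (fun x => (nb G X x).card < 4 * n) with hL
  have hLn : L.card ≤ n := by
    by_contra hcon
    push Not at hcon
    obtain ⟨X₁, hX₁, hX₁c⟩ := exists_subset_card_eq hcon.le
    obtain ⟨Z, hZ, hZc, hsep⟩ := pick G X X₁ (4 * n) F
      (fun x hx => (mem_filter.1 (hX₁ hx)).2.le) (by rw [hX₁c]; omega)
    have e1 : Emb H G PA X₁ := emb_indep H G PA hPAI X₁ (by omega)
    have e2 : Emb H G PB Z := h1 Z hZ hZc.ge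
    exact hno ((e1.union e2 hsep).mono (union_subset (hX₁.trans (filter_subset _ _)) hZ))
  have hPd : ∀ x ∈ X \ L, (Pd G X x).card ≤ R := by
    intro x hx
    obtain ⟨hxX, hxL⟩ := mem_sdiff.1 hx
    have hd : 4 * n ≤ (nb G X x).card := by
      by_contra h
      exact hxL (mem_filter.2 ⟨hxX, by omega⟩)
    by_contra hcon
    push Not at hcon
    have e2 : Emb H G PB (Pd G X x) := h2 _ (Pd_subset G X x) hcon.le
    obtain ⟨I, hI, hIc, e3⟩ := e2.image
    obtain ⟨Y, hY, hYc, hsep⟩ := pick G (nb G X x) I 2 n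
      (fun y hy => nb_PP hG (mem_Pd.1 (hI hy)).2.1 (mem_Pd.1 (hI hy)).2.2 _
        (fun z hz => (mem_nb.1 hz).2)) (by
          have := Nat.mul_le_mul_right 3 (hIc.trans hPB)
          omega)
    have e1 : Emb H G PA Y := emb_indep H G PA hPAI Y (by omega)
    exact hno ((e1.union e3 hsep.symm).mono (union_subset (hY.trans (nb_subset G X x))
      (hI.trans (Pd_subset G X x))))
  rw [← sum_sdiff (filter_subset (fun x => (nb G X x).card < 4 * n) X), ← hL]
  calc ∑ x ∈ X \ L, (Pd G X x).card + ∑ x ∈ L, (Pd G X x).card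
      ≤ ∑ _x ∈ X \ L, R + ∑ _x ∈ L, X.card :=
        Nat.add_le_add (sum_le_sum hPd) (sum_le_sum fun x _ => card_le_card (Pd_subset G X x))
    _ = (X \ L).card * R + L.card * X.card := by
        rw [sum_const, smul_eq_mul, sum_const, smul_eq_mul]
    _ ≤ X.card * R + n * X.card :=
        Nat.add_le_add (Nat.mul_le_mul_right _ (card_le_card sdiff_subset))
          (Nat.mul_le_mul_right _ hLn)
    _ = _ := by ring

/-- Embedding into a large set all of whose degrees are large. -/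
theorem big3 [Nonempty W] {G : SimpleGraph W} (hG : ¬ H5.IsContained G)
    (H : SimpleGraph V) (A B P : Finset V) (σ n Δ M Rb : ℕ) (hσ1 : 1 ≤ σ)
    (hAI : ∀ x ∈ A, ∀ y ∈ A, ¬ H.Adj x y) (hσ : Dg H P σ) (hP : P ⊆ A ∪ B) (hPn : P.card ≤ n)
    (hn1 : 1 ≤ n) (hnΔ : 16384 * n ≤ Δ) (hσΔ : 8 * σ ≤ Δ) (hRb : 32768 * σ ^ 2 * Rb ≤ Δ ^ 3)
    (Q : Finset W) (hM : 1 ≤ M) (hQ : 64 * M ≤ Q.card)
    (hf : (Q.filter (fun x => (nb G Q x).card < Δ)).card < M)
    (hsum : ¬ Emb H G ((P ∩ A) ∪ (P ∩ B)) Q → ∑ x ∈ Q, (Pd G Q x).card ≤ Q.card * Rb) :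
    Emb H G P Q := by
  by_contra hno
  have hPeq : P ⊆ (P ∩ A) ∪ (P ∩ B) := by
    intro x hx
    have := hP hx
    simp only [mem_union, mem_inter] at this ⊢
    tauto
  have hno' : ¬ Emb H G ((P ∩ A) ∪ (P ∩ B)) Q := fun h => hno (h.subset hPeq)
  refine countM hG Q σ n Δ Rb hσ1 hn1 (by omega) (by omega) (by omega) hσΔ hRb (hsum hno') ?_ ?_
  · intro a haQ hda Z hZ hZc hZd
    by_contra hcon
    push Not at hcon
    obtain ⟨X, hXP, hXc⟩ := exists_subset_card_eq hcon.le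
    obtain ⟨Z', hZ', hZ'c, hsep⟩ := pick G Z X 2 (Z.card - 3 * n)
      (fun y hy => nb_PP hG (mem_Pd.1 (hXP hy)).2.1 (mem_Pd.1 (hXP hy)).2.2 _
        (fun z hz => (mem_nb.1 (hZ hz)).2)) (by omega)
    have hdiv : 8 * (σ * ((nb G Q a).card / (8 * σ))) ≤ (nb G Q a).card := by
      calc 8 * (σ * ((nb G Q a).card / (8 * σ))) = 8 * σ * ((nb G Q a).card / (8 * σ)) := by ring
        _ ≤ _ := Nat.mul_div_le _ _
    have hPAc : (P ∩ A).card ≤ n := (card_le_card inter_subset_left).trans hPn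
    have hPBc : (P ∩ B).card ≤ n := (card_le_card inter_subset_left).trans hPn
    have e1 : Emb H G (P ∩ A) X := emb_indep H G _ (fun x hx y hy =>
      hAI x (inter_subset_right hx) y (inter_subset_right hy)) X (by omega)
    have e2 : Emb H G (P ∩ B) Z' := embed_degenerate H G (P ∩ B) σ
      (hσ.mono inter_subset_left le_rfl) Z' ((nb G Q a).card / (8 * σ))
      (fun z hz => (card_le_card (nb_mono G hZ' z)).trans (hZd z (hZ' hz))) (by omega)
    exact hno' ((e1.union e2 hsep).mono (union_subset (hXP.trans (Pd_subset G Q a))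
      (hZ'.trans (hZ.trans (nb_subset G Q a)))))
  · intro Wa hWa hWac Z hZ hZc hZd
    have hdiv : 8 * (n * (Wa.card / (8 * n))) ≤ Wa.card := by
      calc 8 * (n * (Wa.card / (8 * n))) = 8 * n * (Wa.card / (8 * n)) := by ring
        _ ≤ _ := Nat.mul_div_le _ _
    refine hno ((embed_degenerate H G P n ((Dg_card H P).mono subset_rfl hPn) Z
      (Wa.card / (8 * n)) hZd (by omega)).mono (hZ.trans hWa))

/-- The sets `O` and `Y`, general form. -/
theorem hosts_gen {G : SimpleGraph W} (hG : ¬ H5.IsContained G) {M Δ Rb : ℕ} (hM : 1 ≤ M)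
    (hΔ : 1 ≤ Δ) (R U : Finset W) (hR : R.card = M)
    (hU : 256 * M ≤ U.card) (σ₀ : ℕ) (hσ₀ : 8589934592 * σ₀ ^ 2 * Rb ≤ Δ ^ 3)
    (hsum : ∑ x ∈ R, (Pd G R x).card ≤ M * Rb)
    (nohost : ∀ R' ⊆ R, M ≤ 8 * R'.card → ∀ Q : Finset W,
      (∀ x ∈ Q, (nb G R' x).card ≤ Δ) → Q.card < 64 * M) :
    ∃ O Y : Finset W, Y ⊆ R ∧ M ≤ 2 * Y.card ∧ 128 * M ≤ O.card ∧
      (∀ x ∈ Y, Δ * O.card ≤ 2 * M * (nb G O x).card) ∧
      ∀ v ∈ O, 4294967296 * σ₀ ^ 2 * Pv G R v < Δ ^ 3 := by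
  set Hs := U.filter (fun v => (nb G R v).card ≤ Δ) with hHs
  have hHsc : Hs.card < 64 * M :=
    nohost R subset_rfl (by omega) Hs (fun x hx => (mem_filter.1 hx).2)
  set O₀ := U \ Hs with hO₀
  have hO₀c : 192 * M ≤ O₀.card := by
    have h1 : U.card - Hs.card ≤ O₀.card := le_card_sdiff Hs U
    omega
  have hΔ3 : 0 < Δ ^ 3 := Nat.pow_pos hΔ
  have hO₀d : ∀ v ∈ O₀, Δ < (nb G R v).card := by
    intro v hv
    obtain ⟨h1, h2⟩ := mem_sdiff.1 hv
    by_contra h3
    exact h2 (mem_filter.2 ⟨h1, by omega⟩)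
  set Bd := O₀.filter (fun v => Δ ^ 3 ≤ 4294967296 * σ₀ ^ 2 * Pv G R v) with hBd
  have hBdc : Bd.card ≤ M := by
    have h1 := count_le hG Bd R (fun v => nb G R v) (fun v _ u hu => (mem_nb.1 hu).2)
    have h3 : Δ ^ 3 * Bd.card ≤ Δ ^ 3 * M := by
      calc Δ ^ 3 * Bd.card = ∑ _v ∈ Bd, Δ ^ 3 := by rw [sum_const, smul_eq_mul]; ring
        _ ≤ ∑ v ∈ Bd, 4294967296 * σ₀ ^ 2 * Pv G R v :=
            sum_le_sum fun v hv => (mem_filter.1 hv).2
        _ = 4294967296 * σ₀ ^ 2 * ∑ v ∈ Bd, Pv G R v := by rw [← mul_sum]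
        _ ≤ 4294967296 * σ₀ ^ 2 * (2 * (M * Rb)) :=
            Nat.mul_le_mul_left _ (h1.trans (Nat.mul_le_mul_left _ hsum))
        _ = 8589934592 * σ₀ ^ 2 * Rb * M := by ring
        _ ≤ Δ ^ 3 * M := Nat.mul_le_mul_right _ hσ₀
    exact Nat.le_of_mul_le_mul_left h3 hΔ3
  set O := O₀ \ Bd with hO
  have hOc : 191 * M ≤ O.card := by
    have h1 : O₀.card - Bd.card ≤ O.card := le_card_sdiff Bd O₀
    omega
  have hOP : ∀ v ∈ O, 4294967296 * σ₀ ^ 2 * Pv G R v < Δ ^ 3 := by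
    intro v hv
    obtain ⟨h1, h2⟩ := mem_sdiff.1 hv
    by_contra h3
    exact h2 (mem_filter.2 ⟨h1, by omega⟩)
  set Rl := R.filter (fun x => 2 * M * (nb G O x).card < Δ * O.card) with hRl
  have hRlc : 2 * Rl.card < M := by
    by_contra hcon
    push Not at hcon
    have h1 : 2 * ∑ v ∈ O, (nb G Rl v).card ≤ Δ * O.card := by
      rw [← nb_comm]
      have h2 : M * (2 * ∑ x ∈ Rl, (nb G O x).card) ≤ M * (Δ * O.card) := by
        calc M * (2 * ∑ x ∈ Rl, (nb G O x).card) = ∑ x ∈ Rl, 2 * M * (nb G O x).card := by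
              rw [← mul_sum]; ring
          _ ≤ ∑ _x ∈ Rl, Δ * O.card := sum_le_sum fun x hx => (mem_filter.1 hx).2.le
          _ = Rl.card * (Δ * O.card) := by rw [sum_const, smul_eq_mul]
          _ ≤ M * (Δ * O.card) :=
              Nat.mul_le_mul_right _ ((card_le_card (filter_subset _ _)).trans hR.le)
      exact Nat.le_of_mul_le_mul_left h2 (by omega)
    set Of := O.filter (fun v => (nb G Rl v).card ≤ Δ) with hOf
    have h3 : (O \ Of).card * Δ ≤ ∑ v ∈ O, (nb G Rl v).card := by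
      calc (O \ Of).card * Δ = ∑ _v ∈ O \ Of, Δ := by rw [sum_const, smul_eq_mul]
        _ ≤ ∑ v ∈ O \ Of, (nb G Rl v).card := by
            refine sum_le_sum fun v hv => ?_
            obtain ⟨g1, g2⟩ := mem_sdiff.1 hv
            by_contra g3
            exact g2 (mem_filter.2 ⟨g1, by omega⟩)
        _ ≤ _ := sum_le_sum_of_subset sdiff_subset
    have h4 : 2 * (O \ Of).card ≤ O.card := by
      have h5 : Δ * (2 * (O \ Of).card) ≤ Δ * O.card := by
        calc Δ * (2 * (O \ Of).card) = 2 * ((O \ Of).card * Δ) := by ring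
          _ ≤ 2 * ∑ v ∈ O, (nb G Rl v).card := Nat.mul_le_mul_left _ h3
          _ ≤ _ := h1
      exact Nat.le_of_mul_le_mul_left h5 hΔ
    have h6 := le_card_sdiff Of O
    have h7 := nohost Rl (filter_subset _ _) (by omega) Of (fun x hx => (mem_filter.1 hx).2)
    omega
  refine ⟨O, R \ Rl, sdiff_subset, ?_, by omega, ?_, hOP⟩
  · have := le_card_sdiff Rl R
    omega
  · intro x hx
    obtain ⟨h1, h2⟩ := mem_sdiff.1 hx
    by_contra h3
    exact h2 (mem_filter.2 ⟨h1, by omega⟩)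

end

end Pool.Agent.RamseyH5
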