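import Pool.Agent.RamseyH5.Big

set_option autoImplicit false

/-!
# Cores, and the closure lemma
-/

namespace Pool.Agent.RamseyH5

open Finset

section

open scoped Classical

variable {V W : Type}

/-- Greedy extension by vertices of small degree. -/
theorem rest_embed [Fintype V] (H : SimpleGraph V) (G : SimpleGraph W) (P : Finset V)
    (Hst R : Finset W) (Dm k : ℕ) (hP : Emb H G P Hst)
    (h1 : ∀ x ∈ Hst, (nb G R x).card ≤ Dm) (h2 : ∀ x ∈ R, (nb G R x).card ≤ Dm)
    (hk : ∀ v, v ∉ P → (univ.filter (fun u => H.Adj v u)).card ≤ k)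
    (hc : k * Dm + Fintype.card V ≤ R.card) : Emb H G univ (Hst ∪ R) := by
  have key : ∀ T : Finset V, ∃ f : V → W, Good H G (P ∪ T) f ∧ ∀ x ∈ P ∪ T, f x ∈ Hst ∪ R := by
    intro T
    induction T using Finset.induction_on with
    | empty =>
      obtain ⟨f, hf, hfZ⟩ := hP
      rw [union_empty]
      exact ⟨f, hf, fun x hx => mem_union_left _ (hfZ x hx)⟩
    | insert a T haT ih =>
      obtain ⟨f, hf, hfZ⟩ := ih
      by_cases ha : a ∈ P
      · have : P ∪ insert a T = P ∪ T := by
          rw [union_insert, insert_eq_of_mem (mem_union_left _ ha)]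
        rw [this]
        exact ⟨f, hf, hfZ⟩
      · have haX : a ∉ P ∪ T := by
          rw [mem_union, not_or]
          exact ⟨ha, haT⟩
        have hXc : (P ∪ T).card < Fintype.card V := card_lt_univ_of_notMem haX
        obtain ⟨z, hz, hgood⟩ := extend H G hf haX R Dm k
          (fun x hx => by
            rcases mem_union.1 (hfZ x hx) with h | h
            · exact h1 _ h
            · exact h2 _ h)
          ((card_le_card (filter_subset_filter _ (subset_univ _))).trans (hk a ha)) (by omega)
        refine ⟨Function.update f a z, ?_, ?_⟩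
        · rw [union_insert]
          exact hgood
        · rw [union_insert]
          intro x hx
          by_cases hxa : x = a
          · subst hxa
            rw [Function.update_self]
            exact mem_union_right _ hz
          · rw [Function.update_of_ne hxa]
            exact hfZ x (mem_of_mem_insert_of_ne hx hxa)
  obtain ⟨f, hf, hfZ⟩ := key univ
  rw [union_eq_right.2 (subset_univ P)] at hf hfZ
  exact ⟨f, hf, hfZ⟩

/-- The core: the vertices of large degree. -/
theorem core [Fintype V] {H : SimpleGraph V} {G : SimpleGraph W}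
    (hno : ∀ Z : Finset W, ¬ Emb H G univ Z) {M μ : ℕ} (hM : 1 ≤ M)
    (hVμ : Fintype.card V ≤ μ)
    (hμ : ∑ v : V, (univ.filter (fun u => H.Adj v u)).card ≤ μ) (hMμ : 262144 * μ ≤ M)
    (R : Finset W) (Dm : ℕ) (hDm : 1 ≤ Dm) (hR : M ≤ 8 * R.card)
    (hdeg : ∀ x ∈ R, (nb G R x).card ≤ Dm) :
    ∃ P : Finset V, 16384 * P.card ≤ Dm ∧ ∀ P' : Finset V, P ⊆ P' → ∀ Hst : Finset W,
      (∀ x ∈ Hst, (nb G R x).card ≤ Dm) → ¬ Emb H G P' Hst := by
  set k := R.card / (2 * Dm) with hk
  have hk1 : 2 * (k * Dm) ≤ R.card := by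
    calc 2 * (k * Dm) = 2 * Dm * (R.card / (2 * Dm)) := by rw [hk]; ring
      _ ≤ R.card := Nat.mul_div_le _ _
  have hk2 : R.card < 2 * Dm * (k + 1) := Nat.lt_mul_div_succ _ (by omega)
  refine ⟨univ.filter (fun v => k < (univ.filter (fun u => H.Adj v u)).card), ?_, ?_⟩
  · set P := univ.filter (fun v => k < (univ.filter (fun u => H.Adj v u)).card) with hP
    have h1 : P.card * (k + 1) ≤ μ := by
      calc P.card * (k + 1) = ∑ _v ∈ P, (k + 1) := by rw [sum_const, smul_eq_mul]
        _ ≤ ∑ v ∈ P, (univ.filter (fun u => H.Adj v u)).card :=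
            sum_le_sum fun v hv => (mem_filter.1 hv).2
        _ ≤ ∑ v : V, (univ.filter (fun u => H.Adj v u)).card :=
            sum_le_sum_of_subset (subset_univ _)
        _ ≤ μ := hμ
    have h2 : R.card * (16384 * P.card) ≤ R.card * Dm := by
      calc R.card * (16384 * P.card) ≤ 2 * Dm * (k + 1) * (16384 * P.card) :=
            Nat.mul_le_mul_right _ hk2.le
        _ = Dm * (32768 * (P.card * (k + 1))) := by ring
        _ ≤ Dm * (32768 * μ) := Nat.mul_le_mul_left _ (Nat.mul_le_mul_left _ h1)
        _ ≤ Dm * R.card := Nat.mul_le_mul_left _ (by omega)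
        _ = _ := by ring
    exact Nat.le_of_mul_le_mul_left h2 (by omega)
  · intro P' hPP' Hst hHst hemb
    refine hno _ (rest_embed H G P' Hst R Dm k hemb hHst hdeg ?_ (by omega))
    intro v hv
    by_contra hcon
    push Not at hcon
    exact hv (hPP' (mem_filter.2 ⟨mem_univ _, hcon⟩))

/-- The bookkeeping invariant. -/
def Inv (G : SimpleGraph W) (O O' X : Finset W) (Δ M c : ℕ) : Prop :=
  O' ⊆ O ∧ 64 * (Δ * O.card * c + 4 * M * ∑ x ∈ X, (nb G (O \ O') x).card) ≤
    M * Δ * (O \ O').card

theorem Inv.subset {G : SimpleGraph W} {O O' X X' : Finset W} {Δ M c : ℕ}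
    (h : Inv G O O' X Δ M c) (hX : X' ⊆ X) : Inv G O O' X' Δ M c := by
  refine ⟨h.1, le_trans ?_ h.2⟩
  refine Nat.mul_le_mul_left _ (Nat.add_le_add_left (Nat.mul_le_mul_left _ ?_) _)
  exact sum_le_sum_of_subset hX

theorem Inv.start (G : SimpleGraph W) (O X : Finset W) (Δ M : ℕ) : Inv G O O X Δ M 0 := by
  refine ⟨subset_rfl, ?_⟩
  rw [sdiff_self]
  simp [nb]

theorem Inv.bound {G : SimpleGraph W} {O O' X : Finset W} {Δ M c : ℕ}
    (h : Inv G O O' X Δ M c) (hΔ : 1 ≤ Δ) (hO : 1 ≤ O.card) : 64 * c ≤ M := by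
  have h1 : 64 * (Δ * O.card * c) ≤ M * Δ * (O \ O').card :=
    le_trans (Nat.mul_le_mul_left _ (Nat.le_add_right _ _)) h.2
  have h2 : (O \ O').card ≤ O.card := card_le_card sdiff_subset
  have h3 : (Δ * O.card) * (64 * c) ≤ (Δ * O.card) * M := by
    calc (Δ * O.card) * (64 * c) = 64 * (Δ * O.card * c) := by ring
      _ ≤ M * Δ * (O \ O').card := h1
      _ ≤ M * Δ * O.card := Nat.mul_le_mul_left _ h2
      _ = _ := by ring
  exact Nat.le_of_mul_le_mul_left h3 (Nat.mul_pos hΔ hO)

theorem closure (G : SimpleGraph W) (O : Finset W) (Δ M : ℕ) :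
    ∀ (N : ℕ) (O' X : Finset W) (c : ℕ), O'.card + X.card = N →
      (∀ x ∈ X, Δ * O.card ≤ 2 * M * (nb G O x).card) → Inv G O O' X Δ M c →
      ∃ O'' X'' : Finset W, ∃ c'' : ℕ, O'' ⊆ O' ∧ X'' ⊆ X ∧ (X \ X'').card + c ≤ c'' ∧
        Inv G O O'' X'' Δ M c'' ∧ (∀ v ∈ O'', Δ ≤ 256 * (nb G X'' v).card) ∧
        (∀ x ∈ X'', Δ * O.card ≤ 4 * M * (nb G O'' x).card) := by
  intro N
  induction N using Nat.strong_induction_on with
  | _ N ih =>
    intro O' X c hN hX hInv
    by_cases hv : ∃ v ∈ O', 256 * (nb G X v).card < Δ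
    · obtain ⟨v, hvO, hvd⟩ := hv
      have hvn : v ∉ O \ O' := fun h => (mem_sdiff.1 h).2 hvO
      have hvO2 : v ∈ O := hInv.1 hvO
      have hins : O \ O'.erase v = insert v (O \ O') := by
        ext y
        by_cases hy : y = v
        · subst hy; simp [hvO2]
        · simp [hy]
      have hc1 : (O'.erase v).card + X.card < N := by
        have := card_erase_lt_of_mem hvO
        omega
      have hInv' : Inv G O (O'.erase v) X Δ M c := by
        refine ⟨(erase_subset v O').trans hInv.1, ?_⟩
        rw [hins, nb_comm, sum_insert hvn, card_insert_of_notMem hvn, ← nb_comm]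
        have h1 := hInv.2
        have h2 : 64 * (4 * M * (nb G X v).card) ≤ M * Δ := by
          calc 64 * (4 * M * (nb G X v).card) = M * (256 * (nb G X v).card) := by ring
            _ ≤ M * Δ := Nat.mul_le_mul_left _ hvd.le
        calc 64 * (Δ * O.card * c + 4 * M * ((nb G X v).card +
              ∑ x ∈ X, (nb G (O \ O') x).card))
            = 64 * (4 * M * (nb G X v).card) + 64 * (Δ * O.card * c + 4 * M *
              ∑ x ∈ X, (nb G (O \ O') x).card) := by ring
          _ ≤ M * Δ + M * Δ * (O \ O').card := Nat.add_le_add h2 h1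
          _ = _ := by ring
      obtain ⟨O'', X'', c'', h1, h2, h3, h4, h5, h6⟩ := ih _ hc1 (O'.erase v) X c rfl hX hInv'
      exact ⟨O'', X'', c'', h1.trans (erase_subset v O'), h2, h3, h4, h5, h6⟩
    · by_cases hx : ∃ x ∈ X, 4 * M * (nb G O' x).card < Δ * O.card
      · obtain ⟨x, hxX, hxd⟩ := hx
        have hc1 : O'.card + (X.erase x).card < N := by
          have := card_erase_lt_of_mem hxX
          omega
        have hInv' : Inv G O O' (X.erase x) Δ M (c + 1) := by
          refine ⟨hInv.1, le_trans ?_ hInv.2⟩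
          refine Nat.mul_le_mul_left _ ?_
          rw [← add_sum_erase X _ hxX]
          have h1 : (nb G O x).card ≤ (nb G O' x).card + (nb G (O \ O') x).card := by
            refine (card_le_card ?_).trans (card_union_le _ _)
            intro y hy
            obtain ⟨h1, h2⟩ := mem_nb.1 hy
            by_cases h : y ∈ O'
            · exact mem_union_left _ (mem_nb.2 ⟨h, h2⟩)
            · exact mem_union_right _ (mem_nb.2 ⟨mem_sdiff.2 ⟨h1, h⟩, h2⟩)
          have h2 := hX x hxX
          have h3 : Δ * O.card ≤ 4 * M * (nb G (O \ O') x).card := by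
            have h4 := Nat.mul_le_mul_left (4 * M) h1
            have h5 : 4 * M * (nb G O x).card = 2 * (2 * M * (nb G O x).card) := by ring
            rw [Nat.mul_add] at h4
            omega
          calc Δ * O.card * (c + 1) + 4 * M * ∑ x ∈ X.erase x, (nb G (O \ O') x).card
              = Δ * O.card * c + (Δ * O.card + 4 * M * ∑ x ∈ X.erase x,
                (nb G (O \ O') x).card) := by ring
            _ ≤ Δ * O.card * c + (4 * M * (nb G (O \ O') x).card + 4 * M *
                ∑ x ∈ X.erase x, (nb G (O \ O') x).card) :=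
                Nat.add_le_add_left (Nat.add_le_add_right h3 _) _
            _ = _ := by ring
        obtain ⟨O'', X'', c'', h1, h2, h3, h4, h5, h6⟩ := ih _ hc1 O' (X.erase x) (c + 1) rfl
          (fun y hy => hX y (mem_of_mem_erase hy)) hInv'
        refine ⟨O'', X'', c'', h1, h2.trans (erase_subset x X), ?_, h4, h5, h6⟩
        have h7 : (X \ X'').card ≤ ((X.erase x) \ X'').card + 1 := by
          refine (card_le_card (t := insert x ((X.erase x) \ X'')) ?_).trans (card_insert_le _ _)
          intro y hy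
          obtain ⟨g1, g2⟩ := mem_sdiff.1 hy
          by_cases h : y = x
          · exact mem_insert.2 (Or.inl h)
          · exact mem_insert_of_mem (mem_sdiff.2 ⟨mem_erase.2 ⟨h, g1⟩, g2⟩)
        omega
      · push Not at hv hx
        refine ⟨O', X, c, subset_rfl, subset_rfl, ?_, hInv, hv, hx⟩
        rw [sdiff_self]
        simp

end

end Pool.Agent.RamseyH5
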