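import Pool.Agent.RamseyH5.Process

set_option autoImplicit false

/-!
# The sparse theorem
-/

namespace Pool.Agent.RamseyH5

open Finset

section

open scoped Classical

variable {V W : Type}

/-- The number of triples. -/
noncomputable def Pv (G : SimpleGraph W) (R : Finset W) (v : W) : ℕ :=
  ∑ u ∈ nb G R v, ((R.filter (fun x => G.Adj x v ∧ G.Adj x u)).offDiag).card

theorem low_half {G : SimpleGraph W} (R X : Finset W) (v : W) (σ σ₀ Δ : ℕ) (hσ : σ ≤ σ₀)
    (hX : X ⊆ R) (hΔ : 2048 * σ₀ ≤ Δ) (hP : 4294967296 * σ₀ ^ 2 * Pv G R v < Δ ^ 3)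
    (h : Δ ≤ 256 * (nb G X v).card) : (nb G X v).card < 2 * (Lo G σ (nb G X v)).card := by
  by_contra hcon
  push Not at hcon
  have h1 := lower G R (nb G X v) v (8 * σ₀) ((nb_subset G X v).trans hX)
    (fun u hu => (mem_nb.1 hu).2)
    (le_trans (Nat.mul_le_mul_left _ (card_le_card (Lo_anti G hσ _))) hcon) (by omega)
  have h2 : ∑ u ∈ nb G X v, ((R.filter (fun x => G.Adj x v ∧ G.Adj x u)).offDiag).card ≤
      Pv G R v := sum_le_sum_of_subset (nb_mono G hX v)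
  have h3 : Δ ^ 3 ≤ 4294967296 * σ₀ ^ 2 * Pv G R v := by
    calc Δ ^ 3 ≤ (256 * (nb G X v).card) ^ 3 := Nat.pow_le_pow_left h 3
      _ = 16777216 * (nb G X v).card ^ 3 := by ring
      _ ≤ 16777216 * (4 * (8 * σ₀) ^ 2 * Pv G R v) :=
          Nat.mul_le_mul_left _ (h1.trans (Nat.mul_le_mul_left _ h2))
      _ = _ := by ring
  omega

/-- Data of the graph to be embedded. -/
structure Dat (H : SimpleGraph V) (S A B : Finset V) (s D M μ : ℕ) [Fintype V] : Prop where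
  hs1 : 1 ≤ s
  hD1 : 1 ≤ D
  hS : S.card ≤ s
  hAI : ∀ x ∈ A, ∀ y ∈ A, ¬ H.Adj x y
  hBD : Dg H B D
  hcov : ∀ v, v ∈ S ∪ (A ∪ B)
  hVμ : Fintype.card V ≤ μ
  hμ : ∑ v : V, (univ.filter (fun u => H.Adj v u)).card ≤ μ
  hMμ : 262144 * μ ≤ M
  hMD : 4398046511104 * D ^ 4 ≤ M
  hMs : 144115188075855872 * s ^ 5 ≤ M ^ 2

theorem Dat.M_pos [Fintype V] {H : SimpleGraph V} {S A B : Finset V} {s D M μ : ℕ}
    (h : Dat H S A B s D M μ) : 4398046511104 ≤ M := by
  have h1 := h.hMD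
  have h2 : 0 < D ^ 4 := Nat.pow_pos h.hD1
  omega

theorem hosts [Nonempty W] [Fintype V] {G : SimpleGraph W} (hG : ¬ H5.IsContained G)
    {H : SimpleGraph V} {S A B : Finset V} {s D M μ Δ : ℕ} (h : Dat H S A B s D M μ)
    (hno : ∀ Z : Finset W, ¬ Emb H G univ Z)
    (hf : ∀ Q : Finset W, (Q.filter (fun x => (nb G Q x).card < Δ)).card < M) (hΔ : 1 ≤ Δ)
    (R U : Finset W) (hR : R.card = M) (hRd : ∀ x ∈ R, (nb G R x).card ≤ Δ)
    (hU : 256 * M ≤ U.card) (σ₀ : ℕ) (hσ₀ : 8589934592 * σ₀ ^ 2 * M ≤ Δ ^ 3) :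
    ∃ O Y : Finset W, Y ⊆ R ∧ M ≤ 2 * Y.card ∧ 128 * M ≤ O.card ∧
      (∀ x ∈ Y, Δ * O.card ≤ 2 * M * (nb G O x).card) ∧
      ∀ v ∈ O, 4294967296 * σ₀ ^ 2 * Pv G R v < Δ ^ 3 := by
  have hMpos := h.M_pos
  have hMD : 1024 * D ^ 4 ≤ M := by
    have := h.hMD
    omega
  have hMs : 67108864 * s ^ 5 ≤ M ^ 2 := by
    have := h.hMs
    omega
  have nohost : ∀ R' ⊆ R, M ≤ 8 * R'.card → ∀ Q : Finset W,
      (∀ x ∈ Q, (nb G R' x).card ≤ Δ) → Q.card < 64 * M := by
    intro R' hR' hR'c Q hQ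
    by_contra hcon
    push Not at hcon
    obtain ⟨P, hPc, hP⟩ := core hno (by omega) h.hVμ h.hμ h.hMμ R' Δ hΔ hR'c
      (fun x hx => (card_le_card (nb_mono G hR' x)).trans (hRd x (hR' hx)))
    exact hP P subset_rfl Q hQ (big hG H S A B s D Δ M h.hs1 h.hD1 h.hS h.hAI h.hBD P
      (fun x _ => h.hcov x) hPc hMD hMs hf Q hcon)
  set Hs := U.filter (fun v => (nb G R v).card ≤ Δ) with hHs
  have hHsc : Hs.card < 64 * M :=
    nohost R subset_rfl (by omega) Hs (fun x hx => (mem_filter.1 hx).2)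
  set O₀ := U \ Hs with hO₀
  have hO₀c : 192 * M ≤ O₀.card := by
    have h1 : U.card - Hs.card ≤ O₀.card := le_card_sdiff Hs U
    omega
  have hO₀d : ∀ v ∈ O₀, Δ < (nb G R v).card := by
    intro v hv
    obtain ⟨h1, h2⟩ := mem_sdiff.1 hv
    by_contra h3
    exact h2 (mem_filter.2 ⟨h1, by omega⟩)
  have hΔ3 : 0 < Δ ^ 3 := Nat.pow_pos hΔ
  set Bd := O₀.filter (fun v => Δ ^ 3 ≤ 4294967296 * σ₀ ^ 2 * Pv G R v) with hBd
  have hBdc : Bd.card ≤ M := by
    have h1 := count_le hG Bd R (fun v => nb G R v) (fun v _ u hu => (mem_nb.1 hu).2)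
    have h2 : ∑ x ∈ R, (Pd G R x).card ≤ M * M := by
      calc ∑ x ∈ R, (Pd G R x).card ≤ ∑ _x ∈ R, M :=
            sum_le_sum fun x _ => (card_le_card (Pd_subset G R x)).trans hR.le
        _ = M * M := by rw [sum_const, smul_eq_mul, hR]
    have h3 : Δ ^ 3 * Bd.card ≤ Δ ^ 3 * M := by
      calc Δ ^ 3 * Bd.card = ∑ _v ∈ Bd, Δ ^ 3 := by rw [sum_const, smul_eq_mul]; ring
        _ ≤ ∑ v ∈ Bd, 4294967296 * σ₀ ^ 2 * Pv G R v :=
            sum_le_sum fun v hv => (mem_filter.1 hv).2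
        _ = 4294967296 * σ₀ ^ 2 * ∑ v ∈ Bd, Pv G R v := by rw [← mul_sum]
        _ ≤ 4294967296 * σ₀ ^ 2 * (2 * (M * M)) :=
            Nat.mul_le_mul_left _ (h1.trans (Nat.mul_le_mul_left _ h2))
        _ = 8589934592 * σ₀ ^ 2 * M * M := by ring
        _ ≤ Δ ^ 3 * M := Nat.mul_le_mul_right _ hσ₀
    exact Nat.le_of_mul_le_mul_left h3 hΔ3
  set O := O₀ \ Bd with hO
  have hOc : 191 * M ≤ O.card := by
    have h1 : O₀.card - Bd.card ≤ O.card := le_card_sdiff Bd O₀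
    omega
  have hOP : ∀ v ∈ O, 4294967296 * σ₀ ^ 2 * Pv G R v < Δ ^ 3 := by
    intro v hv
    obtain ⟨h1, h2⟩ := mem_sdiff.1 hv
    by_contra h3
    exact h2 (mem_filter.2 ⟨h1, by omega⟩)
  set Rl := R.filter (fun x => 2 * M * (nb G O x).card < Δ * O.card) with hRl
  have hRlc : 2 * Rl.card < M := by
    by_contra hcon
    push Not at hcon
    have h1 : 2 * ∑ v ∈ O, (nb G Rl v).card ≤ Δ * O.card := by
      rw [← nb_comm]
      have h2 : M * (2 * ∑ x ∈ Rl, (nb G O x).card) ≤ M * (Δ * O.card) := by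
        calc M * (2 * ∑ x ∈ Rl, (nb G O x).card) = ∑ x ∈ Rl, 2 * M * (nb G O x).card := by
              rw [← mul_sum]; ring
          _ ≤ ∑ _x ∈ Rl, Δ * O.card := sum_le_sum fun x hx => (mem_filter.1 hx).2.le
          _ = Rl.card * (Δ * O.card) := by rw [sum_const, smul_eq_mul]
          _ ≤ M * (Δ * O.card) :=
              Nat.mul_le_mul_right _ ((card_le_card (filter_subset _ _)).trans hR.le)
      exact Nat.le_of_mul_le_mul_left h2 (by omega)
    set Of := O.filter (fun v => (nb G Rl v).card ≤ Δ) with hOf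
    have h3 : (O \ Of).card * Δ ≤ ∑ v ∈ O, (nb G Rl v).card := by
      calc (O \ Of).card * Δ = ∑ _v ∈ O \ Of, Δ := by rw [sum_const, smul_eq_mul]
        _ ≤ ∑ v ∈ O \ Of, (nb G Rl v).card := by
            refine sum_le_sum fun v hv => ?_
            obtain ⟨g1, g2⟩ := mem_sdiff.1 hv
            by_contra g3
            exact g2 (mem_filter.2 ⟨g1, by omega⟩)
        _ ≤ _ := sum_le_sum_of_subset sdiff_subset
    have h4 : 2 * (O \ Of).card ≤ O.card := by
      have h5 : Δ * (2 * (O \ Of).card) ≤ Δ * O.card := by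
        calc Δ * (2 * (O \ Of).card) = 2 * ((O \ Of).card * Δ) := by ring
          _ ≤ 2 * ∑ v ∈ O, (nb G Rl v).card := Nat.mul_le_mul_left _ h3
          _ ≤ _ := h1
      exact Nat.le_of_mul_le_mul_left h5 hΔ
    have h6 := le_card_sdiff Of O
    have h7 := nohost Rl (filter_subset _ _) (by omega) Of (fun x hx => (mem_filter.1 hx).2)
    omega
  refine ⟨O, R \ Rl, sdiff_subset, ?_, by omega, ?_, hOP⟩
  · have := le_card_sdiff Rl R
    omega
  · intro x hx
    obtain ⟨h1, h2⟩ := mem_sdiff.1 hx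
    by_contra h3
    exact h2 (mem_filter.2 ⟨h1, by omega⟩)

/-- The final greedy step. -/
theorem finish [Nonempty W] [Fintype V] {G : SimpleGraph W}
    {H : SimpleGraph V} {S A B : Finset V} {s D M μ : ℕ} (h : Dat H S A B s D M μ)
    (hno : ∀ Z : Finset W, ¬ Emb H G univ Z) (E2 : ℕ) (hE1 : 1 ≤ E2) (hE2 : E2 ^ 2 ≤ 1024 * M)
    (X XS : Finset W) (hX : M ≤ 8 * X.card) (hXd : ∀ x ∈ X, (nb G X x).card ≤ E2)
    (hsep : Sep G XS X) (hXS : Emb H G S XS) : False := by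
  have hMpos := h.M_pos
  obtain ⟨P, hPc, hP⟩ := core hno (by omega) h.hVμ h.hμ h.hMμ X E2 hE1 hX hXd
  set PA := P ∩ A with hPA
  set PB := P ∩ B with hPB
  have hPAc : PA.card ≤ P.card := card_le_card inter_subset_left
  have hPBc : PB.card ≤ P.card := card_le_card inter_subset_left
  have hPE : 16 * (P.card * E2) ≤ M := by
    have h1 : 1024 * (16 * (P.card * E2)) ≤ 1024 * M := by
      calc 1024 * (16 * (P.card * E2)) = 16384 * P.card * E2 := by ring
        _ ≤ E2 * E2 := Nat.mul_le_mul_right _ hPc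
        _ = E2 ^ 2 := by ring
        _ ≤ _ := hE2
    exact Nat.le_of_mul_le_mul_left h1 (by norm_num)
  have hEM : E2 ≤ M := by
    by_contra hcon
    push Not at hcon
    have h1 := Nat.pow_lt_pow_left hcon (n := 2) (by norm_num)
    have h2 : 1024 * M ≤ M * M := Nat.mul_le_mul_right _ (by omega)
    have h3 : M ^ 2 = M * M := by ring
    omega
  have hDE : 64 * (D * E2) ≤ M := by
    by_contra hcon
    push Not at hcon
    have h1 := Nat.pow_lt_pow_left hcon (n := 2) (by norm_num)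
    have h2 : D ^ 2 ≤ D ^ 4 := Nat.pow_le_pow_right h.hD1 (by norm_num)
    have h3 := h.hMD
    have h4 : (64 * (D * E2)) ^ 2 ≤ M ^ 2 := by
      calc (64 * (D * E2)) ^ 2 = 4096 * D ^ 2 * E2 ^ 2 := by ring
        _ ≤ 4096 * D ^ 2 * (1024 * M) := Nat.mul_le_mul_left _ hE2
        _ = 4194304 * D ^ 2 * M := by ring
        _ ≤ M * M := Nat.mul_le_mul_right _ (by omega)
        _ = M ^ 2 := by ring
    omega
  obtain ⟨X₁, hX₁, hX₁c⟩ := exists_subset_card_eq (s := X) (n := PA.card) (by omega)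
  obtain ⟨Y, hY, hYc, hsep'⟩ := pick G X X₁ E2 (M / 32) (fun x hx => hXd x (hX₁ hx)) (by
    have h1 : X₁.card * (E2 + 1) ≤ P.card * E2 + P.card := by
      calc X₁.card * (E2 + 1) ≤ P.card * (E2 + 1) := Nat.mul_le_mul_right _ (by omega)
        _ = _ := by ring
    omega)
  have e1 : Emb H G PA X₁ := emb_indep H G PA (fun x hx y hy =>
    h.hAI x (inter_subset_right hx) y (inter_subset_right hy)) X₁ (by omega)
  have e2 : Emb H G PB Y := embed_degenerate H G PB D (h.hBD.mono inter_subset_right le_rfl) Y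
    E2 (fun z hz => (card_le_card (nb_mono G hY z)).trans (hXd z (hY hz))) (by omega)
  have e3 : Emb H G (PA ∪ PB) X := (e1.union e2 hsep').mono (union_subset hX₁ hY)
  have e4 : Emb H G (S ∪ (PA ∪ PB)) (XS ∪ X) := hXS.union e3 hsep
  refine hP (S ∪ (PA ∪ PB)) ?_ (XS ∪ X) ?_ e4
  · intro x hx
    have := h.hcov x
    simp only [hPA, hPB, mem_union, mem_inter] at this ⊢
    tauto
  · intro x hx
    rcases mem_union.1 hx with h1 | h1
    · have : nb G X x = ∅ := by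
        rw [nb, filter_eq_empty_iff]
        exact fun z hz => (hsep x h1 z hz).2
      rw [this, card_empty]
      omega
    · exact hXd x h1

/-- Embedding `S` greedily. -/
theorem embedS [Nonempty W] {G : SimpleGraph W} {H : SimpleGraph V} {S : Finset V} {s M E1 : ℕ}
    (hS : S.card ≤ s) (hs : s ≤ M / 64) (hE1 : s * E1 ≤ M / 64) (X : Finset W)
    (hX : M ≤ 4 * X.card) (hXd : ∀ x ∈ X, (nb G X x).card ≤ E1) :
    ∃ XS Y : Finset W, Y ⊆ X ∧ X.card ≤ Y.card + M / 32 ∧ Sep G XS Y ∧ Emb H G S XS := by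
  have e1 := embed_degenerate H G S s ((Dg_card H S).mono subset_rfl hS) X E1 hXd (by omega)
  obtain ⟨XS, hXS, hXSc, e2⟩ := e1.image
  have h1 : XS.card * (E1 + 1) ≤ s * E1 + s := by
    calc XS.card * (E1 + 1) ≤ s * (E1 + 1) := Nat.mul_le_mul_right _ (hXSc.trans hS)
      _ = _ := by ring
  obtain ⟨Y, hY, hYc, hsep⟩ := pick G X XS E1 (X.card - M / 32) (fun x hx => hXd x (hXS hx))
    (by omega)
  exact ⟨XS, Y, hY, by omega, hsep, e2⟩

end

end Pool.Agent.RamseyH5
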