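import Pool.Agent.RamseyH5.Rest

set_option autoImplicit false

/-!
# One halving of the maximum degree
-/

namespace Pool.Agent.RamseyH5

open Finset

section

open scoped Classical

variable {V W : Type}

/-- The vertices of `T` of small degree inside `T`. -/
noncomputable def Lo (G : SimpleGraph W) (σ : ℕ) (T : Finset W) : Finset W :=
  T.filter (fun u => 8 * σ * (nb G T u).card ≤ T.card)

theorem Lo_subset (G : SimpleGraph W) (σ : ℕ) (T : Finset W) : Lo G σ T ⊆ T :=
  filter_subset _ _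

theorem Lo_anti (G : SimpleGraph W) {σ σ' : ℕ} (h : σ ≤ σ') (T : Finset W) :
    Lo G σ' T ⊆ Lo G σ T := by
  intro u hu
  obtain ⟨h1, h2⟩ := mem_filter.1 hu
  refine mem_filter.2 ⟨h1, le_trans ?_ h2⟩
  exact Nat.mul_le_mul_right _ (Nat.mul_le_mul_left _ h)

/-- Embedding into `Lo` minus few vertices, after an independent part. -/
theorem lo_embed [Nonempty W] {G : SimpleGraph W} {H : SimpleGraph V} {PA PR : Finset V}
    {σ n : ℕ} {X : Finset W} (hσ : 1 ≤ σ) (hPA : PA.card ≤ n) (hPR : PR.card ≤ n)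
    (hPAI : ∀ x ∈ PA, ∀ y ∈ PA, ¬ H.Adj x y) (hPRD : Dg H PR σ)
    (hno : ¬ Emb H G (PA ∪ PR) X) (T T' Z : Finset W) (τ : ℕ) (hT : T ⊆ X) (hZ : Z ⊆ X)
    (hT' : T' ⊆ Lo G σ T) (hZτ : ∀ y ∈ Z, (nb G T' y).card ≤ τ)
    (hc : 8 * (n * (τ + 1) + n) + T.card ≤ 8 * T'.card) : Z.card < n := by
  by_contra hcon
  push Not at hcon
  obtain ⟨X₁, hX₁, hX₁c⟩ := exists_subset_card_eq hcon
  obtain ⟨Y, hY, hYc, hsep⟩ := pick G T' X₁ τ (T'.card - n * (τ + 1))
    (fun x hx => hZτ x (hX₁ hx)) (by rw [hX₁c]; omega)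
  have hdiv : 8 * (σ * (T.card / (8 * σ))) ≤ T.card := by
    calc 8 * (σ * (T.card / (8 * σ))) = 8 * σ * (T.card / (8 * σ)) := by ring
      _ ≤ _ := Nat.mul_div_le _ _
  have e1 : Emb H G PA X₁ := emb_indep H G PA hPAI X₁ (by omega)
  have e2 : Emb H G PR Y := embed_degenerate H G PR σ hPRD Y (T.card / (8 * σ))
    (fun z hz => by
      rw [Nat.le_div_iff_mul_le (by omega), Nat.mul_comm]
      refine le_trans (Nat.mul_le_mul_left _ (card_le_card (nb_mono G ?_ z)))
        (mem_filter.1 (hT' (hY hz))).2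
      exact hY.trans (hT'.trans (Lo_subset G σ T))) (by omega)
  exact hno ((e1.union e2 hsep).mono (union_subset (hX₁.trans hZ)
    (hY.trans (hT'.trans ((Lo_subset G σ T).trans hT)))))

/-- Vertices of `X` with few neighbours in `T`. -/
noncomputable def Fw (G : SimpleGraph W) (X : Finset W) (n t : ℕ) (T : Finset W) : Finset W :=
  X.filter (fun y => 8 * n * (nb G T y).card ≤ t)

theorem fw_lt [Nonempty W] {G : SimpleGraph W} {H : SimpleGraph V} {PA PR : Finset V}
    {σ n : ℕ} {X : Finset W} (hσ : 1 ≤ σ) (hPA : PA.card ≤ n) (hPR : PR.card ≤ n)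
    (hPAI : ∀ x ∈ PA, ∀ y ∈ PA, ¬ H.Adj x y) (hPRD : Dg H PR σ)
    (hno : ¬ Emb H G (PA ∪ PR) X) (hn : 1 ≤ n) (T T₀ : Finset W) (hT : T ⊆ X) (hT₀ : T₀ ⊆ T)
    (htc : T.card ≤ T₀.card + n) (hTn : 64 * n ≤ T.card)
    (hlow : T.card < 2 * (Lo G σ T).card) : (Fw G X n T.card T₀).card < n := by
  have h1 : (Lo G σ T).card ≤ (Lo G σ T ∩ T₀).card + n := by
    have h2 : (Lo G σ T).card ≤ (Lo G σ T ∩ T₀).card + (T \ T₀).card := by
      refine (card_le_card ?_).trans (card_union_le _ _)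
      intro y hy
      by_cases h : y ∈ T₀
      · exact mem_union_left _ (mem_inter.2 ⟨hy, h⟩)
      · exact mem_union_right _ (mem_sdiff.2 ⟨Lo_subset G σ T hy, h⟩)
    have h3 := card_sdiff_add_card_eq_card hT₀
    omega
  have hdiv : 8 * (n * (T.card / (8 * n))) ≤ T.card := by
    calc 8 * (n * (T.card / (8 * n))) = 8 * n * (T.card / (8 * n)) := by ring
      _ ≤ _ := Nat.mul_div_le _ _
  refine lo_embed hσ hPA hPR hPAI hPRD hno T (Lo G σ T ∩ T₀) (Fw G X n T.card T₀)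
    (T.card / (8 * n)) hT (filter_subset _ _) inter_subset_left ?_ ?_
  · intro y hy
    rw [Nat.le_div_iff_mul_le (by omega), Nat.mul_comm]
    exact le_trans (Nat.mul_le_mul_left _ (card_le_card (nb_mono G inter_subset_right y)))
      (mem_filter.1 hy).2
  · have : n * (T.card / (8 * n) + 1) = n * (T.card / (8 * n)) + n := by ring
    omega

theorem count_one {G : SimpleGraph W} (hG : ¬ H5.IsContained G) (X K : Finset W) (u : W)
    (hK : ∀ v ∈ K, ∃ a y, y ∈ X ∧ y ≠ u ∧ G.Adj v a ∧ G.Adj u v ∧ G.Adj u a ∧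
      G.Adj y v ∧ G.Adj y a) : K.card ≤ 2 * (Pd G X u).card := by
  have hch : ∀ v, ∃ y : W, v ∈ K → ∃ a, y ∈ X ∧ y ≠ u ∧ G.Adj v a ∧ G.Adj u v ∧ G.Adj u a ∧
      G.Adj y v ∧ G.Adj y a := by
    intro v
    by_cases hv : v ∈ K
    · obtain ⟨a, y, h⟩ := hK v hv
      exact ⟨y, fun _ => ⟨a, h⟩⟩
    · exact ⟨v, fun h => absurd h hv⟩
  choose φ hφ using hch
  refine card_le_mul_card_image_of_maps_to (f := φ) ?_ 2 ?_
  · intro v hv
    obtain ⟨a, h1, h2, h3, h4, h5, h6, h7⟩ := hφ v hv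
    exact mem_Pd.2 ⟨h1, h2, v, a, h3, h4, h5, h6, h7⟩
  · intro y _
    rcases (K.filter (fun v => φ v = y)).eq_empty_or_nonempty with h | ⟨v₀, hv₀⟩
    · rw [h]; simp
    · obtain ⟨hv₀K, hv₀e⟩ := mem_filter.1 hv₀
      obtain ⟨a, h1, h2, h3, h4, h5, h6, h7⟩ := hφ v₀ hv₀K
      rw [hv₀e] at h2 h6 h7
      refine (card_le_card (t := {v₀, a}) ?_).trans card_le_two
      intro v hv
      obtain ⟨hvK, hve⟩ := mem_filter.1 hv
      obtain ⟨a', g1, g2, g3, g4, g5, g6, g7⟩ := hφ v hvK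
      rw [hve] at g6
      have := uniq hG h2.symm h3 h4 h5 h6 h7 g4 g6
      simp only [mem_insert, mem_singleton]
      exact this

theorem stage [Nonempty W] {G : SimpleGraph W} (hG : ¬ H5.IsContained G) {H : SimpleGraph V}
    {PA PR : Finset V} {σ n : ℕ} {X : Finset W} (hσ : 1 ≤ σ) (hPA : PA.card ≤ n)
    (hPR : PR.card ≤ n) (hPAI : ∀ x ∈ PA, ∀ y ∈ PA, ¬ H.Adj x y) (hPRD : Dg H PR σ)
    (hno : ¬ Emb H G (PA ∪ PR) X) (Dc Δ M Os : ℕ) (O' : Finset W) (hσD : 16 * σ ≤ Dc)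
    (hnD : 16384 * n ≤ Dc) (hDΔ : Dc ≤ Δ) (hXM : X.card ≤ M) (hM : 1 ≤ M)
    (hOs : 128 * M ≤ Os) (hO' : O'.card ≤ Os)
    (hcl1 : ∀ v ∈ O', Δ ≤ 256 * (nb G X v).card)
    (hcl2 : ∀ x ∈ X, Δ * Os ≤ 4 * M * (nb G O' x).card)
    (hlow : ∀ v ∈ O', (nb G X v).card < 2 * (Lo G σ (nb G X v)).card) :
    ∃ B1 B2 : Finset W, B1.card * Δ ≤ 8 * n * M ∧
      B2.card * Dc ^ 3 ≤ 4096 * σ ^ 2 * M ^ 2 ∧
      ∀ u ∈ X, u ∉ B1 → u ∉ B2 → 2 * (nb G X u).card < Dc := by
  have hn : 1 ≤ n := by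
    by_contra hcon
    have h1 : PA = ∅ := card_eq_zero.1 (by omega)
    have h2 : PR = ∅ := card_eq_zero.1 (by omega)
    rw [h1, h2, union_empty] at hno
    exact hno (Emb_empty H G X)
  let Z : W → Finset W := fun v => Fw G X n (nb G X v).card (nb G X v)
  let T' : W → Finset W := fun v => nb G X v \ Z v
  let E : W → Finset W := fun v => Fw G X n (nb G X v).card (T' v)
  have htn : ∀ v ∈ O', 64 * n ≤ (nb G X v).card := by
    intro v hv
    have := hcl1 v hv
    omega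
  have hZ : ∀ v ∈ O', (Z v).card < n := fun v hv =>
    fw_lt hσ hPA hPR hPAI hPRD hno hn _ _ (nb_subset G X v) subset_rfl (by omega) (htn v hv)
      (hlow v hv)
  have hE : ∀ v ∈ O', (E v).card < n := fun v hv =>
    fw_lt hσ hPA hPR hPAI hPRD hno hn _ _ (nb_subset G X v) sdiff_subset (by
      have h1 : (nb G X v).card - (Z v).card ≤ (T' v).card := le_card_sdiff (Z v) (nb G X v)
      have h2 := hZ v hv
      omega) (htn v hv) (hlow v hv)
  let ex : W → Finset W := fun u => O'.filter (fun v => u ∈ E v)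
  let B1 := X.filter (fun u => (nb G O' u).card ≤ 2 * (ex u).card)
  let B2 := X.filter (fun u => Dc ≤ 2 * (nb G X u).card ∧
    2 * (Lo G σ (nb G X u)).card ≤ (nb G X u).card)
  have hOpos : 0 < Os := by omega
  refine ⟨B1, B2, ?_, ?_, ?_⟩
  · have h1 : Os * (B1.card * Δ) ≤ Os * (8 * n * M) := by
      calc Os * (B1.card * Δ) = B1.card * (Δ * Os) := by ring
        _ = ∑ _u ∈ B1, Δ * Os := by rw [sum_const, smul_eq_mul]
        _ ≤ ∑ u ∈ B1, 4 * M * (2 * (ex u).card) :=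
            sum_le_sum fun u hu => (hcl2 u (mem_filter.1 hu).1).trans
              (Nat.mul_le_mul_left _ (mem_filter.1 hu).2)
        _ = 8 * M * ∑ u ∈ B1, (ex u).card := by
            rw [mul_sum]
            exact sum_congr rfl fun u _ => by ring
        _ ≤ 8 * M * ∑ u ∈ X, (ex u).card :=
            Nat.mul_le_mul_left _ (sum_le_sum_of_subset (filter_subset _ _))
        _ = 8 * M * ∑ v ∈ O', (E v).card := by
            congr 1
            simp only [ex, card_filter]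
            rw [sum_comm]
            refine sum_congr rfl fun v _ => ?_
            rw [← card_filter]
            congr 1
            ext u
            simp only [mem_filter]
            exact ⟨fun h => h.2, fun h => ⟨filter_subset _ _ h, h⟩⟩
        _ ≤ 8 * M * ∑ _v ∈ O', n :=
            Nat.mul_le_mul_left _ (sum_le_sum fun v hv => (hE v hv).le)
        _ = 8 * M * (O'.card * n) := by rw [sum_const, smul_eq_mul]
        _ ≤ 8 * M * (Os * n) := Nat.mul_le_mul_left _ (Nat.mul_le_mul_right _ hO')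
        _ = _ := by ring
    exact Nat.le_of_mul_le_mul_left h1 hOpos
  · have h1 : ∀ u ∈ B2, Dc ^ 3 ≤ 2048 * σ ^ 2 * ∑ w ∈ nb G X u,
        ((X.filter (fun x => G.Adj x u ∧ G.Adj x w)).offDiag).card := by
      intro u hu
      obtain ⟨huX, hu1, hu2⟩ := mem_filter.1 hu
      have h2 := lower G X (nb G X u) u (8 * σ) (nb_subset G X u)
        (fun w hw => (mem_nb.1 hw).2) hu2 (by omega)
      calc Dc ^ 3 ≤ (2 * (nb G X u).card) ^ 3 := Nat.pow_le_pow_left hu1 3
        _ = 8 * (nb G X u).card ^ 3 := by ring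
        _ ≤ 8 * (4 * (8 * σ) ^ 2 * ∑ w ∈ nb G X u,
            ((X.filter (fun x => G.Adj x u ∧ G.Adj x w)).offDiag).card) :=
            Nat.mul_le_mul_left _ h2
        _ = _ := by ring
    have h3 := count_le hG B2 X (fun u => nb G X u) (fun u _ w hw => (mem_nb.1 hw).2)
    have h4 : ∑ x ∈ X, (Pd G X x).card ≤ M * M := by
      calc ∑ x ∈ X, (Pd G X x).card ≤ ∑ _x ∈ X, M :=
            sum_le_sum fun x _ => (card_le_card (Pd_subset G X x)).trans hXM
        _ = X.card * M := by rw [sum_const, smul_eq_mul]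
        _ ≤ M * M := Nat.mul_le_mul_right _ hXM
    calc B2.card * Dc ^ 3 = ∑ _u ∈ B2, Dc ^ 3 := by rw [sum_const, smul_eq_mul]
      _ ≤ ∑ u ∈ B2, 2048 * σ ^ 2 * ∑ w ∈ nb G X u,
          ((X.filter (fun x => G.Adj x u ∧ G.Adj x w)).offDiag).card := sum_le_sum h1
      _ = 2048 * σ ^ 2 * ∑ u ∈ B2, ∑ w ∈ nb G X u,
          ((X.filter (fun x => G.Adj x u ∧ G.Adj x w)).offDiag).card := by rw [← mul_sum]
      _ ≤ 2048 * σ ^ 2 * (2 * (M * M)) :=
          Nat.mul_le_mul_left _ (h3.trans (Nat.mul_le_mul_left _ h4))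
      _ = _ := by ring
  · intro u huX hu1 hu2
    by_contra hcon
    push Not at hcon
    have hd : (nb G X u).card < 2 * (Lo G σ (nb G X u)).card := by
      by_contra h
      exact hu2 (mem_filter.2 ⟨huX, hcon, by omega⟩)
    have hex : 2 * (ex u).card < (nb G O' u).card := by
      by_contra h
      exact hu1 (mem_filter.2 ⟨huX, by omega⟩)
    have hbig : 32 * Δ ≤ (nb G O' u).card := by
      have h1 := hcl2 u huX
      have h2 : 4 * M * (32 * Δ) ≤ 4 * M * (nb G O' u).card := by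
        calc 4 * M * (32 * Δ) = Δ * (128 * M) := by ring
          _ ≤ Δ * Os := Nat.mul_le_mul_left _ hOs
          _ ≤ _ := h1
      exact Nat.le_of_mul_le_mul_left h2 (by omega)
    have hKc : (nb G O' u).card ≤ (nb G O' u \ ex u).card + (ex u).card := by
      have := le_card_sdiff (ex u) (nb G O' u)
      omega
    have hK := count_one hG X (nb G O' u \ ex u) u (by
      intro v hv
      obtain ⟨hv1, hv2⟩ := mem_sdiff.1 hv
      obtain ⟨hvO, huv⟩ := mem_nb.1 hv1
      have huE : u ∉ E v := fun h => hv2 (mem_filter.2 ⟨hvO, h⟩)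
      have h1 : (nb G X v).card < 8 * n * (nb G (T' v) u).card := by
        by_contra h
        exact huE (mem_filter.2 ⟨huX, by omega⟩)
      have h2 : 0 < (nb G (T' v) u).card := by
        by_contra h
        have h0 : (nb G (T' v) u).card = 0 := by omega
        rw [h0] at h1
        omega
      obtain ⟨a, ha⟩ := card_pos.1 h2
      obtain ⟨ha1, hua⟩ := mem_nb.1 ha
      obtain ⟨ha2, ha3⟩ := mem_sdiff.1 ha1
      obtain ⟨haX, hva⟩ := mem_nb.1 ha2
      have h3 : (nb G X v).card < 8 * n * (nb G (nb G X v) a).card := by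
        by_contra h
        exact ha3 (mem_filter.2 ⟨haX, by omega⟩)
      have h4 : 1 < (nb G (nb G X v) a).card := by
        by_contra h
        have h5 : (nb G (nb G X v) a).card ≤ 1 := by omega
        have h6 := Nat.mul_le_mul_left (8 * n) h5
        have h7 := htn v hvO
        omega
      obtain ⟨y, hy, hyu⟩ := exists_mem_ne h4 u
      obtain ⟨hy1, hay⟩ := mem_nb.1 hy
      obtain ⟨hyX, hvy⟩ := mem_nb.1 hy1
      exact ⟨a, y, hyX, hyu, hva, huv, hua, hvy.symm, hay.symm⟩)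
    have hPd : n ≤ (Pd G X u).card := by omega
    have h9 := lo_embed hσ hPA hPR hPAI hPRD hno (nb G X u) (Lo G σ (nb G X u)) (Pd G X u) 2
      (nb_subset G X u) (Pd_subset G X u) subset_rfl
      (fun y hy => nb_PP hG (mem_Pd.1 hy).2.1 (mem_Pd.1 hy).2.2 _
        (fun z hz => (mem_nb.1 (Lo_subset G σ _ hz)).2)) (by omega)
    omega

end

end Pool.Agent.RamseyH5
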