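import Pool.Agent.RamseyH5.Process2

set_option autoImplicit false

/-!
# The join step: from an easy graph to its join with an independent set
-/

namespace Pool.Agent.RamseyH5

open Finset

section

open scoped Classical

variable {V W : Type}

/-- Data of the graph to be embedded. -/
structure Dat3 (H : SimpleGraph V) (A B : Finset V) (f σ M μ Ck : ℕ) [Fintype V] : Prop where
  hAI : ∀ x ∈ A, ∀ y ∈ A, ¬ H.Adj x y
  hcov : ∀ v, v ∈ A ∪ B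
  hσ1 : 1 ≤ σ
  hσ : Dg H univ σ
  hσμ : σ ^ 2 ≤ 4 * μ
  hμσ : μ ≤ σ ^ 2
  hVμ : Fintype.card V ≤ μ
  hμ : ∑ v : V, (univ.filter (fun u => H.Adj v u)).card ≤ μ
  hMμ : 262144 * μ ≤ M
  hN2 : Ck * (16 * μ) ^ (10 * f + 8) * (34359738368 * σ ^ 2) ^ (4 * f + 4) ≤
    M ^ (10 * f + 8) * (M / (16 * σ)) ^ (2 * f + 4)
  hN3 : 5444517870735015415413993718908291383296 * μ ^ 6 * σ ^ 4 ≤ M ^ 7

/-- The numbers controlling the refined count. -/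
theorem cancel_pow {X K M R a b : ℕ} (hK : 0 < K) (hM : 0 < M)
    (h : X * M ^ a * K ^ b ≤ M ^ a * (K * R) ^ b) : X ≤ R ^ b := by
  have h1 : M ^ a * K ^ b * X ≤ M ^ a * K ^ b * R ^ b := by
    calc M ^ a * K ^ b * X = X * M ^ a * K ^ b := by ring
      _ ≤ M ^ a * (K * R) ^ b := h
      _ = M ^ a * K ^ b * R ^ b := by rw [mul_pow]; ring
  exact Nat.le_of_mul_le_mul_left h1 (Nat.mul_pos (Nat.pow_pos hM) (Nat.pow_pos hK))

theorem numR {f σ M μ Ck E Δ n : ℕ} (hσ1 : 1 ≤ σ) (hM : 1 ≤ M)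
    (hN2 : Ck * (16 * μ) ^ (10 * f + 8) * (34359738368 * σ ^ 2) ^ (4 * f + 4) ≤
      M ^ (10 * f + 8) * E ^ (2 * f + 4)) (hE : 4096 * σ ≤ E) (hEΔ : E ≤ Δ)
    (hn1 : 1 ≤ n) (hn : 16384 * n ≤ Δ) (hnM : n * M ≤ 16 * μ * Δ) :
    8589934592 * σ ^ 2 * (Δ ^ 3 / (17179869184 * σ ^ 2) + n) ≤ Δ ^ 3 ∧
      Ck * n ^ (10 * f + 8) ≤ (Δ ^ 3 / (17179869184 * σ ^ 2)) ^ (4 * f + 4) := by
  set R := Δ ^ 3 / (17179869184 * σ ^ 2) with hR
  have hσ2 : 0 < σ ^ 2 := Nat.pow_pos hσ1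
  have hRΔ : 17179869184 * σ ^ 2 * R ≤ Δ ^ 3 := Nat.mul_div_le _ _
  have hΔR : Δ ^ 3 < 17179869184 * σ ^ 2 * (R + 1) := Nat.lt_mul_div_succ _ (by omega)
  have hΔσ : 1048576 * σ ^ 2 ≤ Δ ^ 2 := by
    calc 1048576 * σ ^ 2 = (1024 * σ) ^ 2 := by ring
      _ ≤ Δ ^ 2 := Nat.pow_le_pow_left (by omega) 2
  have hnR : n ≤ R := by
    rw [hR, Nat.le_div_iff_mul_le (by omega)]
    calc n * (17179869184 * σ ^ 2) = 1048576 * σ ^ 2 * (16384 * n) := by ring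
      _ ≤ Δ ^ 2 * Δ := Nat.mul_le_mul hΔσ hn
      _ = Δ ^ 3 := by ring
  refine ⟨?_, ?_⟩
  · calc 8589934592 * σ ^ 2 * (R + n) ≤ 8589934592 * σ ^ 2 * (2 * R) :=
          Nat.mul_le_mul_left _ (by omega)
      _ = 17179869184 * σ ^ 2 * R := by ring
      _ ≤ Δ ^ 3 := hRΔ
  · have h1 : Δ ^ 3 ≤ 34359738368 * σ ^ 2 * R := by
      calc Δ ^ 3 ≤ 17179869184 * σ ^ 2 * (R + 1) := hΔR.le
        _ ≤ 17179869184 * σ ^ 2 * (2 * R) := Nat.mul_le_mul_left _ (by omega)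
        _ = _ := by ring
    refine cancel_pow (K := 34359738368 * σ ^ 2) (M := M) (a := 10 * f + 8) (by omega) (by omega) ?_
    calc Ck * n ^ (10 * f + 8) * M ^ (10 * f + 8) * (34359738368 * σ ^ 2) ^ (4 * f + 4)
        = Ck * (n * M) ^ (10 * f + 8) * (34359738368 * σ ^ 2) ^ (4 * f + 4) := by
          rw [mul_pow]; ring
      _ ≤ Ck * (16 * μ * Δ) ^ (10 * f + 8) * (34359738368 * σ ^ 2) ^ (4 * f + 4) :=
          Nat.mul_le_mul_right _ (Nat.mul_le_mul_left _ (Nat.pow_le_pow_left hnM _))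
      _ = Ck * (16 * μ) ^ (10 * f + 8) * (34359738368 * σ ^ 2) ^ (4 * f + 4) *
          Δ ^ (10 * f + 8) := by rw [mul_pow (16 * μ) Δ]; ring
      _ ≤ M ^ (10 * f + 8) * E ^ (2 * f + 4) * Δ ^ (10 * f + 8) := Nat.mul_le_mul_right _ hN2
      _ ≤ M ^ (10 * f + 8) * Δ ^ (2 * f + 4) * Δ ^ (10 * f + 8) :=
          Nat.mul_le_mul_right _ (Nat.mul_le_mul_left _ (Nat.pow_le_pow_left hEΔ _))
      _ = M ^ (10 * f + 8) * (Δ ^ 3) ^ (4 * f + 4) := by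
          rw [← pow_mul, mul_assoc, ← pow_add]
          congr 2
          ring
      _ ≤ _ := Nat.mul_le_mul_left _ (Nat.pow_le_pow_left h1 _)

theorem numR2 {f σ M μ Ck E Δ n : ℕ} (hσ1 : 1 ≤ σ) (hM : 1 ≤ M)
    (hN2 : Ck * (16 * μ) ^ (10 * f + 8) * (34359738368 * σ ^ 2) ^ (4 * f + 4) ≤
      M ^ (10 * f + 8) * E ^ (2 * f + 4)) (hE : 4096 * σ ≤ E) (hEΔ : E ≤ Δ)
    (hn1 : 1 ≤ n) (hn : 16384 * n ≤ Δ) (hnM : n * M ≤ 16 * μ * Δ) :
    17592186044416 * σ ^ 4 * (Nat.sqrt (E * Δ ^ 5 / (70368744177664 * σ ^ 4)) + n) ^ 2 ≤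
      E * Δ ^ 5 ∧
      Ck * n ^ (10 * f + 8) ≤
        (Nat.sqrt (E * Δ ^ 5 / (70368744177664 * σ ^ 4))) ^ (4 * f + 4) := by
  set q := E * Δ ^ 5 / (70368744177664 * σ ^ 4) with hq
  set R := Nat.sqrt q with hR
  have hσ2 : 0 < σ ^ 2 := Nat.pow_pos hσ1
  have hσ4 : 0 < σ ^ 4 := Nat.pow_pos hσ1
  have hqE : 70368744177664 * σ ^ 4 * q ≤ E * Δ ^ 5 := Nat.mul_div_le _ _
  have hEq : E * Δ ^ 5 < 70368744177664 * σ ^ 4 * (q + 1) := Nat.lt_mul_div_succ _ (by omega)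
  have hRq : R ^ 2 ≤ q := by
    rw [Nat.pow_two]
    exact Nat.sqrt_le q
  have hqR : q < (R + 1) * (R + 1) := Nat.lt_succ_sqrt q
  have hEσ : 262144 * σ ^ 4 ≤ E * Δ ^ 3 := by
    calc 262144 * σ ^ 4 ≤ 281474976710656 * σ ^ 4 := Nat.mul_le_mul_right _ (by norm_num)
      _ = (4096 * σ) * (4096 * σ) ^ 3 := by ring
      _ ≤ E * Δ ^ 3 := Nat.mul_le_mul hE (Nat.pow_le_pow_left (hE.trans hEΔ) 3)
  have hnR : n ≤ R := by
    rw [hR, Nat.le_sqrt, hq, Nat.le_div_iff_mul_le (by omega)]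
    calc n * n * (70368744177664 * σ ^ 4) = 262144 * σ ^ 4 * (16384 * n) ^ 2 := by ring
      _ ≤ E * Δ ^ 3 * Δ ^ 2 := Nat.mul_le_mul hEσ (Nat.pow_le_pow_left hn 2)
      _ = E * Δ ^ 5 := by ring
  refine ⟨?_, ?_⟩
  · calc 17592186044416 * σ ^ 4 * (R + n) ^ 2 ≤ 17592186044416 * σ ^ 4 * (2 * R) ^ 2 :=
          Nat.mul_le_mul_left _ (Nat.pow_le_pow_left (by omega) 2)
      _ = 70368744177664 * σ ^ 4 * R ^ 2 := by ring
      _ ≤ 70368744177664 * σ ^ 4 * q := Nat.mul_le_mul_left _ hRq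
      _ ≤ _ := hqE
  · have h1 : E * Δ ^ 5 ≤ (34359738368 * σ ^ 2 * R) ^ 2 := by
      have h2 : q + 1 ≤ 4 * R ^ 2 := by
        have h3 : (R + 1) * (R + 1) ≤ (2 * R) * (2 * R) :=
          Nat.mul_le_mul (by omega) (by omega)
        have h4 : (2 * R) * (2 * R) = 4 * R ^ 2 := by ring
        omega
      calc E * Δ ^ 5 ≤ 70368744177664 * σ ^ 4 * (q + 1) := hEq.le
        _ ≤ 70368744177664 * σ ^ 4 * (4 * R ^ 2) := Nat.mul_le_mul_left _ h2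
        _ = 281474976710656 * (σ ^ 4 * R ^ 2) := by ring
        _ ≤ 1180591620717411303424 * (σ ^ 4 * R ^ 2) := Nat.mul_le_mul_right _ (by norm_num)
        _ = (34359738368 * σ ^ 2 * R) ^ 2 := by ring
    refine cancel_pow (K := 34359738368 * σ ^ 2) (M := M) (a := 10 * f + 8) (by omega) (by omega) ?_
    calc Ck * n ^ (10 * f + 8) * M ^ (10 * f + 8) * (34359738368 * σ ^ 2) ^ (4 * f + 4)
        = Ck * (n * M) ^ (10 * f + 8) * (34359738368 * σ ^ 2) ^ (4 * f + 4) := by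
          rw [mul_pow]; ring
      _ ≤ Ck * (16 * μ * Δ) ^ (10 * f + 8) * (34359738368 * σ ^ 2) ^ (4 * f + 4) :=
          Nat.mul_le_mul_right _ (Nat.mul_le_mul_left _ (Nat.pow_le_pow_left hnM _))
      _ = Ck * (16 * μ) ^ (10 * f + 8) * (34359738368 * σ ^ 2) ^ (4 * f + 4) *
          Δ ^ (10 * f + 8) := by rw [mul_pow (16 * μ) Δ]; ring
      _ ≤ M ^ (10 * f + 8) * E ^ (2 * f + 4) * Δ ^ (10 * f + 8) := Nat.mul_le_mul_right _ hN2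
      _ = M ^ (10 * f + 8) * (E ^ (2 * f + 2) * Δ ^ (10 * f + 8) * E ^ 2) := by
          rw [show 2 * f + 4 = (2 * f + 2) + 2 by ring, pow_add]
          ring
      _ ≤ M ^ (10 * f + 8) * (E ^ (2 * f + 2) * Δ ^ (10 * f + 8) * Δ ^ 2) :=
          Nat.mul_le_mul_left _ (Nat.mul_le_mul_left _ (Nat.pow_le_pow_left hEΔ _))
      _ = M ^ (10 * f + 8) * (E * Δ ^ 5) ^ (2 * f + 2) := by
          rw [mul_pow, ← pow_mul, mul_assoc (E ^ (2 * f + 2)), ← pow_add]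
          congr 3
          ring
      _ ≤ M ^ (10 * f + 8) * ((34359738368 * σ ^ 2 * R) ^ 2) ^ (2 * f + 2) :=
          Nat.mul_le_mul_left _ (Nat.pow_le_pow_left h1 _)
      _ = _ := by
          rw [← pow_mul]
          congr 2
          ring

end

end Pool.Agent.RamseyH5
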